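import Mathlib

/-! TASK AD: the adjugate of a matrix of corank one. -/

namespace Pool.Agent.LibGMMT

theorem exists_adj_factor {K : Type} [Field K] {n : ℕ} (A : Matrix (Fin (n + 1)) (Fin (n + 1)) K)
    (x : Fin (n + 1) → K) (hx : ∀ s, x s ≠ 0) (hA : A.mulVec x = 0) (hadj : A.adjugate ≠ 0) :
    ∃ z : Fin (n + 1) → K, z ≠ 0 ∧ Matrix.vecMul z A = 0 ∧ ∀ a b, A.adjugate a b = x a * z b := by
  have hx0 : x ≠ 0 := fun h => hx 0 (by rw [h]; rfl)
  have hdet : A.det = 0 := Matrix.exists_mulVec_eq_zero_iff.1 ⟨x, hx0, hA⟩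
  obtain ⟨a0, b0, hab⟩ : ∃ a b, A.adjugate a b ≠ 0 := by
    by_contra h
    push Not at h
    exact hadj (by ext a b; simpa using h a b)
  have key : ∀ v : Fin (n + 1) → K, A.mulVec v = 0 → v a0 = 0 → v = 0 := by
    intro v hv hv0
    rw [Matrix.adjugate_apply] at hab
    apply Matrix.eq_zero_of_mulVec_eq_zero hab
    ext r
    by_cases hr : r = b0
    · subst hr
      simp [Matrix.mulVec, Matrix.updateRow_self, hv0]
    · have := congrFun hv r
      simpa [Matrix.mulVec, Matrix.updateRow_ne hr] using this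
  have hcol : ∀ a b, A.adjugate a b = x a * (A.adjugate a0 b / x a0) := by
    intro a b
    have h1 : A.mulVec (fun c => A.adjugate c b) = 0 := by
      have h2 : A * A.adjugate = 0 := by rw [Matrix.mul_adjugate, hdet, zero_smul]
      ext r
      have := congrFun (congrFun h2 r) b
      simpa [Matrix.mul_apply, Matrix.mulVec, dotProduct] using this
    have h3 := key ((fun c => A.adjugate c b) - (A.adjugate a0 b / x a0) • x) (by
      rw [Matrix.mulVec_sub, Matrix.mulVec_smul, h1, hA, smul_zero, sub_zero]) (by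
      simp [div_mul_cancel₀ _ (hx a0)])
    have h4 := congrFun h3 a
    simp only [Pi.sub_apply, Pi.smul_apply, smul_eq_mul, Pi.zero_apply, sub_eq_zero] at h4
    rw [h4, mul_comm]
  refine ⟨fun b => A.adjugate a0 b / x a0, ?_, ?_, hcol⟩
  · intro h
    have h1 := congrFun h b0
    simp only [Pi.zero_apply, div_eq_zero_iff] at h1
    rcases h1 with h1 | h1
    · exact hab h1
    · exact hx a0 h1
  · have h2 : A.adjugate * A = 0 := by rw [Matrix.adjugate_mul, hdet, zero_smul]
    ext c
    have h3 := congrFun (congrFun h2 a0) c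
    simp only [Matrix.mul_apply, Matrix.zero_apply] at h3
    simp only [Matrix.vecMul, dotProduct, Pi.zero_apply]
    have h4 : x a0 * ∑ b, A.adjugate a0 b / x a0 * A b c = 0 := by
      rw [Finset.mul_sum, ← h3]
      refine Finset.sum_congr rfl fun b _ => ?_
      rw [← mul_assoc, mul_div_cancel₀ _ (hx a0)]
    exact (mul_eq_zero.1 h4).resolve_left (hx a0)

end Pool.Agent.LibGMMT
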