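import Mathlib

/-! TASK AI: a homomorphism from a model of `K` to `K` whose image generates `K` is induced by an
automorphism. -/

namespace Pool.Agent.LibGMMT

private theorem AlgIso_isAlgebraic {K : Type} [Field K] [Algebra ℂ K] (s : Set K)
    (hs : IntermediateField.adjoin ℂ s = ⊤) : Algebra.IsAlgebraic (Algebra.adjoin ℂ s) K := by
  refine ⟨fun y => ?_⟩
  have hy : y ∈ IntermediateField.adjoin ℂ s := by rw [hs]; trivial
  obtain ⟨r, hr, t, ht, rfl⟩ := IntermediateField.mem_adjoin_iff_div.1 hy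
  have h1 : IsAlgebraic (Algebra.adjoin ℂ s) r :=
    isAlgebraic_algebraMap (⟨r, hr⟩ : Algebra.adjoin ℂ s)
  have h2 : IsAlgebraic (Algebra.adjoin ℂ s) t :=
    isAlgebraic_algebraMap (⟨t, ht⟩ : Algebra.adjoin ℂ s)
  rw [div_eq_mul_inv]
  exact h1.mul h2.inv

theorem exists_algEquiv {K : Type} [Field K] [Algebra ℂ K] (N : ℕ) (hN : Algebra.trdeg ℂ K = N)
    (A : Subalgebra ℂ K) (hfrac : ∀ y : K, ∃ a ∈ A, ∃ b ∈ A, b ≠ 0 ∧ y = a / b)
    (ψ : A →ₐ[ℂ] K) (hψ : IntermediateField.adjoin ℂ (Set.range ψ) = ⊤) :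
    ∃ τ : K ≃ₐ[ℂ] K, ∀ a : A, τ (a : K) = ψ a := by
  have := AlgIso_isAlgebraic (Set.range ψ) hψ
  obtain ⟨u, -, hu, hbas⟩ := exists_isTranscendenceBasis_between (R := ℂ) (∅ : Set K)
    (Set.range ψ) (Set.empty_subset _) (algebraicIndependent_empty)
  have hcard : Cardinal.mk u = N := by rw [← hN, hbas.cardinalMk_eq_trdeg]
  have : Finite u := by
    rw [← Cardinal.lt_aleph0_iff_finite, hcard]
    exact Cardinal.natCast_lt_aleph0
  choose z hz using fun x : u => hu x.2
  have hcomp : (ψ ∘ z) = ((↑) : u → K) := funext hz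
  have hind : AlgebraicIndependent ℂ (ψ ∘ z) := by rw [hcomp]; exact hbas.1
  have hzind : AlgebraicIndependent ℂ z := AlgebraicIndependent.of_comp ψ hind
  have hle : Algebra.trdeg ℂ A ≤ Cardinal.mk u := by
    rw [hcard, ← hN]
    exact trdeg_le_of_injective A.val Subtype.val_injective
  have hzb := hzind.isTranscendenceBasis_of_trdeg_le_of_finite hle
  have := hzb.isAlgebraic
  have hinj : Function.Injective ψ := by
    rw [injective_iff_map_eq_zero]
    intro h hh
    by_contra hne
    have halg : IsAlgebraic (Algebra.adjoin ℂ (Set.range z)) h := Algebra.IsAlgebraic.isAlgebraic h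
    obtain ⟨r, hr, t, ht⟩ := halg.exists_nonzero_dvd (mem_nonZeroDivisors_of_ne_zero hne)
    have hψr : ψ (r : A) = 0 := by
      have h3 : (algebraMap (Algebra.adjoin ℂ (Set.range z)) A r) = (r : A) := rfl
      rw [← h3, ht, map_mul, hh, zero_mul]
    have hmem : (r : A) ∈ (MvPolynomial.aeval z : MvPolynomial u ℂ →ₐ[ℂ] A).range := by
      rw [← Algebra.adjoin_range_eq_range_aeval]
      exact r.2
    obtain ⟨P, hP⟩ := hmem
    have hP' : MvPolynomial.aeval z P = (r : A) := hP
    have h4 : MvPolynomial.aeval (ψ ∘ z) P = 0 := by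
      rw [← hψr, ← hP']
      have h6 : (ψ.comp (MvPolynomial.aeval z)) = (MvPolynomial.aeval (ψ ∘ z)) := by
        apply MvPolynomial.algHom_ext
        intro i
        simp
      rw [← h6]
      rfl
    have h5 : P = 0 := by
      apply hind
      rw [h4, map_zero]
    apply hr
    apply Subtype.ext
    rw [← hP', h5, map_zero]
    rfl
  have : IsFractionRing A K := by
    apply IsFractionRing.of_field A K
    intro y
    obtain ⟨a, ha, b, hb, -, rfl⟩ := hfrac y
    exact ⟨⟨a, ha⟩, ⟨b, hb⟩, rfl⟩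
  let f : K →ₐ[ℂ] K := IsFractionRing.liftAlgHom (A := A) (g := ψ) hinj
  have hf : ∀ a : A, f (a : K) = ψ a := fun a => by
    show IsFractionRing.lift hinj (algebraMap A K a) = ψ a
    rw [IsFractionRing.lift_algebraMap]
    rfl
  have hsurj : Function.Surjective f := by
    have h1 : IntermediateField.adjoin ℂ (Set.range ψ) ≤ f.fieldRange := by
      rw [IntermediateField.adjoin_le_iff]
      rintro _ ⟨a, rfl⟩
      exact ⟨(a : K), hf a⟩
    intro y
    have hy : y ∈ IntermediateField.adjoin ℂ (Set.range ψ) := by rw [hψ]; trivial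
    exact h1 hy
  refine ⟨AlgEquiv.ofBijective f ⟨f.toRingHom.injective, hsurj⟩, fun a => ?_⟩
  rw [AlgEquiv.ofBijective_apply]
  exact hf a

end Pool.Agent.LibGMMT
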