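import Mathlib

/-! TASK C1: the monomials on a plane curve of degree `≤ d`. -/

namespace Pool.Agent.LibGMMT

private def C1_S (t : ℕ) : Set (Fin 2 →₀ ℕ) := {x | x 0 + x 1 ≤ t}

private lemma C1_succ (t : ℕ) : C1_S (t + 1) ⊆ C1_S t ∪
    (fun i : ℕ => (Finsupp.single 0 i + Finsupp.single 1 (t + 1 - i) : Fin 2 →₀ ℕ)) ''
      (Finset.range (t + 2) : Set ℕ) := by
  intro x hx
  have hx' : x 0 + x 1 ≤ t + 1 := hx
  rcases Nat.lt_or_ge (x 0 + x 1) (t + 1) with h | h
  · left
    exact Nat.lt_succ_iff.1 h
  · right
    refine ⟨x 0, ?_, ?_⟩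
    · simp only [Finset.coe_range, Set.mem_Iio]
      omega
    · ext j
      fin_cases j
      · simp
      · simp
        omega

private lemma C1_zero : C1_S 0 ⊆ {0} := by
  intro x hx
  have hx' : x 0 + x 1 ≤ 0 := hx
  rw [Set.mem_singleton_iff]
  ext j
  fin_cases j
  · simp; omega
  · simp; omega

private lemma C1_fin : ∀ t, (C1_S t).Finite
  | 0 => (Set.finite_singleton _).subset C1_zero
  | t + 1 => ((C1_fin t).union ((Finset.finite_toSet _).image _)).subset (C1_succ t)

private lemma C1_card_succ (t : ℕ) : (C1_S (t + 1)).ncard ≤ (C1_S t).ncard + (t + 2) := by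
  refine (Set.ncard_le_ncard (C1_succ t)
    ((C1_fin t).union ((Finset.finite_toSet _).image _))).trans ?_
  refine (Set.ncard_union_le _ _).trans (Nat.add_le_add_left ?_ _)
  refine (Set.ncard_image_le (Finset.finite_toSet _)).trans ?_
  rw [Set.ncard_coe_finset, Finset.card_range]

private lemma C1_card_add (t : ℕ) : ∀ e : ℕ,
    (C1_S (t + e)).ncard ≤ (C1_S t).ncard + e * (t + e + 1)
  | 0 => by simp
  | e + 1 => by
    have h1 := C1_card_succ (t + e)
    have h2 := C1_card_add t e
    rw [show t + (e + 1) = t + e + 1 by ring]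
    nlinarith

private lemma C1_card_zero : (C1_S 0).ncard ≤ 1 := by
  refine (Set.ncard_le_ncard C1_zero (Set.finite_singleton _)).trans ?_
  rw [Set.ncard_singleton]

private lemma C1_eq (k : Type) [Field k] (t : ℕ) :
    MvPolynomial.restrictTotalDegree (Fin 2) k t = MvPolynomial.restrictSupport k (C1_S t) := by
  unfold MvPolynomial.restrictTotalDegree C1_S
  congr 1
  ext x
  simp only [Set.mem_setOf_eq]
  rw [Finsupp.sum_fintype _ _ (by simp), Fin.sum_univ_two]

private lemma C1_finite (k : Type) [Field k] (t : ℕ) :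
    Module.Finite k (MvPolynomial.restrictTotalDegree (Fin 2) k t) := by
  rw [C1_eq]
  have : Finite (C1_S t) := (C1_fin t).to_subtype
  exact Module.Finite.of_basis (MvPolynomial.basisRestrictSupport k (C1_S t))

private lemma C1_finrank (k : Type) [Field k] (t : ℕ) :
    Module.finrank k (MvPolynomial.restrictTotalDegree (Fin 2) k t) = (C1_S t).ncard := by
  rw [C1_eq, Module.finrank_eq_nat_card_basis (MvPolynomial.basisRestrictSupport k (C1_S t)),
    Nat.card_coe_set_eq]

private lemma C1_pow (k : Type) [Field k] : ∀ t : ℕ,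
    (MvPolynomial.restrictTotalDegree (Fin 2) k 1) ^ t ≤
      MvPolynomial.restrictTotalDegree (Fin 2) k t
  | 0 => by
    rw [pow_zero, Submodule.one_le, MvPolynomial.mem_restrictTotalDegree,
      MvPolynomial.totalDegree_one]
  | t + 1 => by
    rw [pow_succ, Submodule.mul_le]
    intro p hp q hq
    have hp' := (MvPolynomial.mem_restrictTotalDegree _ _ _).1 (C1_pow k t hp)
    have hq' := (MvPolynomial.mem_restrictTotalDegree _ _ _).1 hq
    rw [MvPolynomial.mem_restrictTotalDegree]
    exact (MvPolynomial.totalDegree_mul _ _).trans (Nat.add_le_add hp' hq')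

theorem ub {k K : Type} [Field k] [Field K] [Algebra k K] (a b : K) (P : MvPolynomial (Fin 2) k)
    (hP : P ≠ 0) (d : ℕ) (hd : P.totalDegree ≤ d) (h0 : MvPolynomial.aeval ![a, b] P = 0) :
    ∃ C : ℕ, ∀ t : ℕ,
      Module.finrank k ((Submodule.span k {1, a, b} : Submodule k K) ^ t : Submodule k K) ≤
        d * t + C := by
  let W : ℕ → Submodule k (MvPolynomial (Fin 2) k) := fun t =>
    MvPolynomial.restrictTotalDegree (Fin 2) k t
  have hfin : ∀ t, Module.Finite k (W t) := C1_finite k
  let f : MvPolynomial (Fin 2) k →ₐ[k] K := MvPolynomial.aeval ![a, b]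
  have hsub : ∀ t, (Submodule.span k {1, a, b} : Submodule k K) ^ t ≤
      (W t).map f.toLinearMap := by
    intro t
    have h1 : (Submodule.span k {1, a, b} : Submodule k K) ≤ (W 1).map f.toLinearMap := by
      rw [Submodule.span_le]
      intro y hy
      simp only [Set.mem_insert_iff, Set.mem_singleton_iff] at hy
      rcases hy with rfl | rfl | rfl
      · exact ⟨1, (MvPolynomial.mem_restrictTotalDegree _ _ _).2
          (by rw [MvPolynomial.totalDegree_one]; exact Nat.zero_le _), map_one f⟩
      · exact ⟨MvPolynomial.X 0, (MvPolynomial.mem_restrictTotalDegree _ _ _).2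
          (by rw [MvPolynomial.totalDegree_X]), by
            simp [f]⟩
      · exact ⟨MvPolynomial.X 1, (MvPolynomial.mem_restrictTotalDegree _ _ _).2
          (by rw [MvPolynomial.totalDegree_X]), by
            simp [f]⟩
    calc (Submodule.span k {1, a, b} : Submodule k K) ^ t
        ≤ ((W 1).map f.toLinearMap) ^ t := pow_le_pow_left₀ (by exact bot_le) h1 t
      _ = ((W 1) ^ t).map f.toLinearMap := (Submodule.map_pow _ _ _).symm
      _ ≤ (W t).map f.toLinearMap := Submodule.map_mono (C1_pow k t)
  have hle : ∀ t, Module.finrank k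
      ((Submodule.span k {1, a, b} : Submodule k K) ^ t : Submodule k K) ≤
      Module.finrank k ((W t).map f.toLinearMap) := fun t => Submodule.finrank_mono (hsub t)
  have hle2 : ∀ t, Module.finrank k ((W t).map f.toLinearMap) ≤ (C1_S t).ncard := fun t => by
    rw [← C1_finrank k t]
    exact Submodule.finrank_map_le _ _
  have hmain : ∀ t, Module.finrank k ((W (t + P.totalDegree)).map f.toLinearMap) +
      (C1_S t).ncard ≤ (C1_S (t + P.totalDegree)).ncard := by
    intro t
    let g : W (t + P.totalDegree) →ₗ[k] K := f.toLinearMap.domRestrict (W (t + P.totalDegree))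
    have h1 := LinearMap.finrank_range_add_finrank_ker g
    have h2 : LinearMap.range g = (W (t + P.totalDegree)).map f.toLinearMap :=
      LinearMap.range_domRestrict _ _
    rw [h2, C1_finrank] at h1
    have hmem : ∀ q : W t, P * (q : MvPolynomial (Fin 2) k) ∈ W (t + P.totalDegree) := by
      intro q
      have hq := (MvPolynomial.mem_restrictTotalDegree _ _ _).1 q.2
      refine (MvPolynomial.mem_restrictTotalDegree _ _ _).2 ?_
      refine (MvPolynomial.totalDegree_mul _ _).trans ?_
      omega
    let φ : W t →ₗ[k] LinearMap.ker g :=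
      { toFun := fun q => ⟨⟨P * (q : MvPolynomial (Fin 2) k), hmem q⟩, by
          rw [LinearMap.mem_ker]
          change f (P * (q : MvPolynomial (Fin 2) k)) = 0
          rw [map_mul, show f P = 0 from h0, zero_mul]⟩
        map_add' := fun q r => by
          apply Subtype.ext; apply Subtype.ext
          change P * ((q : MvPolynomial (Fin 2) k) + r) = P * q + P * r
          ring
        map_smul' := fun c q => by
          apply Subtype.ext; apply Subtype.ext
          change P * (c • (q : MvPolynomial (Fin 2) k)) = c • (P * q)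
          rw [mul_smul_comm] }
    have hφ : Function.Injective φ := by
      intro q r h
      have h3 : P * (q : MvPolynomial (Fin 2) k) = P * r := congrArg (fun z => (z.1.1)) h
      exact Subtype.ext (mul_left_cancel₀ hP h3)
    have h4 := LinearMap.finrank_le_finrank_of_injective hφ
    rw [C1_finrank] at h4
    omega
  refine ⟨d + 1 + P.totalDegree * (P.totalDegree + 1), fun t => ?_⟩
  refine (hle t).trans ?_
  rcases Nat.lt_or_ge t P.totalDegree with h | h
  · refine (hle2 t).trans ?_
    have h5 := C1_card_add 0 t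
    rw [zero_add] at h5
    have h6 := C1_card_zero
    nlinarith [Nat.mul_le_mul h.le (Nat.add_le_add_right h.le 1)]
  · obtain ⟨u, rfl⟩ := Nat.exists_eq_add_of_le' h
    have h5 := hmain u
    have h6 := C1_card_add u P.totalDegree
    have h7 := Nat.mul_le_mul_right (u + P.totalDegree + 1) hd
    nlinarith

end Pool.Agent.LibGMMT
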