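import Mathlib

/-! TASKS C2: lower bounds for the dimensions of powers of a linear system. -/

namespace Pool.Agent.LibGMMT

private theorem C2_pow_mem {k K : Type} [Field k] [Field K] [Algebra k K] (M : Submodule k K)
    (h1 : 1 ∈ M) {x : K} (hx : x ∈ M) {i s : ℕ} (his : i ≤ s) : x ^ i ∈ M ^ s := by
  have h2 : (1 : Submodule k K) ≤ M := Submodule.one_le.2 h1
  exact pow_le_pow_right' h2 his (Submodule.pow_mem_pow M hx i)

private theorem C2_mul_pow_mem {k K : Type} [Field k] [Field K] [Algebra k K] (M : Submodule k K)
    (h1 : 1 ∈ M) {x y : K} (hx : x ∈ M) (hy : y ∈ M) {i s : ℕ} (his : i + 1 ≤ s) :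
    y * x ^ i ∈ M ^ s := by
  have h2 : (1 : Submodule k K) ≤ M := Submodule.one_le.2 h1
  have h3 : y * x ^ i ∈ M ^ (i + 1) := by
    rw [pow_succ']
    exact Submodule.mul_mem_mul hy (Submodule.pow_mem_pow M hx i)
  exact pow_le_pow_right' h2 his h3

private theorem C2_aeval_mem {k K : Type} [Field k] [Field K] [Algebra k K] (M : Submodule k K)
    (h1 : 1 ∈ M) {x : K} (hx : x ∈ M) {s : ℕ} (A : Polynomial k) (hA : A ∈ Polynomial.degreeLT k (s + 1)) :
    Polynomial.aeval x A ∈ M ^ s := by
  rw [Polynomial.mem_degreeLT] at hA
  rw [Polynomial.aeval_eq_sum_range]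
  refine Submodule.sum_mem _ fun i hi => Submodule.smul_mem _ _ (C2_pow_mem M h1 hx ?_)
  by_cases h0 : A = 0
  · subst h0
    simp at hi
    omega
  · have h2 := (Polynomial.natDegree_lt_iff_degree_lt h0).2 hA
    rw [Finset.mem_range] at hi
    omega

private theorem C2_mul_aeval_mem {k K : Type} [Field k] [Field K] [Algebra k K] (M : Submodule k K)
    (h1 : 1 ∈ M) {x y : K} (hx : x ∈ M) (hy : y ∈ M) {s : ℕ} (A : Polynomial k)
    (hA : A ∈ Polynomial.degreeLT k s) :
    y * Polynomial.aeval x A ∈ M ^ s := by
  rw [Polynomial.mem_degreeLT] at hA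
  by_cases h0 : A = 0
  · subst h0
    simp
  rw [Polynomial.aeval_eq_sum_range, Finset.mul_sum]
  refine Submodule.sum_mem _ fun i hi => ?_
  rw [mul_smul_comm]
  refine Submodule.smul_mem _ _ (C2_mul_pow_mem M h1 hx hy ?_)
  have h2 := (Polynomial.natDegree_lt_iff_degree_lt h0).2 hA
  rw [Finset.mem_range] at hi
  omega

private theorem C2_count {k K : Type} [Field k] [Field K] [Algebra k K] (M : Submodule k K)
    (hM : M.FG) (h1 : 1 ∈ M) {x x' y : K} (hx : x ∈ M) (hx' : x' ∈ M) (hy : y ∈ M) (s : ℕ)
    (hinj : ∀ A B : Polynomial k, Polynomial.aeval x A + y * Polynomial.aeval x' B = 0 →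
      A = 0 ∧ B = 0) : 2 * s + 1 ≤ Module.finrank k (M ^ s : Submodule k K) := by
  have hfg : (M ^ s).FG := hM.pow s
  have : Module.Finite k (M ^ s : Submodule k K) := Module.Finite.iff_fg.2 hfg
  let Φ : (Polynomial.degreeLT k (s + 1) × Polynomial.degreeLT k s) →ₗ[k] (M ^ s : Submodule k K) :=
    { toFun := fun z => ⟨Polynomial.aeval x z.1.1 + y * Polynomial.aeval x' z.2.1,
        Submodule.add_mem _ (C2_aeval_mem M h1 hx _ z.1.2) (C2_mul_aeval_mem M h1 hx' hy _ z.2.2)⟩
      map_add' := by
        intro z w
        apply Subtype.ext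
        simp only [Prod.fst_add, Prod.snd_add, Submodule.coe_add, map_add]
        ring
      map_smul' := by
        intro c z
        apply Subtype.ext
        simp only [Prod.smul_fst, Prod.smul_snd, Submodule.coe_smul, map_smul, RingHom.id_apply,
          mul_smul_comm, smul_add] }
  have hΦ : Function.Injective Φ := by
    rw [← LinearMap.ker_eq_bot, LinearMap.ker_eq_bot']
    intro z hz
    have h2 : Polynomial.aeval x z.1.1 + y * Polynomial.aeval x' z.2.1 = 0 := congrArg Subtype.val hz
    obtain ⟨h3, h4⟩ := hinj _ _ h2
    exact Prod.ext (Subtype.ext h3) (Subtype.ext h4)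
  have h2 := LinearMap.finrank_le_finrank_of_injective hΦ
  have e1 : Module.finrank k (Polynomial.degreeLT k (s + 1)) = s + 1 := by
    rw [(Polynomial.degreeLTEquiv k (s + 1)).finrank_eq, Module.finrank_fin_fun]
  have e2 : Module.finrank k (Polynomial.degreeLT k s) = s := by
    rw [(Polynomial.degreeLTEquiv k s).finrank_eq, Module.finrank_fin_fun]
  have : Module.Finite k (Polynomial.degreeLT k (s + 1)) :=
    Module.Finite.equiv (Polynomial.degreeLTEquiv k (s + 1)).symm
  have : Module.Finite k (Polynomial.degreeLT k s) :=
    Module.Finite.equiv (Polynomial.degreeLTEquiv k s).symm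
  rw [Module.finrank_prod, e1, e2] at h2
  omega

theorem lb1 {k K : Type} [Field k] [Field K] [Algebra k K] (M : Submodule k K) (hM : M.FG)
    (p : K) (h1 : 1 ∈ M) (hp : p ∈ M) (htr : Transcendental k p) (s : ℕ) :
    s + 1 ≤ Module.finrank k (M ^ s : Submodule k K) := by
  have hfg : (M ^ s).FG := hM.pow s
  have : Module.Finite k (M ^ s : Submodule k K) := Module.Finite.iff_fg.2 hfg
  let Φ : (Polynomial.degreeLT k (s + 1)) →ₗ[k] (M ^ s : Submodule k K) :=
    { toFun := fun z => ⟨Polynomial.aeval p z.1, C2_aeval_mem M h1 hp _ z.2⟩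
      map_add' := by
        intro z w
        apply Subtype.ext
        simp only [Submodule.coe_add, map_add]
      map_smul' := by
        intro c z
        apply Subtype.ext
        simp only [Submodule.coe_smul, map_smul, RingHom.id_apply] }
  have hΦ : Function.Injective Φ := by
    rw [← LinearMap.ker_eq_bot, LinearMap.ker_eq_bot']
    intro z hz
    have h2 : Polynomial.aeval p z.1 = 0 := congrArg Subtype.val hz
    exact Subtype.ext ((transcendental_iff.1 htr) _ h2)
  have h2 := LinearMap.finrank_le_finrank_of_injective hΦ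
  rwa [(Polynomial.degreeLTEquiv k (s + 1)).finrank_eq, Module.finrank_fin_fun] at h2

theorem lb2 {k K : Type} [Field k] [Field K] [Algebra k K] (M : Submodule k K) (hM : M.FG)
    (p q : K) (h1 : 1 ∈ M) (hp : p ∈ M) (hq : q ∈ M) (htr : Transcendental k p)
    (hpq : q ∉ Submodule.span k {1, p}) (s : ℕ) :
    2 * s + 1 ≤ Module.finrank k (M ^ s : Submodule k K) := by
  classical
  have hinj : ∀ A : Polynomial k, Polynomial.aeval p A = 0 → A = 0 := transcendental_iff.1 htr
  by_cases hmem : ∃ r g : Polynomial k, g ≠ 0 ∧ q * Polynomial.aeval p g = Polynomial.aeval p r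
  · -- `q` is a rational function of `p`
    obtain ⟨f, g, hg, hcop, hfg⟩ : ∃ f g : Polynomial k, g ≠ 0 ∧ IsCoprime f g ∧
        q * Polynomial.aeval p g = Polynomial.aeval p f := by
      obtain ⟨f, g, hg, hfg⟩ := hmem
      have hd0 : EuclideanDomain.gcd f g ≠ 0 := by
        intro h
        exact hg (EuclideanDomain.gcd_eq_zero_iff.1 h).2
      obtain ⟨f', hf'⟩ := EuclideanDomain.gcd_dvd_left f g
      obtain ⟨g', hg'⟩ := EuclideanDomain.gcd_dvd_right f g
      refine ⟨f', g', ?_, ?_, ?_⟩
      · rintro rfl
        apply hg
        rw [hg', mul_zero]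
      · have h2 := EuclideanDomain.gcd_eq_gcd_ab f g
        refine ⟨EuclideanDomain.gcdA f g, EuclideanDomain.gcdB f g, ?_⟩
        apply mul_left_cancel₀ hd0
        rw [mul_one]
        conv_rhs => rw [h2]
        conv_rhs => rw [show f * EuclideanDomain.gcdA f g = (EuclideanDomain.gcd f g * f') *
          EuclideanDomain.gcdA f g by rw [← hf'], show g * EuclideanDomain.gcdB f g =
          (EuclideanDomain.gcd f g * g') * EuclideanDomain.gcdB f g by rw [← hg']]
        ring
      · have h3 : Polynomial.aeval p (EuclideanDomain.gcd f g) ≠ 0 := fun h => hd0 (hinj _ h)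
        apply mul_left_cancel₀ h3
        have h4 : Polynomial.aeval p f = Polynomial.aeval p (EuclideanDomain.gcd f g) *
            Polynomial.aeval p f' := by
          rw [← map_mul, ← hf']
        have h5 : Polynomial.aeval p g = Polynomial.aeval p (EuclideanDomain.gcd f g) *
            Polynomial.aeval p g' := by
          rw [← map_mul, ← hg']
        rw [← h4, ← hfg, h5]
        ring
    by_cases hu : g.natDegree = 0
    · -- `q` is a polynomial in `p`
      obtain ⟨c, hc⟩ : ∃ c : k, g = Polynomial.C c := ⟨g.coeff 0, Polynomial.eq_C_of_natDegree_eq_zero hu⟩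
      have hc0 : c ≠ 0 := by
        rintro rfl
        exact hg (by rw [hc, map_zero])
      obtain ⟨f, hf⟩ : ∃ f : Polynomial k, q = Polynomial.aeval p f := by
        refine ⟨Polynomial.C c⁻¹ * f, ?_⟩
        rw [map_mul, ← hfg, hc, Polynomial.aeval_C, Polynomial.aeval_C, map_inv₀]
        have : algebraMap k K c ≠ 0 := by
          rwa [Ne, map_eq_zero]
        field_simp
      have hdeg : 2 ≤ f.natDegree := by
        by_contra hlt
        apply hpq
        have h2 : f = Polynomial.C (f.coeff 1) * Polynomial.X + Polynomial.C (f.coeff 0) :=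
          Polynomial.eq_X_add_C_of_natDegree_le_one (by omega)
        rw [hf, h2, Submodule.mem_span_pair]
        refine ⟨f.coeff 0, f.coeff 1, ?_⟩
        simp only [map_add, map_mul, Polynomial.aeval_C, Polynomial.aeval_X, Algebra.smul_def,
          mul_one]
        ring
      refine C2_count M hM h1 hq hq hp s fun A B hAB => ?_
      have h2 : Polynomial.aeval p (A.comp f + Polynomial.X * B.comp f) = 0 := by
        rw [map_add, map_mul, Polynomial.aeval_comp, Polynomial.aeval_comp, Polynomial.aeval_X,
          ← hf]
        exact hAB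
      have h3 := hinj _ h2
      have hB : B = 0 := by
        by_contra hB
        have hBf : B.comp f ≠ 0 := by
          intro h
          rcases Polynomial.comp_eq_zero_iff.1 h with h | ⟨_, h⟩
          · exact hB h
          · rw [h, Polynomial.natDegree_C] at hdeg
            omega
        have h4 : A.comp f = -(Polynomial.X * B.comp f) := eq_neg_of_add_eq_zero_left h3
        have h5 := congrArg Polynomial.natDegree h4
        rw [Polynomial.natDegree_neg, Polynomial.natDegree_X_mul hBf, Polynomial.natDegree_comp,
          Polynomial.natDegree_comp] at h5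
        have h6 : f.natDegree ∣ 1 := by
          have h7 : f.natDegree ∣ B.natDegree * f.natDegree + 1 := by
            rw [← h5]
            exact dvd_mul_left _ _
          exact (Nat.dvd_add_right (dvd_mul_left _ _)).1 h7
        have := Nat.le_of_dvd one_pos h6
        omega
      subst hB
      rw [Polynomial.zero_comp, mul_zero, add_zero] at h3
      refine ⟨?_, rfl⟩
      rcases Polynomial.comp_eq_zero_iff.1 h3 with h | ⟨_, h⟩
      · exact h
      · rw [h, Polynomial.natDegree_C] at hdeg
        omega
    · -- the denominator is not constant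
      have hnu : ¬ IsUnit g := fun h => hu (Polynomial.natDegree_eq_zero_of_isUnit h)
      have hgp : Polynomial.aeval p g ≠ 0 := fun h => hg (hinj _ h)
      refine C2_count M hM h1 hp hq hq s fun A B hAB => ?_
      have key : ∀ (n : ℕ) (B : Polynomial k), B.natDegree < n → ∀ A : Polynomial k,
          Polynomial.aeval p A + q * Polynomial.aeval q B = 0 → B = 0 := by
        intro n B hn A hAB
        by_contra hB
        -- multiply by `g ^ (deg B + 1)`
        have hmul : ∀ C : Polynomial k, ∃ D : Polynomial k, (Polynomial.aeval p g) ^ C.natDegree *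
            Polynomial.aeval q C = Polynomial.aeval p (g * D + Polynomial.C C.leadingCoeff *
              f ^ C.natDegree) := by
          intro C
          refine ⟨∑ i ∈ Finset.range C.natDegree, Polynomial.C (C.coeff i) * f ^ i *
            g ^ (C.natDegree - i - 1), ?_⟩
          rw [Polynomial.aeval_eq_sum_range (p := C) q, Finset.sum_range_succ, mul_add, map_add]
          congr 1
          · rw [Finset.mul_sum, Finset.mul_sum, map_sum]
            refine Finset.sum_congr rfl fun i hi => ?_
            rw [Finset.mem_range] at hi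
            obtain ⟨j, hj⟩ := Nat.exists_eq_add_of_lt hi
            have e1 : C.natDegree - i - 1 = j := by omega
            have e2 : C.natDegree = i + (j + 1) := by omega
            rw [e1, e2]
            simp only [map_mul, map_pow, Polynomial.aeval_C, Algebra.smul_def, ← hfg]
            ring
          · simp only [map_mul, map_pow, Polynomial.aeval_C, Algebra.smul_def, ← hfg,
              Polynomial.leadingCoeff]
            ring
        obtain ⟨D, hD⟩ := hmul B
        have h2 : Polynomial.aeval p (g ^ (B.natDegree + 1) * A + f * (g * D +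
            Polynomial.C B.leadingCoeff * f ^ B.natDegree)) = 0 := by
          rw [map_add, map_mul, map_mul _ f, ← hD, ← hfg, map_pow]
          have : (Polynomial.aeval p g) ^ (B.natDegree + 1) * (Polynomial.aeval p A + q *
              Polynomial.aeval q B) = 0 := by rw [hAB, mul_zero]
          rw [← this]
          ring
        have h3 := hinj _ h2
        have h4 : g ∣ Polynomial.C B.leadingCoeff * f ^ (B.natDegree + 1) := by
          refine ⟨-(g ^ B.natDegree * A + f * D), ?_⟩
          linear_combination h3
        have h5 : g ∣ Polynomial.C B.leadingCoeff :=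
          (hcop.symm.pow_right).dvd_of_dvd_mul_right h4
        have h6 : IsUnit (Polynomial.C B.leadingCoeff) := by
          rw [Polynomial.isUnit_C, isUnit_iff_ne_zero]
          exact Polynomial.leadingCoeff_ne_zero.2 hB
        exact hnu (isUnit_of_dvd_unit h5 h6)
      have hB := key _ B (Nat.lt_succ_self _) A hAB
      subst hB
      rw [map_zero, mul_zero, add_zero] at hAB
      exact ⟨hinj _ hAB, rfl⟩
  · -- `q` is not in `k(p)`
    refine C2_count M hM h1 hp hp hq s fun A B hAB => ?_
    have hB : B = 0 := by
      by_contra hB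
      apply hmem
      refine ⟨-A, B, hB, ?_⟩
      rw [map_neg]
      linear_combination hAB
    subst hB
    rw [map_zero, mul_zero, add_zero] at hAB
    exact ⟨hinj _ hAB, rfl⟩

end Pool.Agent.LibGMMT
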