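import Mathlib

/-! TASK C3a: the pigeonhole principle for powers of a span. -/

namespace Pool.Agent.LibGMMT

open Pointwise

private theorem C3a_prod_mem {k K : Type} [Field k] [Field K] [Algebra k K] {n : ℕ}
    (w : Fin (n + 1) → K) {ι : Type} [DecidableEq ι] (f : ι → Fin (n + 1)) (T : Finset ι) :
    ∏ l ∈ T, w (f l) ∈ (Submodule.span k (Set.range w) ^ T.card : Submodule k K) := by
  induction T using Finset.induction_on with
  | empty =>
    simp only [Finset.prod_empty, Finset.card_empty, pow_zero]
    exact Submodule.one_le.1 le_rfl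
  | insert a T ha ih =>
    rw [Finset.prod_insert ha, Finset.card_insert_of_notMem ha, pow_succ, mul_comm (w (f a))]
    exact Submodule.mul_mem_mul ih (Submodule.subset_span ⟨f a, rfl⟩)

theorem pigeon {k K : Type} [Field k] [Field K] [Algebra k K] {n : ℕ} (w : Fin (n + 1) → K)
    (δ D : ℕ) (hD : (n + 1) * δ ≤ D) (y : K)
    (hy : y ∈ (Submodule.span k (Set.range w) ^ D : Submodule k K)) :
    y ∈ ⨆ t, (Submodule.span k {w t ^ δ} * Submodule.span k (Set.range w) ^ (D - δ) :
      Submodule k K) := by
  classical
  rw [Submodule.span_pow] at hy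
  revert y
  suffices h : Submodule.span k (Set.range w ^ D) ≤
      ⨆ t, (Submodule.span k {w t ^ δ} * Submodule.span k (Set.range w) ^ (D - δ) :
        Submodule k K) from fun y hy => h hy
  rw [Submodule.span_le]
  intro y hy
  rw [Set.mem_pow] at hy
  obtain ⟨g, rfl⟩ := hy
  choose f hf using fun l => (g l).2
  have hprod : (List.ofFn fun i => ((g i : Set.range w) : K)).prod = ∏ l, w (f l) := by
    rw [List.prod_ofFn]
    exact Finset.prod_congr rfl fun l _ => (hf l).symm
  rw [hprod]
  rcases Nat.eq_zero_or_pos δ with h0 | hpos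
  · subst h0
    refine Submodule.mem_iSup_of_mem 0 ?_
    simp only [pow_zero, Nat.sub_zero]
    have h1 := C3a_prod_mem (k := k) w f Finset.univ
    rw [Finset.card_univ, Fintype.card_fin] at h1
    have h2 := Submodule.mul_mem_mul (Submodule.mem_span_singleton_self (R := k) (1 : K)) h1
    rwa [one_mul] at h2
  · obtain ⟨t, ht⟩ : ∃ t, δ ≤ (Finset.univ.filter fun l => f l = t).card := by
      by_contra hcon
      push Not at hcon
      have h1 : D = ∑ t, (Finset.univ.filter fun l => f l = t).card := by
        have := Finset.card_eq_sum_card_fiberwise (f := f) (s := (Finset.univ : Finset (Fin D)))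
          (t := Finset.univ) (fun _ _ => Finset.mem_coe.2 (Finset.mem_univ _))
        simpa using this
      have h2 : ∑ t, (Finset.univ.filter fun l => f l = t).card ≤
          ∑ _t : Fin (n + 1), (δ - 1) :=
        Finset.sum_le_sum fun t _ => by have := hcon t; omega
      rw [Finset.sum_const, Finset.card_univ, Fintype.card_fin, smul_eq_mul, ← h1] at h2
      have h3 : (n + 1) * (δ - 1) < (n + 1) * δ := by
        apply Nat.mul_lt_mul_of_pos_left <;> omega
      omega
    obtain ⟨S, hS, hcard⟩ := Finset.exists_subset_card_eq ht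
    refine Submodule.mem_iSup_of_mem t ?_
    have hSt : ∏ l ∈ S, w (f l) = w t ^ δ := by
      rw [Finset.prod_congr rfl (g := fun _ => w t), Finset.prod_const, hcard]
      intro l hl
      rw [(Finset.mem_filter.1 (hS hl)).2]
    have hrest := C3a_prod_mem (k := k) w f (Finset.univ \ S)
    rw [Finset.card_sdiff_of_subset (Finset.subset_univ _), hcard, Finset.card_univ,
      Fintype.card_fin] at hrest
    rw [← Finset.prod_sdiff (Finset.subset_univ S), hSt, mul_comm (∏ x ∈ Finset.univ \ S, w (f x))]
    exact Submodule.mul_mem_mul (Submodule.mem_span_singleton_self _) hrest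

end Pool.Agent.LibGMMT
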