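import Pool.Agent.LibGMMT.C3a

/-! TASK C3b: multiplication by a section. -/

namespace Pool.Agent.LibGMMT

open Pointwise

private theorem C3b_adjoin {k K : Type} [Field k] [Field K] [Algebra k K] {n : ℕ}
    (w ξ : Fin (n + 1) → K) (s t : Fin (n + 1)) (hwt : w t ≠ 0) (hξs : ξ s ≠ 0) (y : K)
    (hy : y ∈ Algebra.adjoin k
      (Set.range (fun t' => w t' / w t) ∪ Set.range (fun s' => ξ s' / ξ s))) :
    ∃ D₀ E₀ : ℕ, ∀ D E : ℕ, D₀ ≤ D → E₀ ≤ E → y * w t ^ D * ξ s ^ E ∈
      (Submodule.span k (Set.range w) ^ D * Submodule.span k (Set.range ξ) ^ E :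
        Submodule k K) := by
  have hw' : ∀ t', w t' ∈ Submodule.span k (Set.range w) := fun t' => Submodule.subset_span ⟨t', rfl⟩
  have hξ' : ∀ t', ξ t' ∈ Submodule.span k (Set.range ξ) := fun t' => Submodule.subset_span ⟨t', rfl⟩
  induction hy using Algebra.adjoin_induction with
  | mem x hx =>
    rcases hx with ⟨t', rfl⟩ | ⟨s', rfl⟩
    · refine ⟨1, 0, fun D E hD _ => ?_⟩
      obtain ⟨D', rfl⟩ := Nat.exists_eq_add_of_le hD
      have h1 : (fun t' => w t' / w t) t' * w t ^ (1 + D') = w t' * w t ^ D' := by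
        show w t' / w t * w t ^ (1 + D') = w t' * w t ^ D'
        rw [pow_add, pow_one, ← mul_assoc, div_mul_cancel₀ _ hwt]
      rw [h1]
      refine Submodule.mul_mem_mul ?_ (Submodule.pow_mem_pow _ (hξ' s) E)
      rw [pow_add, pow_one]
      exact Submodule.mul_mem_mul (hw' t') (Submodule.pow_mem_pow _ (hw' t) D')
    · refine ⟨0, 1, fun D E _ hE => ?_⟩
      obtain ⟨E', rfl⟩ := Nat.exists_eq_add_of_le hE
      have h1 : (fun s' => ξ s' / ξ s) s' * w t ^ D * ξ s ^ (1 + E') =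
          w t ^ D * (ξ s' * ξ s ^ E') := by
        show ξ s' / ξ s * w t ^ D * ξ s ^ (1 + E') = w t ^ D * (ξ s' * ξ s ^ E')
        rw [pow_add, pow_one]
        field_simp
      rw [h1]
      refine Submodule.mul_mem_mul (Submodule.pow_mem_pow _ (hw' t) D) ?_
      rw [pow_add, pow_one]
      exact Submodule.mul_mem_mul (hξ' s') (Submodule.pow_mem_pow _ (hξ' s) E')
  | algebraMap r =>
    refine ⟨0, 0, fun D E _ _ => ?_⟩
    rw [mul_assoc, ← Algebra.smul_def]
    exact Submodule.smul_mem _ _ (Submodule.mul_mem_mul (Submodule.pow_mem_pow _ (hw' t) D)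
      (Submodule.pow_mem_pow _ (hξ' s) E))
  | add x y _ _ hx hy =>
    obtain ⟨D1, E1, h1⟩ := hx
    obtain ⟨D2, E2, h2⟩ := hy
    refine ⟨max D1 D2, max E1 E2, fun D E hD hE => ?_⟩
    rw [add_mul, add_mul]
    exact Submodule.add_mem _
      (h1 D E (le_trans (le_max_left _ _) hD) (le_trans (le_max_left _ _) hE))
      (h2 D E (le_trans (le_max_right _ _) hD) (le_trans (le_max_right _ _) hE))
  | mul x y _ _ hx hy =>
    obtain ⟨D1, E1, h1⟩ := hx
    obtain ⟨D2, E2, h2⟩ := hy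
    refine ⟨D1 + D2, E1 + E2, fun D E hD hE => ?_⟩
    obtain ⟨D', rfl⟩ := Nat.exists_eq_add_of_le hD
    obtain ⟨E', rfl⟩ := Nat.exists_eq_add_of_le hE
    have h3 := Submodule.mul_mem_mul (h1 D1 E1 le_rfl le_rfl)
      (h2 (D2 + D') (E2 + E') (Nat.le_add_right _ _) (Nat.le_add_right _ _))
    have h4 : x * y * w t ^ (D1 + D2 + D') * ξ s ^ (E1 + E2 + E') =
        x * w t ^ D1 * ξ s ^ E1 * (y * w t ^ (D2 + D') * ξ s ^ (E2 + E')) := by ring
    have h5 : (Submodule.span k (Set.range w) ^ (D1 + D2 + D') *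
        Submodule.span k (Set.range ξ) ^ (E1 + E2 + E') : Submodule k K) =
        Submodule.span k (Set.range w) ^ D1 * Submodule.span k (Set.range ξ) ^ E1 *
        (Submodule.span k (Set.range w) ^ (D2 + D') *
          Submodule.span k (Set.range ξ) ^ (E2 + E')) := by ring
    rw [h4, h5]
    exact h3

theorem sec_step {k K : Type} [Field k] [Field K] [Algebra k K] {n : ℕ} (w ξ : Fin (n + 1) → K)
    (hw : ∀ t, w t ≠ 0) (hξ : ∀ s, ξ s ≠ 0) (hw0 : w 0 = 1) (hξ0 : ξ 0 = 1)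
    (γ : K) (b : ℕ) (α : ℤ)
    (hsec : ∀ s t, γ * ξ s ^ b * w t ^ (-α) ∈ Algebra.adjoin k
      (Set.range (fun t' => w t' / w t) ∪ Set.range (fun s' => ξ s' / ξ s))) :
    ∃ D₁ E₁ : ℕ, 0 ≤ D₁ + α ∧ ∀ D E : ℕ, D₁ ≤ D → E₁ ≤ E →
      ∀ y ∈ (Submodule.span k (Set.range w) ^ D * Submodule.span k (Set.range ξ) ^ (E + b) :
        Submodule k K),
      γ * y ∈ (Submodule.span k (Set.range w) ^ (D + α).toNat * Submodule.span k (Set.range ξ) ^ E :
        Submodule k K) := by
  choose D0 E0 h0 using fun s t => C3b_adjoin w ξ s t (hw t) (hξ s) _ (hsec s t)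
  obtain ⟨DD, hDD⟩ : ∃ DD : ℕ, (∀ s t, D0 s t ≤ DD) ∧ α.natAbs ≤ DD := by
    refine ⟨(∑ s, ∑ t, D0 s t) + α.natAbs, fun s t => ?_, Nat.le_add_left _ _⟩
    have h1 : D0 s t ≤ ∑ t, D0 s t := Finset.single_le_sum (f := fun t => D0 s t)
      (fun _ _ => Nat.zero_le _) (Finset.mem_univ t)
    have h2 : ∑ t, D0 s t ≤ ∑ s, ∑ t, D0 s t := Finset.single_le_sum
      (f := fun s => ∑ t, D0 s t) (fun _ _ => Nat.zero_le _) (Finset.mem_univ s)
    omega
  obtain ⟨EE, hEE⟩ : ∃ EE : ℕ, ∀ s t, E0 s t ≤ EE := by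
    refine ⟨(∑ s, ∑ t, E0 s t), fun s t => ?_⟩
    have h1 : E0 s t ≤ ∑ t, E0 s t := Finset.single_le_sum (f := fun t => E0 s t)
      (fun _ _ => Nat.zero_le _) (Finset.mem_univ t)
    have h2 : ∑ t, E0 s t ≤ ∑ s, ∑ t, E0 s t := Finset.single_le_sum
      (f := fun s => ∑ t, E0 s t) (fun _ _ => Nat.zero_le _) (Finset.mem_univ s)
    omega
  obtain ⟨δ, hδ⟩ : ∃ δ : ℕ, (δ : ℤ) = DD - α := ⟨((DD : ℤ) - α).toNat, by
    rw [Int.toNat_of_nonneg]; have := hDD.2; omega⟩
  have hkey : ∀ s t, γ * (w t ^ δ * ξ s ^ (b + EE)) ∈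
      (Submodule.span k (Set.range w) ^ DD * Submodule.span k (Set.range ξ) ^ EE :
        Submodule k K) := by
    intro s t
    have h1 := h0 s t DD EE (hDD.1 s t) (hEE s t)
    have h2 : w t ^ δ = w t ^ (-α) * w t ^ DD := by
      rw [← zpow_natCast (w t) δ, hδ, ← zpow_natCast (w t) DD, ← zpow_add₀ (hw t)]
      congr 1
      ring
    have h3 : γ * (w t ^ δ * ξ s ^ (b + EE)) = γ * ξ s ^ b * w t ^ (-α) * w t ^ DD * ξ s ^ EE := by
      rw [h2, pow_add]
      ring
    rw [h3]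
    exact h1
  refine ⟨(n + 1) * δ + α.natAbs, (n + 1) * (b + EE), by omega, fun D E hD hE => ?_⟩
  have hEb : EE ≤ E := by
    have h1 : b + EE ≤ (n + 1) * (b + EE) := Nat.le_mul_of_pos_left _ (Nat.succ_pos n)
    omega
  have hδD : δ ≤ D := by
    have h1 : δ ≤ (n + 1) * δ := Nat.le_mul_of_pos_left _ (Nat.succ_pos n)
    omega
  have hle : (Submodule.span k (Set.range w) ^ D * Submodule.span k (Set.range ξ) ^ (E + b) :
      Submodule k K) ≤ (Submodule.span k (Set.range w) ^ (D + α).toNat *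
        Submodule.span k (Set.range ξ) ^ E : Submodule k K).comap (LinearMap.mulLeft k γ) := by
    have hA : (Submodule.span k (Set.range w) ^ D : Submodule k K) ≤
        ⨆ t, (Submodule.span k {w t ^ δ} * Submodule.span k (Set.range w) ^ (D - δ) :
          Submodule k K) := fun y hy => pigeon w δ D (by omega) y hy
    have hB : (Submodule.span k (Set.range ξ) ^ (E + b) : Submodule k K) ≤
        ⨆ s, (Submodule.span k {ξ s ^ (b + EE)} * Submodule.span k (Set.range ξ) ^ (E - EE) :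
          Submodule k K) := fun y hy => by
      have h1 := pigeon ξ (b + EE) (E + b) (by omega) y hy
      have h2 : E + b - (b + EE) = E - EE := by omega
      rwa [h2] at h1
    refine (mul_le_mul' hA hB).trans ?_
    rw [Submodule.iSup_mul]
    refine iSup_le fun t => ?_
    rw [Submodule.mul_iSup]
    refine iSup_le fun s => ?_
    rw [Submodule.mul_le]
    intro m hm m' hm'
    obtain ⟨z, hz, rfl⟩ := Submodule.mem_span_singleton_mul.1 hm
    obtain ⟨z', hz', rfl⟩ := Submodule.mem_span_singleton_mul.1 hm'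
    rw [Submodule.mem_comap, LinearMap.mulLeft_apply]
    have h1 := Submodule.mul_mem_mul (hkey s t) (Submodule.mul_mem_mul hz hz')
    have h2 : γ * (w t ^ δ * z * (ξ s ^ (b + EE) * z')) =
        γ * (w t ^ δ * ξ s ^ (b + EE)) * (z * z') := by ring
    have h3 : (Submodule.span k (Set.range w) ^ (D + α).toNat *
        Submodule.span k (Set.range ξ) ^ E : Submodule k K) =
        Submodule.span k (Set.range w) ^ DD * Submodule.span k (Set.range ξ) ^ EE *
        (Submodule.span k (Set.range w) ^ (D - δ) *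
          Submodule.span k (Set.range ξ) ^ (E - EE)) := by
      have h4 : (D + α).toNat = DD + (D - δ) := by omega
      have h5 : E = EE + (E - EE) := by omega
      rw [h4]
      conv_lhs => rw [h5]
      rw [pow_add, pow_add]
      ring
    rw [h2, h3]
    exact h1
  intro y hy
  exact hle hy

end Pool.Agent.LibGMMT
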