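import Mathlib

/-! TASK C4: the kernel vector of a matrix of linear forms in two variables. -/

namespace Pool.Agent.LibGMMT

private theorem C4_aeval_mem {k K : Type} [Field k] [Field K] [Algebra k K] (a b : K) (n : ℕ)
    (P : MvPolynomial (Fin 2) k) (hP : P.totalDegree ≤ n) :
    MvPolynomial.aeval ![a, b] P ∈ (Submodule.span k {1, a, b} ^ n : Submodule k K) := by
  have h1 : (1 : K) ∈ (Submodule.span k {1, a, b} : Submodule k K) :=
    Submodule.subset_span (by simp)
  have ha : a ∈ (Submodule.span k {1, a, b} : Submodule k K) := Submodule.subset_span (by simp)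
  have hb : b ∈ (Submodule.span k {1, a, b} : Submodule k K) := Submodule.subset_span (by simp)
  have hone : (1 : Submodule k K) ≤ Submodule.span k {1, a, b} := Submodule.one_le.2 h1
  rw [MvPolynomial.aeval_def, MvPolynomial.eval₂_eq']
  refine Submodule.sum_mem _ fun m hm => ?_
  rw [← Algebra.smul_def]
  refine Submodule.smul_mem _ _ ?_
  have hdeg : m 0 + m 1 ≤ n := by
    have h2 := MvPolynomial.le_totalDegree hm
    rw [Finsupp.sum_fintype _ _ (fun _ => rfl), Fin.sum_univ_two] at h2
    omega
  have h3 : (Submodule.span k {1, a, b} ^ (m 0 + m 1) : Submodule k K) ≤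
      Submodule.span k {1, a, b} ^ n := pow_le_pow_right' hone hdeg
  apply h3
  rw [Fin.prod_univ_two, pow_add]
  exact Submodule.mul_mem_mul (Submodule.pow_mem_pow _ ha _) (Submodule.pow_mem_pow _ hb _)

private theorem C4_degree {k : Type} [Field k] {n : ℕ}
    (A : Matrix (Fin (n + 1)) (Fin (n + 1)) (MvPolynomial (Fin 2) k))
    (hA1 : ∀ r c, (A r c).totalDegree ≤ 1) (s t : Fin (n + 1)) :
    (A.adjugate s t).totalDegree ≤ n := by
  rw [Matrix.adjugate_apply, Matrix.det_apply]
  refine (MvPolynomial.totalDegree_finsetSum _ _).trans (Finset.sup_le fun σ _ => ?_)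
  refine (MvPolynomial.totalDegree_smul_le _ _).trans ?_
  refine (MvPolynomial.totalDegree_finsetProd _ _).trans ?_
  have h1 : ∀ i ∈ (Finset.univ : Finset (Fin (n + 1))),
      (A.updateRow t (Pi.single s 1) (σ i) i).totalDegree ≤ if i = σ⁻¹ t then 0 else 1 := by
    intro i _
    by_cases hi : σ i = t
    · have h2 : i = σ⁻¹ t := by rw [← hi]; simp
      rw [if_pos h2, hi, Matrix.updateRow_self]
      by_cases his : i = s
      · subst his; simp
      · simp [Pi.single_eq_of_ne his]
    · have h2 : i ≠ σ⁻¹ t := fun h => hi (by rw [h]; simp)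
      rw [if_neg h2, Matrix.updateRow_ne hi]
      exact hA1 _ _
  refine (Finset.sum_le_sum h1).trans ?_
  rw [Finset.sum_ite]
  simp only [Finset.sum_const_zero, zero_add, Finset.sum_const, smul_eq_mul, mul_one]
  rw [Finset.filter_ne', Finset.card_erase_of_mem (Finset.mem_univ _), Finset.card_univ,
    Fintype.card_fin]
  omega

section

variable {k K : Type} [Field k] [Field K] [Algebra k K] {n : ℕ}
  (A : Matrix (Fin (n + 1)) (Fin (n + 1)) (MvPolynomial (Fin 2) k))
  (hA1 : ∀ r c, (A r c).totalDegree ≤ 1) (a b : K)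
  (ξ : Fin (n + 1) → K) (hξ0 : ξ 0 = 1)
  (hker : (A.map (MvPolynomial.aeval ![a, b])).mulVec ξ = 0)

include hA1 hξ0 hker

/-- The coordinates of the kernel vector are quotients of polynomials of degree `≤ n`. -/
theorem adj_step (hadj : (A.map (MvPolynomial.aeval (R := k) ![a, b])).adjugate ≠ 0) :
    ∃ h : K, h ≠ 0 ∧ ∀ D E : ℕ, ∀ y ∈ (Submodule.span k {1, a, b} ^ D *
      Submodule.span k (Set.range ξ) ^ E : Submodule k K),
        h ^ E * y ∈ (Submodule.span k {1, a, b} ^ (D + n * E) : Submodule k K) := by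
  set B := A.map (MvPolynomial.aeval (R := k) ![a, b]) with hB
  have hξne : ξ ≠ 0 := fun h => by
    rw [h] at hξ0
    exact zero_ne_one hξ0
  have hdet : B.det = 0 := Matrix.exists_mulVec_eq_zero_iff.1 ⟨ξ, hξne, hker⟩
  obtain ⟨a0, b0, hab⟩ : ∃ a b, B.adjugate a b ≠ 0 := by
    by_contra h
    push Not at h
    exact hadj (by ext a b; simpa using h a b)
  have key : ∀ v : Fin (n + 1) → K, B.mulVec v = 0 → v a0 = 0 → v = 0 := by
    intro v hv hv0
    have hab' := hab
    rw [Matrix.adjugate_apply] at hab'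
    apply Matrix.eq_zero_of_mulVec_eq_zero hab'
    ext r
    by_cases hr : r = b0
    · subst hr
      simp [Matrix.mulVec, Matrix.updateRow_self, hv0]
    · have := congrFun hv r
      simpa [Matrix.mulVec, Matrix.updateRow_ne hr] using this
  have hξa : ξ a0 ≠ 0 := fun h => hξne (key ξ hker h)
  have hcol : ∀ s, B.adjugate s b0 = ξ s * (B.adjugate a0 b0 / ξ a0) := by
    intro s
    have h1 : B.mulVec (fun c => B.adjugate c b0) = 0 := by
      have h2 : B * B.adjugate = 0 := by rw [Matrix.mul_adjugate, hdet, zero_smul]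
      ext r
      have := congrFun (congrFun h2 r) b0
      simpa [Matrix.mul_apply, Matrix.mulVec, dotProduct] using this
    have h3 := key ((fun c => B.adjugate c b0) - (B.adjugate a0 b0 / ξ a0) • ξ) (by
      rw [Matrix.mulVec_sub, Matrix.mulVec_smul, h1, hker, smul_zero, sub_zero]) (by
      simp [div_mul_cancel₀ _ hξa])
    have h4 := congrFun h3 s
    simp only [Pi.sub_apply, Pi.smul_apply, smul_eq_mul, Pi.zero_apply, sub_eq_zero] at h4
    rw [h4, mul_comm]
  have hmem : ∀ s, B.adjugate s b0 ∈ (Submodule.span k {1, a, b} ^ n : Submodule k K) := by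
    intro s
    have h1 : B.adjugate s b0 = MvPolynomial.aeval ![a, b] (A.adjugate s b0) := by
      have h2 := RingHom.map_adjugate
        (MvPolynomial.aeval (R := k) ![a, b] : MvPolynomial (Fin 2) k →ₐ[k] K).toRingHom A
      have h3 := congrFun (congrFun h2 s) b0
      exact h3.symm
    rw [h1]
    exact C4_aeval_mem a b n _ (C4_degree A hA1 s b0)
  refine ⟨B.adjugate a0 b0 / ξ a0, div_ne_zero hab hξa, ?_⟩
  have hspan : (Submodule.span k {B.adjugate a0 b0 / ξ a0} * Submodule.span k (Set.range ξ) :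
      Submodule k K) ≤ Submodule.span k {1, a, b} ^ n := by
    rw [Submodule.span_mul_span, Submodule.span_le]
    rintro _ ⟨x, hx, _, ⟨s, rfl⟩, rfl⟩
    rw [Set.mem_singleton_iff] at hx
    subst hx
    show B.adjugate a0 b0 / ξ a0 * ξ s ∈ _
    rw [mul_comm, ← hcol]
    exact hmem s
  intro D E y hy
  have h1 := Submodule.mul_mem_mul (Submodule.mem_span_singleton_self (R := k)
    ((B.adjugate a0 b0 / ξ a0) ^ E)) hy
  have h2 : (Submodule.span k {(B.adjugate a0 b0 / ξ a0) ^ E} *
      (Submodule.span k {1, a, b} ^ D * Submodule.span k (Set.range ξ) ^ E) : Submodule k K) ≤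
      Submodule.span k {1, a, b} ^ (D + n * E) := by
    have h3 : (Submodule.span k {(B.adjugate a0 b0 / ξ a0) ^ E} : Submodule k K) =
        Submodule.span k {B.adjugate a0 b0 / ξ a0} ^ E := by
      rw [Submodule.span_pow, Set.singleton_pow]
    rw [h3, mul_left_comm, ← mul_pow, pow_add, pow_mul]
    exact mul_le_mul' le_rfl (pow_le_pow_left' hspan E)
  exact h2 h1

end

end Pool.Agent.LibGMMT
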