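import Mathlib

/-! TASK C5: the kernel vector of a matrix of linear forms in two variables. -/

namespace Pool.Agent.LibGMMT

section

variable {k K : Type} [Field k] [Field K] [Algebra k K] {n : ℕ}
  (A : Matrix (Fin (n + 1)) (Fin (n + 1)) (MvPolynomial (Fin 2) k))
  (hA1 : ∀ r c, (A r c).totalDegree ≤ 1) (a b : K)
  (ξ : Fin (n + 1) → K) (hξ0 : ξ 0 = 1)
  (hker : (A.map (MvPolynomial.aeval ![a, b])).mulVec ξ = 0)

include hA1 hξ0 hker

/-- The coordinates of the kernel vector are not on a line, if there is no equation of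
degree `≤ 2`. -/
theorem exists_off_line (hA : A.det ≠ 0)
    (h2 : ∀ P : MvPolynomial (Fin 2) k, P.totalDegree ≤ 2 → MvPolynomial.aeval ![a, b] P = 0 →
      P = 0) (c : Fin (n + 1)) (hc : Transcendental k (ξ c)) :
    ∃ s, ξ s ∉ Submodule.span k {1, ξ c} := by
  by_contra hcon
  push Not at hcon
  have hc0 : (0 : Fin (n + 1)) ≠ c := by
    intro h
    apply hc
    rw [← h, hξ0]
    exact isAlgebraic_one
  have h1 : ∀ s, ∃ p : k × k, p.1 • (1 : K) + p.2 • ξ c = ξ s := by
    intro s
    obtain ⟨x, y, hxy⟩ := Submodule.mem_span_pair.1 (hcon s)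
    exact ⟨(x, y), hxy⟩
  obtain ⟨α, β, hαβ, hα0, hαc, hβc⟩ : ∃ α β : Fin (n + 1) → k,
      (∀ s, α s • (1 : K) + β s • ξ c = ξ s) ∧ α 0 = 1 ∧ α c = 0 ∧ β c = 1 := by
    choose p hp using h1
    refine ⟨fun s => if s = c then 0 else if s = 0 then 1 else (p s).1,
      fun s => if s = c then 1 else if s = 0 then 0 else (p s).2, ?_, ?_, ?_, ?_⟩
    · intro s
      by_cases hs : s = c
      · subst hs; simp
      · by_cases hs0 : s = 0
        · subst hs0; simp [hc0, hξ0]
        · simp only [if_neg hs, if_neg hs0]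
          exact hp s
    · simp [hc0]
    · simp
    · simp
  -- the vectors over the polynomial ring
  set α' : Fin (n + 1) → MvPolynomial (Fin 2) k := fun s => MvPolynomial.C (α s) with hα'
  set β' : Fin (n + 1) → MvPolynomial (Fin 2) k := fun s => MvPolynomial.C (β s) with hβ'
  have hdeg : ∀ (γ : Fin (n + 1) → k) (r : Fin (n + 1)),
      (A.mulVec (fun s => MvPolynomial.C (γ s)) r).totalDegree ≤ 1 := by
    intro γ r
    unfold Matrix.mulVec dotProduct
    refine (MvPolynomial.totalDegree_finsetSum _ _).trans (Finset.sup_le fun s _ => ?_)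
    refine (MvPolynomial.totalDegree_mul _ _).trans ?_
    rw [MvPolynomial.totalDegree_C, add_zero]
    exact hA1 r s
  have hrel : ∀ r, MvPolynomial.aeval ![a, b] (A.mulVec α' r) =
      - (ξ c * MvPolynomial.aeval ![a, b] (A.mulVec β' r)) := by
    intro r
    have h3 := congrFun hker r
    rw [eq_neg_iff_add_eq_zero]
    simp only [Matrix.mulVec, dotProduct, Matrix.map_apply, Pi.zero_apply] at h3
    simp only [Matrix.mulVec, dotProduct, map_sum, map_mul, hα', hβ', Finset.mul_sum,
      MvPolynomial.aeval_C]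
    rw [← Finset.sum_add_distrib, ← h3]
    refine Finset.sum_congr rfl fun s _ => ?_
    rw [← hαβ s, Algebra.smul_def, Algebra.smul_def]
    ring
  have hminor : ∀ r r', A.mulVec α' r * A.mulVec β' r' - A.mulVec α' r' * A.mulVec β' r = 0 := by
    intro r r'
    apply h2
    · refine (MvPolynomial.totalDegree_sub _ _).trans (max_le ?_ ?_)
      · refine (MvPolynomial.totalDegree_mul _ _).trans ?_
        have h3 := hdeg α r
        have h4 := hdeg β r'
        simp only [← hα', ← hβ'] at h3 h4
        omega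
      · refine (MvPolynomial.totalDegree_mul _ _).trans ?_
        have h3 := hdeg α r'
        have h4 := hdeg β r
        simp only [← hα', ← hβ'] at h3 h4
        omega
    · rw [map_sub, map_mul, map_mul, hrel, hrel]
      ring
  by_cases hz : A.mulVec α' = 0
  · apply hA
    apply Matrix.exists_mulVec_eq_zero_iff.1
    refine ⟨α', ?_, hz⟩
    intro h
    have h3 := congrFun h 0
    simp [hα', hα0] at h3
  · obtain ⟨r, hr⟩ : ∃ r, A.mulVec α' r ≠ 0 := by
      by_contra h
      push Not at h
      exact hz (funext h)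
    apply hA
    apply Matrix.exists_mulVec_eq_zero_iff.1
    refine ⟨A.mulVec β' r • α' - A.mulVec α' r • β', ?_, ?_⟩
    · intro h
      have h3 := congrFun h c
      simp only [Pi.sub_apply, Pi.smul_apply, smul_eq_mul, Pi.zero_apply] at h3
      rw [hα', hβ'] at h3
      simp only [hαc, hβc, MvPolynomial.C_0, mul_zero, zero_sub, MvPolynomial.C_1, mul_one,
        neg_eq_zero] at h3
      exact hr h3
    · ext1 r'
      rw [Matrix.mulVec_sub, Matrix.mulVec_smul, Matrix.mulVec_smul]
      simp only [Pi.sub_apply, Pi.smul_apply, smul_eq_mul, Pi.zero_apply]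
      have h3 := hminor r r'
      linear_combination -h3

end

end Pool.Agent.LibGMMT
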