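import Pool.Agent.LibGMMT.FDefs

/-! TASK FO1: the form under homomorphisms. -/

open Pool.Agent.LibGMM

namespace Pool.Agent.LibGMMT

variable {J F : Type} [Fintype J] [DecidableEq J] [Fintype F] [DecidableEq F] {n : ℕ} {m : F → ℕ}
variable {R R' : Type} [CommRing R] [Algebra ℂ R] [CommRing R'] [Algebra ℂ R']

theorem form_map (T : Tensor J n m) (φ : R →ₐ[ℂ] R') (y : (Σ f : F, Fin (m f + 1)) → R)
    (v : Option J → Fin (n + 1) → R) :
    φ (form T y v) = form T (fun w => φ (y w)) fun o t => φ (v o t) := by
  unfold form
  rw [map_sum]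
  refine Finset.sum_congr rfl fun s _ => ?_
  rw [map_mul, map_prod, MvPolynomial.comp_aeval_apply]

private theorem FO1_single (φ : R →ₐ[ℂ] R') (r t : Fin (n + 1)) :
    φ ((Pi.single r 1 : Fin (n + 1) → R) t) = (Pi.single r 1 : Fin (n + 1) → R') t := by
  rw [Pi.single_apply, Pi.single_apply]
  split_ifs
  · exact map_one φ
  · exact map_zero φ

theorem eqn_map (T : Tensor J n m) (φ : R →ₐ[ℂ] R')
    (p : (g : J ⊕ F) → Fin (dims J n m g + 1) → R) (r : Fin (n + 1)) :
    φ (eqn T p r) = eqn T (fun g t => φ (p g t)) r := by
  unfold eqn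
  rw [form_map]
  congr 1
  funext o t
  cases o with
  | none => exact FO1_single φ r t
  | some j => rfl

theorem mat_map (T : Tensor J n m) (φ : R →ₐ[ℂ] R')
    (p : (g : J ⊕ F) → Fin (dims J n m g + 1) → R) (i : J) :
    (mat T p i).map φ = mat T (fun g t => φ (p g t)) i := by
  ext r c
  rw [Matrix.map_apply]
  unfold mat
  rw [form_map]
  congr 1
  funext o t
  cases o with
  | none => exact FO1_single φ r t
  | some j =>
    change φ (Function.update (fun j => p (Sum.inl j)) i (Pi.single c 1) j t) =
      Function.update (fun j => (fun t => φ (p (Sum.inl j) t) : Fin (n + 1) → R')) i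
        (Pi.single c 1) j t
    by_cases hj : j = i
    · subst hj
      rw [Function.update_self, Function.update_self]
      exact FO1_single φ c t
    · rw [Function.update_of_ne hj, Function.update_of_ne hj]

/-- The matrix does not depend on the `i`-th group of coordinates. -/
theorem mat_congr (T : Tensor J n m) (p p' : (g : J ⊕ F) → Fin (dims J n m g + 1) → R) (i : J)
    (h : ∀ g, g ≠ Sum.inl i → p g = p' g) : mat T p i = mat T p' i := by
  ext r c
  have h1 : (fun v : Σ f : F, Fin (m f + 1) => p (Sum.inr v.1) v.2) =
      fun v => p' (Sum.inr v.1) v.2 := by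
    funext v
    rw [h (Sum.inr v.1) (by simp)]
  have h2 : ∀ j, Function.update (fun j => (p (Sum.inl j) : Fin (n + 1) → R)) i
        (Pi.single c 1) j =
      Function.update (fun j => (p' (Sum.inl j) : Fin (n + 1) → R)) i (Pi.single c 1) j := by
    intro j
    by_cases hj : j = i
    · subst hj
      rw [Function.update_self, Function.update_self]
    · rw [Function.update_of_ne hj, Function.update_of_ne hj]
      exact h (Sum.inl j) (fun h3 => hj (Sum.inl_injective h3))
  have h3 : (fun o : Option J => o.elim (Pi.single r 1 : Fin (n + 1) → R)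
        (Function.update (fun j => (p (Sum.inl j) : Fin (n + 1) → R)) i (Pi.single c 1))) =
      fun o : Option J => o.elim (Pi.single r 1 : Fin (n + 1) → R)
        (Function.update (fun j => (p' (Sum.inl j) : Fin (n + 1) → R)) i (Pi.single c 1)) := by
    funext o
    cases o with
    | none => rfl
    | some j => exact h2 j
  exact congrArg₂ (fun y v => form T y v) h1 h3

end Pool.Agent.LibGMMT
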