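import Pool.Agent.LibGMMT.FDefs

/-! TASK FO2: linearity of the form. -/

open Pool.Agent.LibGMM

namespace Pool.Agent.LibGMMT

variable {J F : Type} [Fintype J] [DecidableEq J] [Fintype F] [DecidableEq F] {n : ℕ} {m : F → ℕ}
variable {R R' : Type} [CommRing R] [Algebra ℂ R] [CommRing R'] [Algebra ℂ R']

private theorem FO2_update (T : Tensor J n m) (y : (Σ f : F, Fin (m f + 1)) → R)
    (v : Option J → Fin (n + 1) → R) (o : Option J) (w : Fin (n + 1) → R) :
    form T y (Function.update v o w) = ∑ s : Option J → Fin (n + 1),
      MvPolynomial.aeval y (T s) * (w (s o) * ∏ o' ∈ Finset.univ.erase o, v o' (s o')) := by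
  unfold form
  refine Finset.sum_congr rfl fun s _ => ?_
  rw [← Finset.mul_prod_erase Finset.univ _ (Finset.mem_univ o), Function.update_self]
  congr 2
  refine Finset.prod_congr rfl fun o' ho' => ?_
  rw [Function.update_of_ne (Finset.ne_of_mem_erase ho')]

private theorem FO2_sum (T : Tensor J n m) (y : (Σ f : F, Fin (m f + 1)) → R)
    (v : Option J → Fin (n + 1) → R) (o : Option J) {κ : Type} (S : Finset κ) (a : κ → R)
    (w : κ → Fin (n + 1) → R) :
    form T y (Function.update v o fun t => ∑ k ∈ S, a k * w k t) =
      ∑ k ∈ S, a k * form T y (Function.update v o (w k)) := by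
  rw [FO2_update]
  have h1 : ∀ k ∈ S, a k * form T y (Function.update v o (w k)) =
      ∑ s : Option J → Fin (n + 1), a k * (MvPolynomial.aeval y (T s) *
        (w k (s o) * ∏ o' ∈ Finset.univ.erase o, v o' (s o'))) := by
    intro k _
    rw [FO2_update, Finset.mul_sum]
  rw [Finset.sum_congr rfl h1, Finset.sum_comm]
  refine Finset.sum_congr rfl fun s _ => ?_
  rw [Finset.sum_mul, Finset.mul_sum]
  refine Finset.sum_congr rfl fun k _ => ?_
  ring

private theorem FO2_elim (v : J → Fin (n + 1) → R) (r : Fin (n + 1)) (i : J)
    (w : Fin (n + 1) → R) :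
    (fun o : Option J => o.elim (Pi.single r 1 : Fin (n + 1) → R) (Function.update v i w)) =
      Function.update (fun o : Option J => o.elim (Pi.single r 1 : Fin (n + 1) → R) v)
        (some i) w := by
  funext o
  cases o with
  | none =>
    rw [Function.update_of_ne (by simp)]
    rfl
  | some j =>
    by_cases hj : j = i
    · subst hj
      rw [Function.update_self]
      exact Function.update_self _ _ _
    · rw [Function.update_of_ne (by simpa using hj)]
      exact Function.update_of_ne hj _ _

private theorem FO2_upd (p : (g : J ⊕ F) → Fin (dims J n m g + 1) → R) (i : J)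
    (w : Fin (n + 1) → R) (j : J) :
    (Function.update p (Sum.inl i) w (Sum.inl j) : Fin (n + 1) → R) =
      Function.update (fun j => (p (Sum.inl j) : Fin (n + 1) → R)) i w j := by
  by_cases hj : j = i
  · subst hj
    have e1 : Function.update p (Sum.inl j) w (Sum.inl j) = w := Function.update_self _ _ _
    have e2 : Function.update (fun j => (p (Sum.inl j) : Fin (n + 1) → R)) j w j = w :=
      Function.update_self _ _ _
    exact e1.trans e2.symm
  · rw [Function.update_of_ne hj]
    exact Function.update_of_ne (fun h => hj (Sum.inl_injective h)) _ _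

private theorem FO2_y (p : (g : J ⊕ F) → Fin (dims J n m g + 1) → R) (i : J)
    (w : Fin (n + 1) → R) :
    (fun v : Σ f : F, Fin (m f + 1) =>
      (Function.update p (Sum.inl i) w (Sum.inr v.1) : Fin (m v.1 + 1) → R) v.2) =
      fun v => (p (Sum.inr v.1) : Fin (m v.1 + 1) → R) v.2 := by
  funext v
  exact congrFun (Function.update_of_ne (by simp) _ _) v.2

private theorem FO2_eqn (T : Tensor J n m) (p : (g : J ⊕ F) → Fin (dims J n m g + 1) → R) (i : J)
    (w : Fin (n + 1) → R) (r : Fin (n + 1)) :
    eqn T (Function.update p (Sum.inl i) w) r =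
      form T (fun v => (p (Sum.inr v.1) : Fin (m v.1 + 1) → R) v.2) (Function.update
        (fun o : Option J => o.elim (Pi.single r 1 : Fin (n + 1) → R)
          (fun j => (p (Sum.inl j) : Fin (n + 1) → R))) (some i) w) := by
  rw [← FO2_elim]
  refine congrArg₂ (fun y v => form T y v) (FO2_y p i w) ?_
  funext o
  cases o with
  | none => rfl
  | some j => exact FO2_upd p i w j

theorem mat_mulVec (T : Tensor J n m) (p : (g : J ⊕ F) → Fin (dims J n m g + 1) → R) (i : J)
    (w : Fin (n + 1) → R) :
    (mat T p i).mulVec w = eqn T (Function.update p (Sum.inl i) w) := by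
  funext r
  have h3 : w = fun t => ∑ c, w c * (Pi.single c 1 : Fin (n + 1) → R) t := by
    funext t
    rw [Finset.sum_eq_single t]
    · rw [Pi.single_eq_same, mul_one]
    · intro c _ hc
      rw [Pi.single_eq_of_ne (Ne.symm hc), mul_zero]
    · intro h
      exact absurd (Finset.mem_univ t) h
  rw [FO2_eqn]
  conv_rhs => rw [h3]
  rw [FO2_sum]
  unfold Matrix.mulVec dotProduct
  refine Finset.sum_congr rfl fun c _ => ?_
  rw [mul_comm]
  congr 1
  exact congrArg (form T _) (FO2_elim (fun j => (p (Sum.inl j) : Fin (n + 1) → R)) r i _)

/-- The matrix is linear in the coordinates of the `j`-th factor. -/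
theorem mat_update_lin (T : Tensor J n m) (p : (g : J ⊕ F) → Fin (dims J n m g + 1) → R) (i j : J)
    (hij : i ≠ j) (α β : R) (v w : Fin (n + 1) → R) :
    mat T (Function.update p (Sum.inl j) (fun t => α * v t + β * w t)) i =
      α • mat T (Function.update p (Sum.inl j) v) i +
        β • mat T (Function.update p (Sum.inl j) w) i := by
  have key : ∀ (u : Fin (n + 1) → R) (r c : Fin (n + 1)),
      mat T (Function.update p (Sum.inl j) u) i r c =
        form T (fun v => (p (Sum.inr v.1) : Fin (m v.1 + 1) → R) v.2) (Function.update
          (fun o : Option J => o.elim (Pi.single r 1 : Fin (n + 1) → R)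
            (Function.update (fun j => (p (Sum.inl j) : Fin (n + 1) → R)) i
              (Pi.single c 1))) (some j) u) := by
    intro u r c
    rw [← FO2_elim]
    refine congrArg₂ (fun y v => form T y v) (FO2_y p j u) ?_
    funext o
    cases o with
    | none => rfl
    | some a =>
      change Function.update (fun a =>
          (Function.update p (Sum.inl j) u (Sum.inl a) : Fin (n + 1) → R)) i
          (Pi.single c 1) a = Function.update (Function.update
            (fun a => (p (Sum.inl a) : Fin (n + 1) → R)) i (Pi.single c 1)) j u a
      by_cases ha : a = i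
      · subst ha
        rw [Function.update_self, Function.update_of_ne hij, Function.update_self]
      · rw [Function.update_of_ne ha, FO2_upd]
        by_cases haj : a = j
        · subst haj
          rw [Function.update_self, Function.update_self]
        · rw [Function.update_of_ne haj, Function.update_of_ne haj, Function.update_of_ne ha]
  ext r c
  rw [Matrix.add_apply, Matrix.smul_apply, Matrix.smul_apply, smul_eq_mul, smul_eq_mul,
    key, key, key, FO2_update, FO2_update, FO2_update, Finset.mul_sum, Finset.mul_sum,
    ← Finset.sum_add_distrib]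
  refine Finset.sum_congr rfl fun s _ => ?_
  ring

end Pool.Agent.LibGMMT
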