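import Pool.Agent.LibGMMT.FDefs

/-! TASK FO4: homogeneity of the form. -/

open Pool.Agent.LibGMM

namespace Pool.Agent.LibGMMT

variable {J F : Type} [Fintype J] [DecidableEq J] [Fintype F] [DecidableEq F] {n : ℕ} {m : F → ℕ}
variable {R R' : Type} [CommRing R] [Algebra ℂ R] [CommRing R'] [Algebra ℂ R']

private theorem FO4_aeval (x : (f : F) → Fin (m f + 1) → R)
    (c : F → R) (G : MvPolynomial (Σ f : F, Fin (m f + 1)) ℂ) (e : F → ℕ) (hG : MultiHom G e) :
    MvPolynomial.aeval (fun v : Σ f : F, Fin (m f + 1) => c v.1 * x v.1 v.2) G =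
      (∏ f, c f ^ e f) * MvPolynomial.aeval (fun v : Σ f : F, Fin (m f + 1) => x v.1 v.2) G := by
  rw [MvPolynomial.aeval_def, MvPolynomial.aeval_def, MvPolynomial.eval₂_eq',
    MvPolynomial.eval₂_eq', Finset.mul_sum]
  apply Finset.sum_congr rfl
  intro a ha
  have h1 : ∏ v : Σ f : F, Fin (m f + 1), (c v.1 * x v.1 v.2) ^ a v =
      (∏ f, c f ^ e f) * ∏ v : Σ f : F, Fin (m f + 1), x v.1 v.2 ^ a v := by
    simp only [mul_pow]
    rw [Finset.prod_mul_distrib]
    congr 1
    rw [Fintype.prod_sigma]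
    apply Finset.prod_congr rfl
    intro f _
    show ∏ y, c f ^ a ⟨f, y⟩ = c f ^ e f
    rw [Finset.prod_pow_eq_pow_sum, hG a ha f]
  rw [h1]
  ring

private theorem FO4_form (T : Tensor J n m) (e : F → ℕ) (hT : ∀ s, MultiHom (T s) e)
    (k : F → R) (a : Option J → R) (y : (f : F) → Fin (m f + 1) → R)
    (v : Option J → Fin (n + 1) → R) :
    form T (fun w => k w.1 * y w.1 w.2) (fun o t => a o * v o t) =
      (∏ o, a o) * (∏ f, k f ^ e f) * form T (fun w => y w.1 w.2) v := by
  unfold form
  rw [Finset.mul_sum]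
  refine Finset.sum_congr rfl fun s _ => ?_
  rw [FO4_aeval y k (T s) e (hT s), Finset.prod_mul_distrib]
  ring

theorem mat_scale (T : Tensor J n m) (e : F → ℕ) (hT : ∀ s, MultiHom (T s) e) (c : J ⊕ F → R)
    (p : (g : J ⊕ F) → Fin (dims J n m g + 1) → R) (i : J) :
    mat T (fun g t => c g * p g t) i =
      ((∏ j ∈ Finset.univ.erase i, c (Sum.inl j)) * ∏ f, c (Sum.inr f) ^ e f) • mat T p i := by
  ext r b
  rw [Matrix.smul_apply, smul_eq_mul]
  let a : Option J → R := fun o => o.elim 1 (Function.update (fun j => c (Sum.inl j)) i 1)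
  have ha : ∏ o, a o = ∏ j ∈ Finset.univ.erase i, c (Sum.inl j) := by
    rw [Fintype.prod_option]
    change (1 : R) * ∏ j, Function.update (fun j => c (Sum.inl j)) i 1 j = _
    rw [one_mul, ← Finset.mul_prod_erase Finset.univ _ (Finset.mem_univ i),
      Function.update_self, one_mul]
    refine Finset.prod_congr rfl fun j hj => ?_
    rw [Function.update_of_ne (Finset.ne_of_mem_erase hj)]
  rw [← ha]
  refine Eq.trans ?_ (FO4_form T e hT (fun f => c (Sum.inr f)) a
    (fun f => (p (Sum.inr f) : Fin (m f + 1) → R)) (fun o : Option J => o.elim (Pi.single r 1)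
      (Function.update (fun j => (p (Sum.inl j) : Fin (n + 1) → R)) i (Pi.single b 1))))
  refine congrArg (form T _) ?_
  funext o t
  cases o with
  | none =>
    change (Pi.single r 1 : Fin (n + 1) → R) t = 1 * (Pi.single r 1 : Fin (n + 1) → R) t
    rw [one_mul]
  | some j =>
    change Function.update (fun j => (fun t => c (Sum.inl j) * p (Sum.inl j) t :
      Fin (n + 1) → R)) i (Pi.single b 1) j t = Function.update (fun j => c (Sum.inl j)) i 1 j *
        Function.update (fun j => (p (Sum.inl j) : Fin (n + 1) → R)) i (Pi.single b 1) j t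
    by_cases hj : j = i
    · subst hj
      rw [Function.update_self, Function.update_self, Function.update_self, one_mul]
      try rfl
    · rw [Function.update_of_ne hj, Function.update_of_ne hj, Function.update_of_ne hj]

theorem eqn_scale (T : Tensor J n m) (e : F → ℕ) (hT : ∀ s, MultiHom (T s) e) (c : J ⊕ F → R)
    (p : (g : J ⊕ F) → Fin (dims J n m g + 1) → R) (r : Fin (n + 1)) :
    eqn T (fun g t => c g * p g t) r =
      ((∏ j, c (Sum.inl j)) * ∏ f, c (Sum.inr f) ^ e f) * eqn T p r := by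
  let a : Option J → R := fun o => o.elim 1 (fun j => c (Sum.inl j))
  have ha : ∏ o, a o = ∏ j, c (Sum.inl j) := by
    rw [Fintype.prod_option]
    change (1 : R) * ∏ j, c (Sum.inl j) = _
    rw [one_mul]
  rw [← ha]
  refine Eq.trans ?_ (FO4_form T e hT (fun f => c (Sum.inr f)) a
    (fun f => (p (Sum.inr f) : Fin (m f + 1) → R)) (fun o : Option J => o.elim (Pi.single r 1)
      (fun j => (p (Sum.inl j) : Fin (n + 1) → R))))
  refine congrArg (form T _) ?_
  funext o t
  cases o with
  | none =>
    change (Pi.single r 1 : Fin (n + 1) → R) t = 1 * (Pi.single r 1 : Fin (n + 1) → R) t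
    rw [one_mul]
  | some j => rfl

end Pool.Agent.LibGMMT
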