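import Pool.Agent.LibGMMT.Multi
import Pool.Agent.LibGMMT.FO2
import Pool.Agent.LibGMMT.FO4

/-! TASK RA: the equations and the matrices in affine charts. -/

open Pool.Agent.LibGMM

namespace Pool.Agent.LibGMMT

variable {K : Type} [Field K] [Algebra ℂ K]
variable {J F : Type} [Fintype J] [DecidableEq J] [Fintype F] [DecidableEq F] {n : ℕ} {m : F → ℕ}

/-- The factor between the matrix in homogeneous coordinates and in an affine chart. -/
noncomputable def lam (e : F → ℕ) (H : Multi K (dims J n m)) (i : J)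
    (s : (g : J ⊕ F) → Fin (dims J n m g + 1)) : K :=
  (∏ j ∈ Finset.univ.erase i, (H.x (Sum.inl j) (s (Sum.inl j)) : K)) *
    ∏ f, (H.x (Sum.inr f) (s (Sum.inr f)) : K) ^ e f

variable (T : Tensor J n m) (e : F → ℕ) (hT : ∀ s, MultiHom (T s) e) (H : Multi K (dims J n m))

omit [DecidableEq F] in
theorem lam_ne (i : J) (s : (g : J ⊕ F) → Fin (dims J n m g + 1)) : lam e H i s ≠ 0 := by
  unfold lam
  refine mul_ne_zero (Finset.prod_ne_zero_iff.mpr fun j _ => Units.ne_zero _)
    (Finset.prod_ne_zero_iff.mpr fun f _ => pow_ne_zero _ (Units.ne_zero _))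

omit [DecidableEq J] [DecidableEq F] in
private theorem ratio_eq (s : (g : J ⊕ F) → Fin (dims J n m g + 1)) :
    (fun g t => (H.x g t : K)) = fun g t => (H.x g (s g) : K) * H.ratio s g t := by
  funext g t
  unfold Multi.ratio
  rw [mul_div_cancel₀ _ (Units.ne_zero _)]

include hT

theorem mat_ratio (i : J) (s : (g : J ⊕ F) → Fin (dims J n m g + 1)) :
    mat T (fun g t => (H.x g t : K)) i = lam e H i s • mat T (H.ratio s) i := by
  rw [ratio_eq H s]
  exact mat_scale T e hT (fun g => (H.x g (s g) : K)) (H.ratio s) i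

theorem adj_ratio (i : J) (s : (g : J ⊕ F) → Fin (dims J n m g + 1)) :
    (mat T (fun g t => (H.x g t : K)) i).adjugate =
      lam e H i s ^ n • (mat T (H.ratio s) i).adjugate := by
  rw [mat_ratio T e hT H i s, Matrix.adjugate_smul, Fintype.card_fin, Nat.add_sub_cancel]

theorem eqn_ratio (hv : ∀ r, eqn T (fun g t => (H.x g t : K)) r = 0)
    (s : (g : J ⊕ F) → Fin (dims J n m g + 1)) (r : Fin (n + 1)) : eqn T (H.ratio s) r = 0 := by
  have h := hv r
  rw [ratio_eq H s, eqn_scale T e hT (fun g => (H.x g (s g) : K)) (H.ratio s) r] at h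
  refine (mul_eq_zero.mp h).resolve_left ?_
  exact mul_ne_zero (Finset.prod_ne_zero_iff.mpr fun j _ => Units.ne_zero _)
    (Finset.prod_ne_zero_iff.mpr fun f _ => pow_ne_zero _ (Units.ne_zero _))

theorem mulVec_x (hv : ∀ r, eqn T (fun g t => (H.x g t : K)) r = 0) (i : J) :
    (mat T (fun g t => (H.x g t : K)) i).mulVec (fun t => (H.x (Sum.inl i) t : K)) = 0 := by
  refine ((mat_mulVec T (fun g t => (H.x g t : K)) i (fun t => (H.x (Sum.inl i) t : K))).trans
    (congrArg (eqn T) (Function.update_eq_self (Sum.inl i)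
      (fun (g : J ⊕ F) (t : Fin (dims J n m g + 1)) => (H.x g t : K))))).trans ?_
  funext r
  exact hv r

theorem mulVec_ratio (hv : ∀ r, eqn T (fun g t => (H.x g t : K)) r = 0) (i : J)
    (s : (g : J ⊕ F) → Fin (dims J n m g + 1)) :
    (mat T (H.ratio s) i).mulVec (H.ratio s (Sum.inl i)) = 0 := by
  have h1 := mat_mulVec T (H.ratio s) i (H.ratio s (Sum.inl i))
  have h2 : Function.update (H.ratio s) (Sum.inl i) (H.ratio s (Sum.inl i)) = H.ratio s :=
    Function.update_eq_self (Sum.inl i) (H.ratio s)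
  rw [h2] at h1
  rw [h1]
  funext r
  exact eqn_ratio T e hT H hv s r

end Pool.Agent.LibGMMT
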