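import Pool.Agent.LibGMMT.Mx
import Pool.Agent.LibGMMT.Ratio
import Pool.Agent.LibGMMT.Adj
import Pool.Agent.LibGMMT.FO1

/-! TASK GN: the function field is generated by the coordinates of all factors but one. -/

open Pool.Agent.LibGMM

namespace Pool.Agent.LibGMMT

variable {K : Type} [Field K] [Algebra ℂ K]
variable {J F : Type} [Fintype J] [DecidableEq J] [Fintype F] [DecidableEq F] {n : ℕ} {m : F → ℕ}
variable {T : Tensor J n m}

namespace TensorVariety

variable (H : TensorVariety K T) (e : F → ℕ) (hT : ∀ s, MultiHom (T s) e)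

include hT

theorem adj_ne (hS : H.Small) (hK : ¬ Algebra.IsAlgebraic ℂ K) (i : J)
    (s : (g : J ⊕ F) → Fin (dims J n m g + 1)) : (mat T (H.ratio s) i).adjugate ≠ 0 := by
  obtain ⟨Q, hQ⟩ := H.toMulti.exists_primeDiv hK
  obtain ⟨s₀, _, a, b, hab, _⟩ := hS i Q hQ
  have h0 : (mat T (H.toMulti.ratio s₀) i).adjugate ≠ 0 := by
    intro h
    rw [h] at hab
    exact hab rfl
  have h1 : (mat T (fun g t => (H.x g t : K)) i).adjugate ≠ 0 := by
    rw [adj_ratio T e hT H.toMulti i s₀]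
    exact smul_ne_zero (pow_ne_zero _ (lam_ne e H.toMulti i s₀)) h0
  intro h
  apply h1
  rw [adj_ratio T e hT H.toMulti i s, h, smul_zero]

theorem adj_ne' (hS : H.Small) (hK : ¬ Algebra.IsAlgebraic ℂ K) (i : J) :
    (mat T (fun g t => (H.x g t : K)) i).adjugate ≠ 0 := by
  rw [adj_ratio T e hT H.toMulti i (fun _ => 0)]
  exact smul_ne_zero (pow_ne_zero _ (lam_ne e H.toMulti i _)) (adj_ne H e hT hS hK i _)

theorem adjoin_eq_top (hS : H.Small) (hK : ¬ Algebra.IsAlgebraic ℂ K) (i : J)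
    (s : (g : J ⊕ F) → Fin (dims J n m g + 1)) :
    IntermediateField.adjoin ℂ {y | ∃ g, g ≠ Sum.inl i ∧ ∃ t, y = H.ratio s g t} = ⊤ := by
  classical
  set B : IntermediateField ℂ K :=
    IntermediateField.adjoin ℂ {y | ∃ g, g ≠ Sum.inl i ∧ ∃ t, y = H.ratio s g t} with hB
  have hmem : ∀ g, g ≠ Sum.inl i → ∀ t, H.ratio s g t ∈ B := fun g hg t =>
    IntermediateField.subset_adjoin ℂ _ ⟨g, hg, t, rfl⟩
  let p' : (g : J ⊕ F) → Fin (dims J n m g + 1) → B := fun g t =>
    if hg : g = Sum.inl i then 0 else ⟨H.ratio s g t, hmem g hg t⟩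
  have hp' : ∀ g, g ≠ Sum.inl i → (fun t => ((p' g t : B) : K)) = H.ratio s g := by
    intro g hg
    funext t
    show ((if hg : g = Sum.inl i then (0 : B) else ⟨H.ratio s g t, hmem g hg t⟩ : B) : K) = _
    rw [dif_neg hg]
  have hmat : (mat T p' i).map B.val = mat T (H.ratio s) i := by
    rw [mat_map T B.val p' i]
    exact mat_congr T _ _ i fun g hg => hp' g hg
  have hadj : ∀ a b, (mat T (H.ratio s) i).adjugate a b ∈ B := by
    intro a b
    have h1 : (mat T (H.ratio s) i).adjugate =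
        ((mat T p' i).adjugate).map (B.val : B →+* K) := by
      rw [← hmat]
      exact ((B.val : B →+* K).map_adjugate (mat T p' i)).symm
    rw [h1]
    exact ((mat T p' i).adjugate a b).2
  have hxi : ∀ t, H.ratio s (Sum.inl i) t ≠ 0 := fun t =>
    div_ne_zero (H.x (Sum.inl i) t).ne_zero (H.x (Sum.inl i) (s (Sum.inl i))).ne_zero
  have hone : H.ratio s (Sum.inl i) (s (Sum.inl i)) = 1 :=
    div_self (H.x (Sum.inl i) (s (Sum.inl i))).ne_zero
  obtain ⟨z, hz0, _, hz⟩ := exists_adj_factor (mat T (H.ratio s) i) (H.ratio s (Sum.inl i)) hxi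
    (mulVec_ratio T e hT H.toMulti H.vanish i s) (adj_ne H e hT hS hK i s)
  obtain ⟨b, hb⟩ := Function.ne_iff.mp hz0
  have hzb : z b ∈ B := by
    have h1 : H.ratio s (Sum.inl i) (s (Sum.inl i)) * z b ∈ B :=
      (congrArg (· ∈ B) (hz (s (Sum.inl i)) b)).mp (hadj (s (Sum.inl i)) b)
    rw [hone, one_mul] at h1
    exact h1
  have hi : ∀ t, H.ratio s (Sum.inl i) t ∈ B := by
    intro t
    have h1 : H.ratio s (Sum.inl i) t * z b ∈ B :=
      (congrArg (· ∈ B) (hz t b)).mp (hadj t b)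
    have h2 : H.ratio s (Sum.inl i) t = H.ratio s (Sum.inl i) t * z b / z b := by
      rw [mul_div_cancel_right₀ _ hb]
    rw [h2]
    exact div_mem h1 hzb
  have hall : ∀ g t, H.ratio s g t ∈ B := by
    intro g t
    by_cases hg : g = Sum.inl i
    · subst hg
      exact hi t
    · exact hmem g hg t
  have hchart : chart (segre H.x) s ≤ B.toSubalgebra := by
    rw [H.toMulti.chart_eq s]
    refine Algebra.adjoin_le ?_
    rintro _ ⟨v, rfl⟩
    exact hall v.1 v.2
  rw [eq_top_iff]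
  intro y _
  obtain ⟨a, ha, b', hb', _, rfl⟩ := H.frac s y
  exact div_mem (hchart ha) (hchart hb')

end TensorVariety

end Pool.Agent.LibGMMT
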