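import Pool.Agent.LibGMMT.DM1
import Pool.Agent.LibGMMT.Gen

/-! TASK CH: a transcendence basis. -/

open Pool.Agent.LibGMM

namespace Pool.Agent.LibGMMT

open IntermediateField.algebraAdjoinAdjoin in
private theorem choice_alg {B K : Type} [Field B] [Field K] [Algebra B K] (S : Set K)
    (h : IntermediateField.adjoin B S = ⊤) : Algebra.IsAlgebraic (Algebra.adjoin B S) K := by
  have h1 : Algebra.IsAlgebraic (IntermediateField.adjoin B S) K := by
    refine ⟨fun x => ?_⟩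
    have hx : x ∈ IntermediateField.adjoin B S := by
      rw [h]
      exact IntermediateField.mem_top
    exact isAlgebraic_algebraMap (⟨x, hx⟩ : IntermediateField.adjoin B S)
  exact (IsFractionRing.comap_isAlgebraic_iff (A := Algebra.adjoin B S)
    (K := IntermediateField.adjoin B S) (C := K)).mpr h1

private theorem choice_abs {K ι : Type} [Field K] [Algebra ℂ K] [DecidableEq ι] (W : ι → K)
    (FV F0 : Finset ι) (h0 : F0 ⊆ FV) (hind : AlgebraicIndependent ℂ (fun v : F0 => W v))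
    (halg : Algebra.IsAlgebraic (Algebra.adjoin ℂ (W '' (FV : Set ι))) K)
    (hcard : Algebra.trdeg ℂ K + 1 = (FV.card : Cardinal)) :
    ∃ v' ∈ FV, v' ∉ F0 ∧ AlgebraicIndependent ℂ (fun v : {v // v ∈ FV ∧ v ≠ v'} => W v) := by
  classical
  have hs : AlgebraicIndepOn ℂ id (W '' (F0 : Set ι)) := by
    have h1 := hind.to_subtype_range
    have h2 : Set.range (fun v : F0 => W v) = W '' (F0 : Set ι) := by
      rw [Set.image_eq_range]
      rfl
    rw [h2] at h1
    exact h1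
  obtain ⟨u, hsu, hut, hu⟩ := exists_isTranscendenceBasis_between (R := ℂ)
    (W '' (F0 : Set ι)) (W '' (FV : Set ι)) (Set.image_mono h0) hs
  have hfin : u.Finite := ((Finset.finite_toSet FV).image W).subset hut
  have : Fintype u := hfin.fintype
  have hcu : Fintype.card u + 1 = FV.card := by
    have h1 := hu.cardinalMk_eq_trdeg
    rw [← h1, Cardinal.mk_fintype] at hcard
    exact_mod_cast hcard
  have hg : ∀ a : u, ∃ v ∈ FV, W v = a ∧ ((a : K) ∈ W '' (F0 : Set ι) → v ∈ F0) := by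
    rintro ⟨a, ha⟩
    by_cases h : a ∈ W '' (F0 : Set ι)
    · obtain ⟨v, hv, hva⟩ := h
      exact ⟨v, h0 hv, hva, fun _ => hv⟩
    · obtain ⟨v, hv, hva⟩ := hut ha
      exact ⟨v, hv, hva, fun h' => absurd h' h⟩
  choose g hgV hgW hg0 using hg
  have hginj : Function.Injective g := by
    intro a b hab
    apply Subtype.ext
    rw [← hgW a, ← hgW b, hab]
  set T : Finset ι := Finset.univ.image g with hT
  have hTcard : T.card = Fintype.card u := by
    rw [hT, Finset.card_image_of_injective _ hginj, Finset.card_univ]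
  have hTV : T ⊆ FV := by
    intro v hv
    obtain ⟨a, _, rfl⟩ := Finset.mem_image.mp hv
    exact hgV a
  have hinj0 : ∀ v ∈ F0, ∀ w ∈ F0, W v = W w → v = w := by
    intro v hv w hw h
    exact congrArg Subtype.val (hind.injective (a₁ := ⟨v, hv⟩) (a₂ := ⟨w, hw⟩) h)
  have h0T : F0 ⊆ T := by
    intro v hv
    have h1 : W v ∈ u := hsu ⟨v, hv, rfl⟩
    have h2 : g ⟨W v, h1⟩ ∈ F0 := hg0 ⟨W v, h1⟩ ⟨v, hv, rfl⟩
    have h3 : g ⟨W v, h1⟩ = v := hinj0 _ h2 _ hv (hgW ⟨W v, h1⟩)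
    rw [← h3]
    exact Finset.mem_image_of_mem _ (Finset.mem_univ _)
  have hdiff : (FV \ T).card = 1 := by
    have h1 := Finset.card_sdiff_add_card_eq_card hTV
    omega
  obtain ⟨v', hv'⟩ := Finset.card_eq_one.mp hdiff
  have hv'm : v' ∈ FV \ T := by
    rw [hv']
    exact Finset.mem_singleton_self _
  rw [Finset.mem_sdiff] at hv'm
  have hmemT : ∀ v ∈ FV, v ≠ v' → v ∈ T := by
    intro v hv hne
    by_contra h
    have h1 : v ∈ FV \ T := Finset.mem_sdiff.mpr ⟨hv, h⟩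
    rw [hv'] at h1
    exact hne (Finset.mem_singleton.mp h1)
  have hWu : ∀ v ∈ T, ∃ h : W v ∈ u, g ⟨W v, h⟩ = v := by
    intro v hv
    obtain ⟨a, _, rfl⟩ := Finset.mem_image.mp hv
    have h1 : W (g a) ∈ u := by rw [hgW]; exact a.2
    refine ⟨h1, ?_⟩
    have h2 : (⟨W (g a), h1⟩ : u) = a := Subtype.ext (hgW a)
    rw [h2]
  refine ⟨v', hv'm.1, fun h => hv'm.2 (h0T h), ?_⟩
  let f : {v // v ∈ FV ∧ v ≠ v'} → u := fun v => ⟨W v, (hWu v (hmemT v v.2.1 v.2.2)).1⟩
  have hf : Function.Injective f := by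
    intro a b hab
    apply Subtype.ext
    obtain ⟨h1, h2⟩ := hWu a (hmemT a a.2.1 a.2.2)
    obtain ⟨h3, h4⟩ := hWu b (hmemT b b.2.1 b.2.2)
    rw [← h2, ← h4]
    exact congrArg g hab
  exact hu.1.comp f hf

variable {K : Type} [Field K] [Algebra ℂ K]
variable {J F : Type} [Fintype J] [DecidableEq J] [Fintype F] [DecidableEq F] {n : ℕ} {m : F → ℕ}
variable {T : Tensor J n m}

private theorem choice_card (i : J) :
    ((Finset.univ.erase (Sum.inl i : J ⊕ F)).sigma fun g =>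
      (Finset.univ.erase 0 : Finset (Fin (dims J n m g + 1)))).card + n =
      Fintype.card J * n + ∑ f, m f := by
  rw [Finset.card_sigma]
  have h1 : ∀ g ∈ Finset.univ.erase (Sum.inl i : J ⊕ F),
      (Finset.univ.erase 0 : Finset (Fin (dims J n m g + 1))).card = dims J n m g := by
    intro g _
    rw [Finset.card_erase_of_mem (Finset.mem_univ _), Finset.card_univ, Fintype.card_fin]
    rfl
  rw [Finset.sum_congr rfl h1]
  have h2 : ∑ g ∈ Finset.univ.erase (Sum.inl i : J ⊕ F), dims J n m g +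
      dims J n m (Sum.inl i) = ∑ g, dims J n m g :=
    Finset.sum_erase_add _ _ (Finset.mem_univ _)
  have h3 : ∑ g, dims J n m g = Fintype.card J * n + ∑ f, m f := by
    rw [Fintype.sum_sum_type]
    have h4 : ∑ j : J, dims J n m (Sum.inl j) = Fintype.card J * n := by
      have h5 : ∑ j : J, dims J n m (Sum.inl j) = ∑ _j : J, n := Finset.sum_congr rfl fun j _ => rfl
      rw [h5, Finset.sum_const, Finset.card_univ, smul_eq_mul]
    rw [h4]
    rfl
  rw [← h3, ← h2]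
  rfl

private theorem choice_dim {N' n' c a : ℕ} {t : Cardinal.{0}}
    (h1 : t + ((n' + 1 : ℕ) : Cardinal) = ((c + a : ℕ) : Cardinal)) (h2 : N' + n' = c + a) :
    t + 1 = (N' : Cardinal) := by
  have h3 : t < Cardinal.aleph0 := by
    refine lt_of_le_of_lt (b := ((c + a : ℕ) : Cardinal)) ?_ Cardinal.natCast_lt_aleph0
    rw [← h1]
    exact self_le_add_right _ _
  obtain ⟨N, hN⟩ := Cardinal.lt_aleph0.mp h3
  rw [hN] at h1 ⊢
  have h4 : N + (n' + 1) = c + a := by exact_mod_cast h1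
  have h5 : N + 1 = N' := by omega
  exact_mod_cast h5

namespace TensorVariety

variable (H : TensorVariety K T) (e : F → ℕ) (hT : ∀ s, MultiHom (T s) e)

include hT

/-- All coordinates of the factors other than the `i`-th, except one coordinate of the `j`-th factor,
are algebraically independent. -/
theorem choice (hn : 1 ≤ n) (hS : H.Small) (hK : ¬ Algebra.IsAlgebraic ℂ K) (i j : J)
    (hij : i ≠ j) : ∃ v' : Fin (n + 1), v' ≠ 0 ∧ AlgebraicIndependent ℂ
    (fun v : {v : Σ g : J ⊕ F, Fin (dims J n m g + 1) //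
      v.1 ≠ Sum.inl i ∧ v.2 ≠ 0 ∧ v ≠ ⟨Sum.inl j, v'⟩} =>
        H.ratio (fun _ => 0) v.1.1 v.1.2) := by
  classical
  let FV : Finset (Σ g : J ⊕ F, Fin (dims J n m g + 1)) :=
    (Finset.univ.erase (Sum.inl i)).sigma fun g => Finset.univ.erase 0
  have hFV : ∀ v, v ∈ FV ↔ v.1 ≠ Sum.inl i ∧ v.2 ≠ 0 := by
    intro v
    show v ∈ (Finset.univ.erase (Sum.inl i)).sigma (fun g => Finset.univ.erase 0) ↔ _
    rw [Finset.mem_sigma, Finset.mem_erase, Finset.mem_erase]
    simp only [Finset.mem_univ, and_true]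
  have hF0 : ∀ v, v ∈ FV.filter (fun v => v.1 ≠ Sum.inl j) ↔
      (v.1 ≠ Sum.inl i ∧ v.2 ≠ 0) ∧ v.1 ≠ Sum.inl j := by
    intro v
    rw [Finset.mem_filter, hFV]
  have hcardFV : FV.card + n = Fintype.card J * n + ∑ f, m f := choice_card i
  have hcard : Algebra.trdeg ℂ K + 1 = (FV.card : Cardinal) := choice_dim H.dim hcardFV
  clear_value FV
  let f0 : FV.filter (fun v => v.1 ≠ Sum.inl j) → {v : Σ g : J ⊕ F, Fin (dims J n m g + 1) //
      v.1 ≠ Sum.inl i ∧ v.1 ≠ Sum.inl j ∧ v.2 ≠ 0} := fun v =>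
    ⟨v.1, ((hF0 v.1).mp v.2).1.1, ((hF0 v.1).mp v.2).2, ((hF0 v.1).mp v.2).1.2⟩
  have hf0 : Function.Injective f0 := by
    intro a b hab
    apply Subtype.ext
    exact congrArg (fun z : {v : Σ g : J ⊕ F, Fin (dims J n m g + 1) //
      v.1 ≠ Sum.inl i ∧ v.1 ≠ Sum.inl j ∧ v.2 ≠ 0} => z.1) hab
  have hind : AlgebraicIndependent ℂ (fun v : FV.filter (fun v => v.1 ≠ Sum.inl j) =>
      H.ratio (fun _ => 0) v.1.1 v.1.2) := (dom1 H e hT hn i j hij).comp f0 hf0
  have htop : IntermediateField.adjoin ℂ ((fun v : Σ g : J ⊕ F, Fin (dims J n m g + 1) =>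
      H.ratio (fun _ => 0) v.1 v.2) '' (FV : Set (Σ g : J ⊕ F, Fin (dims J n m g + 1)))) = ⊤ := by
    rw [eq_top_iff, ← adjoin_eq_top H e hT hS hK i (fun _ => 0)]
    refine IntermediateField.adjoin_le_iff.mpr ?_
    rintro _ ⟨g, hg, t, rfl⟩
    by_cases ht : t = 0
    · rw [ht]
      have h1 : H.ratio (fun _ => 0) g 0 = 1 := div_self (H.x g 0).ne_zero
      rw [h1]
      exact one_mem _
    · exact IntermediateField.subset_adjoin ℂ _ ⟨⟨g, t⟩, (hFV _).mpr ⟨hg, ht⟩, rfl⟩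
  obtain ⟨v', hv', hv'0, hres⟩ := choice_abs
    (fun v : Σ g : J ⊕ F, Fin (dims J n m g + 1) => H.ratio (fun _ => 0) v.1 v.2) FV
    (FV.filter (fun v => v.1 ≠ Sum.inl j)) (Finset.filter_subset _ _) hind
    (choice_alg _ htop) hcard
  obtain ⟨g, t⟩ := v'
  have h1 := (hFV _).mp hv'
  have h2 : g = Sum.inl j := by
    by_contra h
    exact hv'0 ((hF0 _).mpr ⟨h1, h⟩)
  subst h2
  let f1 : {v : Σ g : J ⊕ F, Fin (dims J n m g + 1) //
      v.1 ≠ Sum.inl i ∧ v.2 ≠ 0 ∧ v ≠ ⟨Sum.inl j, t⟩} →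
      {v // v ∈ FV ∧ v ≠ ⟨Sum.inl j, t⟩} := fun v =>
    ⟨v.1, (hFV _).mpr ⟨v.2.1, v.2.2.1⟩, v.2.2.2⟩
  have hf1 : Function.Injective f1 := by
    intro a b hab
    apply Subtype.ext
    exact congrArg (fun z : {v // v ∈ FV ∧ v ≠ ⟨Sum.inl j, t⟩} => z.1) hab
  exact ⟨t, h1.2, hres.comp f1 hf1⟩

end TensorVariety

end Pool.Agent.LibGMMT
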