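import Pool.Agent.LibGMMT.C1
import Pool.Agent.LibGMMT.C2
import Pool.Agent.LibGMMT.C3b
import Pool.Agent.LibGMMT.C4
import Pool.Agent.LibGMMT.C5

/-! TASK C6: the inequality for sections on a plane determinantal curve. -/

namespace Pool.Agent.LibGMMT

/-- The `m`-fold multiplication by the section. -/
private theorem core_iter {k K : Type} [Field k] [Field K] [Algebra k K]
    (Mw Mξ : Submodule k K) (γ : K) (b : ℕ) (α : ℤ) (D₁ E₁ : ℕ) (hDα : 0 ≤ (D₁ : ℤ) + α)
    (hst : ∀ D E : ℕ, D₁ ≤ D → E₁ ≤ E →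
      ∀ y ∈ (Mw ^ D * Mξ ^ (E + b) : Submodule k K),
      γ * y ∈ (Mw ^ ((D : ℤ) + α).toNat * Mξ ^ E : Submodule k K)) (m : ℕ) :
    ∀ D : ℕ, D₁ + m * (-α).toNat ≤ D → ∀ y ∈ (Mw ^ D * Mξ ^ (E₁ + m * b) : Submodule k K),
      γ ^ m * y ∈ (Mw ^ ((D : ℤ) + m * α).toNat * Mξ ^ E₁ : Submodule k K) := by
  induction m with
  | zero =>
    intro D hD y hy
    simpa using hy
  | succ m ih =>
    intro D hD y hy
    have hmul : (m + 1) * (-α).toNat = m * (-α).toNat + (-α).toNat := by ring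
    have hD₁ : D₁ ≤ D := le_trans (Nat.le_add_right _ _) hD
    have hy' : y ∈ (Mw ^ D * Mξ ^ ((E₁ + m * b) + b) : Submodule k K) := by
      have : E₁ + (m + 1) * b = (E₁ + m * b) + b := by ring
      rwa [this] at hy
    have h1 := hst D (E₁ + m * b) hD₁ (Nat.le_add_right _ _) y hy'
    have hD' : D₁ + m * (-α).toNat ≤ ((D : ℤ) + α).toNat := by
      rw [hmul] at hD
      omega
    have h2 := ih _ hD' _ h1
    have h3 : (((((D : ℤ) + α).toNat : ℕ) : ℤ) + m * α) = (D : ℤ) + ((m + 1 : ℕ) : ℤ) * α := by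
      have : ((((D : ℤ) + α).toNat : ℕ) : ℤ) = (D : ℤ) + α := by
        apply Int.toNat_of_nonneg
        have : (D₁ : ℤ) ≤ D := by exact_mod_cast hD₁
        linarith
      rw [this]
      push_cast
      ring
    rw [h3] at h2
    rw [pow_succ, mul_assoc]
    exact h2

/-- An inequality for all `m` gives an inequality of slopes. -/
private theorem core_slope (p q C : ℕ) (h : ∀ m : ℕ, p * m + 1 ≤ q * m + C) : p ≤ q := by
  by_contra hlt
  have h1 := h C
  have h2 : (q + 1) * C ≤ p * C := Nat.mul_le_mul_right _ (by omega)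
  have h3 : (q + 1) * C = q * C + C := by ring
  omega

private theorem core_det_totalDegree {k : Type} [Field k] {n : ℕ}
    (A : Matrix (Fin (n + 1)) (Fin (n + 1)) (MvPolynomial (Fin 2) k))
    (hA1 : ∀ r c, (A r c).totalDegree ≤ 1) : A.det.totalDegree ≤ n + 1 := by
  rw [Matrix.det_apply]
  apply MvPolynomial.totalDegree_finsetSum_le
  intro σ _
  have h1 : (∏ i, A (σ i) i).totalDegree ≤ n + 1 := by
    refine le_trans (MvPolynomial.totalDegree_finsetProd _ _) ?_
    refine le_trans (Finset.sum_le_sum (fun i _ => hA1 (σ i) i)) ?_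
    simp
  rcases Int.units_eq_one_or (Equiv.Perm.sign σ) with h | h
  · rw [h, one_smul]
    exact h1
  · rw [h, Units.neg_smul, one_smul, MvPolynomial.totalDegree_neg]
    exact h1

theorem core {k K : Type} [Field k] [Field K] [Algebra k K] {n : ℕ} (hn : 3 ≤ n)
    (A : Matrix (Fin (n + 1)) (Fin (n + 1)) (MvPolynomial (Fin 2) k))
    (hA1 : ∀ r c, (A r c).totalDegree ≤ 1) (hA : A.det ≠ 0) (w ξ : Fin (n + 1) → K)
    (hw : ∀ t, w t ≠ 0) (hξ : ∀ s, ξ s ≠ 0) (hw0 : w 0 = 1) (hξ0 : ξ 0 = 1)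
    (u v : Fin (n + 1)) (hwuv : ∀ t, w t ∈ Submodule.span k {1, w u, w v})
    (hker : (A.map (MvPolynomial.aeval ![w u, w v])).mulVec ξ = 0)
    (hadj : (A.map (MvPolynomial.aeval (R := k) ![w u, w v])).adjugate ≠ 0)
    (htr : ∃ c, Transcendental k (ξ c)) (γ : K) (hγ : γ ≠ 0) (b : ℕ) (hb : 1 ≤ b) (α : ℤ)
    (hsec : ∀ s t, γ * ξ s ^ b * w t ^ (-α) ∈ Algebra.adjoin k
      (Set.range (fun t' => w t' / w t) ∪ Set.range (fun s' => ξ s' / ξ s))) :
    (b : ℤ) ≤ (n - 1) * α := by
  obtain ⟨D₁, E₁, hDα, hst⟩ := sec_step w ξ hw hξ hw0 hξ0 γ b α hsec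
  obtain ⟨h, hh0, hh⟩ := adj_step A hA1 (w u) (w v) ξ hξ0 hker hadj
  obtain ⟨c, hc⟩ := htr
  have hMw : Submodule.span k (Set.range w) = Submodule.span k {1, w u, w v} := by
    apply le_antisymm
    · rw [Submodule.span_le]
      rintro _ ⟨t, rfl⟩
      exact hwuv t
    · rw [Submodule.span_le]
      rintro y hy
      rcases hy with rfl | rfl | rfl
      · exact Submodule.subset_span ⟨0, hw0⟩
      · exact Submodule.subset_span ⟨u, rfl⟩
      · exact Submodule.subset_span ⟨v, rfl⟩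
  rw [hMw] at hst
  set Mw : Submodule k K := Submodule.span k {1, w u, w v} with hMwdef
  set Mξ : Submodule k K := Submodule.span k (Set.range ξ) with hMξdef
  have hMwfg : Mw.FG := Submodule.fg_span (Set.toFinite _)
  have hMξfg : Mξ.FG := Submodule.fg_span (Set.toFinite _)
  have h1w : (1 : K) ∈ Mw := Submodule.subset_span (by simp)
  have h1ξ : (1 : K) ∈ Mξ := Submodule.subset_span ⟨0, hξ0⟩
  have h1wp : ∀ s : ℕ, (1 : K) ∈ Mw ^ s := fun s => by
    have := Submodule.pow_mem_pow Mw h1w s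
    rwa [one_pow] at this
  have h1ξp : ∀ s : ℕ, (1 : K) ∈ Mξ ^ s := fun s => by
    have := Submodule.pow_mem_pow Mξ h1ξ s
    rwa [one_pow] at this
  -- the comparison of dimensions
  have hcmp : ∀ m : ℕ, Module.finrank k (Mξ ^ (m * b) : Submodule k K) ≤
      Module.finrank k (Mw ^ (D₁ + m * α.toNat + n * E₁) : Submodule k K) := by
    intro m
    have hmem : ∀ y ∈ (Mξ ^ (m * b) : Submodule k K),
        (h ^ E₁ * γ ^ m) * y ∈ (Mw ^ (D₁ + m * α.toNat + n * E₁) : Submodule k K) := by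
      intro y hy
      have hy1 : y ∈ (Mw ^ (D₁ + m * (-α).toNat) * Mξ ^ (E₁ + m * b) : Submodule k K) := by
        have e1 : y = 1 * (1 * y) := by rw [one_mul, one_mul]
        rw [e1, pow_add Mξ]
        exact Submodule.mul_mem_mul (h1wp _) (Submodule.mul_mem_mul (h1ξp _) hy)
      have h2 := core_iter Mw Mξ γ b α D₁ E₁ hDα hst m _ le_rfl y hy1
      have h3 : (((D₁ + m * (-α).toNat : ℕ) : ℤ) + m * α).toNat = D₁ + m * α.toNat := by
        have h4 : (((D₁ + m * (-α).toNat : ℕ) : ℤ) + m * α) = ((D₁ + m * α.toNat : ℕ) : ℤ) := by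
          have h5 : (((-α).toNat : ℕ) : ℤ) + α = ((α.toNat : ℕ) : ℤ) := by omega
          push_cast
          rw [← h5]
          ring
        rw [h4, Int.toNat_natCast]
      rw [h3] at h2
      have h6 := hh _ _ _ h2
      rwa [← mul_assoc] at h6
    have hne : h ^ E₁ * γ ^ m ≠ 0 := mul_ne_zero (pow_ne_zero _ hh0) (pow_ne_zero _ hγ)
    let f : (Mξ ^ (m * b) : Submodule k K) →ₗ[k]
        (Mw ^ (D₁ + m * α.toNat + n * E₁) : Submodule k K) :=
      LinearMap.restrict (LinearMap.mulLeft k (h ^ E₁ * γ ^ m)) hmem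
    have hf : Function.Injective f := by
      intro y z hyz
      have := congrArg Subtype.val hyz
      apply Subtype.ext
      exact mul_left_cancel₀ hne this
    have : Module.Finite k (Mw ^ (D₁ + m * α.toNat + n * E₁) : Submodule k K) :=
      Module.Finite.iff_fg.mpr (hMwfg.pow _)
    exact LinearMap.finrank_le_finrank_of_injective hf
  -- the inequality for the positive part
  have key : b ≤ (n - 1) * α.toNat := by
    by_cases hP : ∃ P : MvPolynomial (Fin 2) k, P ≠ 0 ∧ P.totalDegree ≤ n - 1 ∧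
        MvPolynomial.aeval ![w u, w v] P = 0
    · obtain ⟨P, hP0, hPd, hPe⟩ := hP
      obtain ⟨C, hC⟩ := ub (w u) (w v) P hP0 (n - 1) hPd hPe
      apply core_slope b ((n - 1) * α.toNat) ((n - 1) * (D₁ + n * E₁) + C)
      intro m
      have h1 := lb1 Mξ hMξfg (ξ c) h1ξ (Submodule.subset_span ⟨c, rfl⟩) hc (m * b)
      have h2 := hcmp m
      have h3 := hC (D₁ + m * α.toNat + n * E₁)
      have h4 : (n - 1) * (D₁ + m * α.toNat + n * E₁) + C =
          (n - 1) * α.toNat * m + ((n - 1) * (D₁ + n * E₁) + C) := by ring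
      have h5 : b * m = m * b := mul_comm _ _
      rw [h5, ← h4]
      exact le_trans h1 (le_trans h2 h3)
    · have hP' : ∀ P : MvPolynomial (Fin 2) k, P.totalDegree ≤ n - 1 →
          MvPolynomial.aeval ![w u, w v] P = 0 → P = 0 := by
        intro P h1 h2
        by_contra h3
        exact hP ⟨P, h3, h1, h2⟩
      have hdet : MvPolynomial.aeval ![w u, w v] A.det = 0 := by
        have h1 : (A.map (MvPolynomial.aeval (R := k) ![w u, w v])).det = 0 := by
          apply Matrix.exists_mulVec_eq_zero_iff.mp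
          refine ⟨ξ, ?_, hker⟩
          intro h0
          exact hξ 0 (congrFun h0 0)
        have h2 := AlgHom.map_det (MvPolynomial.aeval (R := k) ![w u, w v]) A
        rw [h2]
        exact h1
      obtain ⟨C, hC⟩ := ub (w u) (w v) A.det hA (n + 1) (core_det_totalDegree A hA1) hdet
      obtain ⟨s, hs⟩ := exists_off_line A hA1 (w u) (w v) ξ hξ0 hker hA
        (fun P h1 h2 => hP' P (by omega) h2) c hc
      have h2b : 2 * b ≤ (n + 1) * α.toNat := by
        apply core_slope (2 * b) ((n + 1) * α.toNat) ((n + 1) * (D₁ + n * E₁) + C)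
        intro m
        have h1 := lb2 Mξ hMξfg (ξ c) (ξ s) h1ξ (Submodule.subset_span ⟨c, rfl⟩)
          (Submodule.subset_span ⟨s, rfl⟩) hc hs (m * b)
        have h2 := hcmp m
        have h3 := hC (D₁ + m * α.toNat + n * E₁)
        have h4 : (n + 1) * (D₁ + m * α.toNat + n * E₁) + C =
            (n + 1) * α.toNat * m + ((n + 1) * (D₁ + n * E₁) + C) := by ring
        have h5 : 2 * b * m = 2 * (m * b) := by ring
        rw [h5, ← h4]
        exact le_trans h1 (le_trans h2 h3)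
      have h3 : (n + 1) * α.toNat ≤ (2 * (n - 1)) * α.toNat :=
        Nat.mul_le_mul_right _ (by omega)
      have h4 : (2 * (n - 1)) * α.toNat = 2 * ((n - 1) * α.toNat) := by ring
      omega
  have hα : 0 < α := by
    by_contra hα
    have h1 : α.toNat = 0 := by omega
    rw [h1, mul_zero] at key
    omega
  have h1 : ((α.toNat : ℕ) : ℤ) = α := Int.toNat_of_nonneg hα.le
  have h2 : ((b : ℕ) : ℤ) ≤ (((n - 1) * α.toNat : ℕ) : ℤ) := by exact_mod_cast key
  rw [Nat.cast_mul, h1, Nat.cast_sub (by omega), Nat.cast_one] at h2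
  exact h2

end Pool.Agent.LibGMMT
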