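import Pool.Agent.LibGMMT.Liou

/-! Transcendence degree counts. -/

open Pool.Agent.LibGMM

namespace Pool.Agent.LibGMMT

variable {K : Type} [Field K] [Algebra ℂ K]

theorem isAlgebraic_of_adjoin_eq_top (k : IntermediateField ℂ K) (W : Set K)
    (hW : IntermediateField.adjoin ℂ W = ⊤) (h : ∀ y ∈ W, IsAlgebraic k y) :
    Algebra.IsAlgebraic k K := by
  have h1 : IntermediateField.adjoin ℂ W ≤ (algebraicClosure k K).restrictScalars ℂ := by
    rw [IntermediateField.adjoin_le_iff]
    intro y hy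
    exact mem_algebraicClosure_iff.2 (h y hy)
  rw [hW] at h1
  exact ⟨fun y => mem_algebraicClosure_iff.1 (h1 (IntermediateField.mem_top (x := y)))⟩

theorem trdeg_le_card {ι : Type} [Fintype ι] (x : ι → K)
    (h : Algebra.IsAlgebraic (IntermediateField.adjoin ℂ (Set.range x)) K) :
    Algebra.trdeg ℂ K ≤ (Fintype.card ι : ℕ) := by
  have h1 : Algebra.IsAlgebraic (Algebra.adjoin ℂ (Set.range x)) K :=
    IntermediateField.isAlgebraic_adjoin_iff_top.1 h
  refine (Algebra.IsAlgebraic.trdeg_le_cardinalMk ℂ (Set.range x)).trans ?_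
  refine Cardinal.mk_range_le.trans ?_
  rw [Cardinal.mk_fintype]

variable {G : Type} [Fintype G] {m : G → ℕ}

theorem Multi.trdeg_le_of_isAlgebraic [DecidableEq G] (H : Multi K m) (S : Finset G)
    (h : Algebra.IsAlgebraic (H.fieldOut S) K) :
    Algebra.trdeg ℂ K ≤ (∑ g ∈ Finset.univ \ S, m g : ℕ) := by
  classical
  let ι : Type := Σ g : {g : G // g ∈ Finset.univ \ S}, Fin (m g.1)
  let x : ι → K := fun v => H.ratio (fun _ => 0) v.1.1 v.2.succ
  have h1 : H.fieldOut S ≤ IntermediateField.adjoin ℂ (Set.range x) := by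
    unfold Multi.fieldOut
    rw [IntermediateField.adjoin_le_iff]
    rintro y ⟨g, hg, t, rfl⟩
    refine Fin.cases ?_ (fun t => ?_) t
    · have : H.ratio (fun _ => 0) g 0 = 1 := div_self (H.x g 0).ne_zero
      rw [this]
      exact one_mem _
    · exact IntermediateField.subset_adjoin _ _
        ⟨⟨⟨g, Finset.mem_sdiff.2 ⟨Finset.mem_univ g, hg⟩⟩, t⟩, rfl⟩
  have h2 : Algebra.IsAlgebraic (IntermediateField.adjoin ℂ (Set.range x)) K := by
    refine ⟨fun y => ?_⟩
    obtain ⟨P, hP, hPy⟩ := h.isAlgebraic y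
    refine ⟨P.map (IntermediateField.inclusion h1).toRingHom, ?_, ?_⟩
    · rw [Ne, Polynomial.map_eq_zero]
      exact hP
    · rw [Polynomial.aeval_def, Polynomial.eval₂_map]
      exact hPy
  refine (trdeg_le_card x h2).trans ?_
  have h3 : Fintype.card ι = ∑ g ∈ Finset.univ \ S, m g := by
    rw [Fintype.card_sigma]
    simp only [Fintype.card_fin]
    exact Finset.sum_coe_sort (Finset.univ \ S) m
  rw [h3]

end Pool.Agent.LibGMMT
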