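import Pool.Agent.LibGMMT.Defs

/-! The generic point of the product. -/

open Pool.Agent.LibGMM

namespace Pool.Agent.LibGMMT

/-- The generic point of the product of the projective spaces, in the affine chart where the
coordinates with index `0` are `1`. -/
noncomputable def gen (J : Type) {F : Type} (n : ℕ) (m : F → ℕ) (g : J ⊕ F)
    (t : Fin (dims J n m g + 1)) : MvPolynomial (Σ g : J ⊕ F, Fin (dims J n m g + 1)) ℂ :=
  if t = 0 then 1 else MvPolynomial.X ⟨g, t⟩

end Pool.Agent.LibGMMT
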