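import Mathlib

/-! TASK PN: a pencil of matrices over an algebraically closed field contains a singular matrix. -/

namespace Pool.Agent.LibGMMT

theorem pencil {L : Type} [Field L] [IsAlgClosed L] {n : ℕ}
    (M N : Matrix (Fin (n + 1)) (Fin (n + 1)) L) :
    ∃ α β : L, (α ≠ 0 ∨ β ≠ 0) ∧ ∃ w : Fin (n + 1) → L, w ≠ 0 ∧ (α • M + β • N).mulVec w = 0 := by
  by_cases hN : N.det = 0
  · obtain ⟨w, hw, hNw⟩ := Matrix.exists_mulVec_eq_zero_iff.2 hN
    exact ⟨0, 1, Or.inr one_ne_zero, w, hw, by simpa using hNw⟩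
  · obtain ⟨lam, hlam⟩ := Module.End.exists_eigenvalue (Matrix.toLin' (N⁻¹ * M))
    obtain ⟨w, hw⟩ := hlam.exists_hasEigenvector
    refine ⟨1, -lam, Or.inl one_ne_zero, w, hw.2, ?_⟩
    have h1 : (N⁻¹ * M).mulVec w = lam • w := by
      have := hw.apply_eq_smul
      simpa [Matrix.toLin'_apply] using this
    have h2 : N.mulVec ((N⁻¹ * M).mulVec w) = M.mulVec w := by
      rw [Matrix.mulVec_mulVec, ← Matrix.mul_assoc,
        Matrix.mul_nonsing_inv N (isUnit_iff_ne_zero.2 hN), Matrix.one_mul]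
    rw [h1, Matrix.mulVec_smul] at h2
    rw [Matrix.add_mulVec, Matrix.smul_mulVec, Matrix.smul_mulVec, ← h2]
    simp

end Pool.Agent.LibGMMT
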