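import Pool.Agent.LibGMMT.SP2
import Pool.Agent.LibGMMT.DDefs
import Pool.Agent.LibGMMT.FO1
import Pool.Agent.LibGMMT.FO2
import Pool.Agent.LibGMMT.Pencil

/-! TASK DM1: generic solutions. -/

open Pool.Agent.LibGMM

namespace Pool.Agent.LibGMMT

variable {K : Type} [Field K] [Algebra ℂ K]
variable {J F : Type} [Fintype J] [DecidableEq J] [Fintype F] [DecidableEq F] {n : ℕ} {m : F → ℕ}
variable {T : Tensor J n m}

namespace TensorVariety

variable (H : TensorVariety K T) (e : F → ℕ) (hT : ∀ s, MultiHom (T s) e)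

include H hT

/-- The projection to the product of all factors other than the `i`-th and the `j`-th is
dominant. -/
theorem dom1 (hn : 1 ≤ n) (i j : J) (hij : i ≠ j) : AlgebraicIndependent ℂ
    (fun v : {v : Σ g : J ⊕ F, Fin (dims J n m g + 1) //
      v.1 ≠ Sum.inl i ∧ v.1 ≠ Sum.inl j ∧ v.2 ≠ 0} => H.ratio (fun _ => 0) v.1.1 v.1.2) := by
  have hij' : (Sum.inl i : J ⊕ F) ≠ Sum.inl j := fun h => hij (Sum.inl_injective h)
  let V : Type := Σ g : J ⊕ F, Fin (dims J n m g + 1)
  let L : Type := AlgebraicClosure (FractionRing (MvPolynomial V ℂ))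
  let φ : MvPolynomial V ℂ →ₐ[ℂ] L := IsScalarTower.toAlgHom ℂ (MvPolynomial V ℂ) L
  have hφ : Function.Injective φ := by
    have h1 : (φ : MvPolynomial V ℂ → L) =
        (algebraMap (FractionRing (MvPolynomial V ℂ)) L) ∘
          (algebraMap (MvPolynomial V ℂ) (FractionRing (MvPolynomial V ℂ))) := by
      funext y
      exact IsScalarTower.algebraMap_apply (MvPolynomial V ℂ) (FractionRing (MvPolynomial V ℂ)) L y
    rw [h1]
    exact (algebraMap (FractionRing (MvPolynomial V ℂ)) L).injective.comp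
      (IsFractionRing.injective (MvPolynomial V ℂ) _)
  let one' : Fin (n + 1) := ⟨1, by omega⟩
  have h01 : one' ≠ 0 := by
    intro h
    rw [Fin.ext_iff] at h
    simp [one'] at h
  let p0 : (g : J ⊕ F) → Fin (dims J n m g + 1) → L := fun g t => φ (gen J n m g t)
  let e0 : Fin (n + 1) → L := Pi.single 0 1
  let e1 : Fin (n + 1) → L := Pi.single one' 1
  obtain ⟨α, β, hαβ, w, hw0, hw⟩ := pencil
    (mat T (Function.update p0 (Sum.inl j) e0) i) (mat T (Function.update p0 (Sum.inl j) e1) i)
  obtain ⟨b, hb⟩ := Function.ne_iff.1 hw0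
  rw [← mat_update_lin T p0 i j hij α β e0 e1, mat_mulVec] at hw
  set c : Fin (n + 1) → L := fun t => α * e0 t + β * e1 t with hc
  set v : (g : J ⊕ F) → Fin (dims J n m g + 1) → L :=
    Function.update (Function.update p0 (Sum.inl j) c) (Sum.inl i) w with hvdef
  have hvi : v (Sum.inl i) = w := Function.update_self _ _ _
  have hvj : v (Sum.inl j) = c := by
    rw [hvdef, Function.update_of_ne hij'.symm, Function.update_self]
  have hvg : ∀ g, g ≠ Sum.inl i → g ≠ Sum.inl j → v g = p0 g := by
    intro g h1 h2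
    rw [hvdef, Function.update_of_ne h1, Function.update_of_ne h2]
  obtain ⟨b', hb'⟩ : ∃ b' : Fin (n + 1), c b' ≠ 0 := by
    by_cases hα : α = 0
    · refine ⟨one', ?_⟩
      have hβ : β ≠ 0 := by
        rcases hαβ with h | h
        · exact absurd hα h
        · exact h
      simp only [hc, e0, e1, hα, Pi.single_eq_same, zero_mul, zero_add, mul_one]
      exact hβ
    · refine ⟨0, ?_⟩
      simp only [hc, e0, e1, Pi.single_eq_same, Pi.single_eq_of_ne h01.symm, mul_zero, add_zero,
        mul_one]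
      exact hα
  let s : (g : J ⊕ F) → Fin (dims J n m g + 1) :=
    Function.update (Function.update (fun _ => 0) (Sum.inl j)
      (b' : Fin (dims J n m (Sum.inl j) + 1))) (Sum.inl i) (b : Fin (dims J n m (Sum.inl i) + 1))
  have hsi : s (Sum.inl i) = b := Function.update_self _ _ _
  have hsj : s (Sum.inl j) = b' := by
    simp only [s]
    rw [Function.update_of_ne hij'.symm, Function.update_self]
  have hsg : ∀ g, g ≠ Sum.inl i → g ≠ Sum.inl j → s g = 0 := by
    intro g h1 h2
    simp only [s]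
    rw [Function.update_of_ne h1, Function.update_of_ne h2]
  have h1 : ∀ g, v g (s g) ≠ 0 := by
    intro g
    by_cases hg : g = Sum.inl i
    · subst hg
      rw [hvi, hsi]
      exact hb
    · by_cases hg' : g = Sum.inl j
      · subst hg'
        rw [hvj, hsj]
        exact hb'
      · rw [hvg g hg hg', hsg g hg hg']
        simp [p0, gen]
  obtain ⟨ψ, hψ⟩ := H.spec_hom e hT s v h1 (fun r => congrFun hw r)
  let I : Type := {v : Σ g : J ⊕ F, Fin (dims J n m g + 1) //
      v.1 ≠ Sum.inl i ∧ v.1 ≠ Sum.inl j ∧ v.2 ≠ 0}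
  let x : I → chart (segre H.x) s :=
    fun k => ⟨H.ratio s k.1.1 k.1.2, H.ratio_mem s k.1.1 k.1.2⟩
  have hx : ψ ∘ x = φ ∘ (MvPolynomial.X : V → MvPolynomial V ℂ) ∘ (fun k => k.1) := by
    funext k
    show ψ (x k) = φ (MvPolynomial.X k.1)
    rw [hψ, hvg _ k.2.1 k.2.2.1, hsg _ k.2.1 k.2.2.1]
    simp [p0, gen, k.2.2.2]
  have hind : AlgebraicIndependent ℂ (ψ ∘ x) := by
    rw [hx]
    refine AlgebraicIndependent.map' ?_ hφ
    exact (MvPolynomial.algebraicIndependent_X V ℂ).comp _ Subtype.val_injective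
  have hind2 := (AlgebraicIndependent.of_comp ψ hind).map' (f := (chart (segre H.x) s).val)
    Subtype.val_injective
  have h2 : ((chart (segre H.x) s).val ∘ x) =
      (fun v : I => H.ratio (fun _ => 0) v.1.1 v.1.2) := by
    funext k
    show H.ratio s k.1.1 k.1.2 = H.ratio (fun _ => 0) k.1.1 k.1.2
    unfold Multi.ratio
    rw [hsg _ k.2.1 k.2.2.1]
  rw [h2] at hind2
  exact hind2

end TensorVariety

end Pool.Agent.LibGMMT
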