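import Pool.Agent.LibGMMT.SP2
import Pool.Agent.LibGMMT.DDefs
import Pool.Agent.LibGMMT.FO1
import Pool.Agent.LibGMMT.FO2

/-! TASK DM2: generic solutions. -/

open Pool.Agent.LibGMM

namespace Pool.Agent.LibGMMT

variable {K : Type} [Field K] [Algebra ℂ K]
variable {J F : Type} [Fintype J] [DecidableEq J] [Fintype F] [DecidableEq F] {n : ℕ} {m : F → ℕ}
variable {T : Tensor J n m}

namespace TensorVariety

variable (H : TensorVariety K T) (e : F → ℕ) (hT : ∀ s, MultiHom (T s) e)

include H hT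

/-- The determinant does not vanish identically. -/
theorem dom2 (i : J) : (mat T (gen J n m) i).det ≠ 0 := by
  intro hdet
  let V : Type := Σ g : J ⊕ F, Fin (dims J n m g + 1)
  let L : Type := FractionRing (MvPolynomial V ℂ)
  let φ : MvPolynomial V ℂ →ₐ[ℂ] L := IsScalarTower.toAlgHom ℂ (MvPolynomial V ℂ) L
  have hφ : Function.Injective φ := IsFractionRing.injective (MvPolynomial V ℂ) L
  have hdet' : (mat T (fun g t => φ (gen J n m g t)) i).det = 0 := by
    rw [← mat_map, ← AlgHom.mapMatrix_apply, ← AlgHom.map_det, hdet, map_zero]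
  obtain ⟨w, hw0, hw⟩ := Matrix.exists_mulVec_eq_zero_iff.2 hdet'
  obtain ⟨b, hb⟩ := Function.ne_iff.1 hw0
  rw [mat_mulVec] at hw
  set v : (g : J ⊕ F) → Fin (dims J n m g + 1) → L :=
    Function.update (fun g t => φ (gen J n m g t)) (Sum.inl i) w with hvdef
  have hvi : v (Sum.inl i) = w := Function.update_self _ _ _
  have hvg : ∀ g, g ≠ Sum.inl i → v g = fun t => φ (gen J n m g t) := fun g hg =>
    Function.update_of_ne hg _ _
  let s : (g : J ⊕ F) → Fin (dims J n m g + 1) :=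
    Function.update (fun _ => 0) (Sum.inl i) (b : Fin (dims J n m (Sum.inl i) + 1))
  have hsi : s (Sum.inl i) = b := Function.update_self _ _ _
  have hsg : ∀ g, g ≠ Sum.inl i → s g = 0 := fun g hg => Function.update_of_ne hg _ _
  have h1 : ∀ g, v g (s g) ≠ 0 := by
    intro g
    by_cases hg : g = Sum.inl i
    · subst hg
      rw [hvi, hsi]
      exact hb
    · rw [hvg g hg, hsg g hg]
      simp [gen]
  obtain ⟨ψ, hψ⟩ := H.spec_hom e hT s v h1 (fun r => congrFun hw r)
  let x : (Σ g : {g : J ⊕ F // g ≠ Sum.inl i}, Fin (dims J n m g.1)) → chart (segre H.x) s :=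
    fun k => ⟨H.ratio s k.1.1 (Fin.succ k.2), H.ratio_mem s k.1.1 (Fin.succ k.2)⟩
  have hx : ψ ∘ x = φ ∘ (MvPolynomial.X : V → MvPolynomial V ℂ) ∘
      (fun k => ⟨k.1.1, Fin.succ k.2⟩) := by
    funext k
    show ψ (x k) = φ (MvPolynomial.X ⟨k.1.1, Fin.succ k.2⟩)
    rw [hψ, hvg _ k.1.2, hsg _ k.1.2]
    simp [gen, Fin.succ_ne_zero]
  have hind : AlgebraicIndependent ℂ (ψ ∘ x) := by
    rw [hx]
    refine AlgebraicIndependent.map' ?_ hφ
    refine (MvPolynomial.algebraicIndependent_X V ℂ).comp _ ?_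
    rintro ⟨⟨g, hg⟩, t⟩ ⟨⟨g', hg'⟩, t'⟩ h
    have h0 : g = g' := congrArg Sigma.fst h
    subst h0
    have h3 : Fin.succ t = Fin.succ t' := eq_of_heq (Sigma.mk.inj h).2
    rw [Fin.succ_inj] at h3
    rw [h3]
  have hind2 := (AlgebraicIndependent.of_comp ψ hind).map' (f := (chart (segre H.x) s).val)
    Subtype.val_injective
  have h2 := hind2.cardinalMk_le_trdeg
  have h3 := H.dim
  have h4 : Cardinal.mk (Σ g : {g : J ⊕ F // g ≠ Sum.inl i}, Fin (dims J n m g.1)) =
      ((∑ g ∈ Finset.univ.erase (Sum.inl i), dims J n m g : ℕ) : Cardinal) := by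
    rw [Cardinal.mk_fintype, Fintype.card_sigma]
    congr 1
    simp only [Fintype.card_fin]
    rw [← Finset.sum_subtype (Finset.univ.erase (Sum.inl i)) (by intro x; simp)
      (fun g => dims J n m g)]
  rw [h4] at h2
  have h5 : ((∑ g ∈ Finset.univ.erase (Sum.inl i), dims J n m g + (n + 1) : ℕ) : Cardinal) ≤
      ((Fintype.card J * n + ∑ f, m f : ℕ) : Cardinal) := by
    rw [← h3, Nat.cast_add (∑ g ∈ Finset.univ.erase (Sum.inl i), dims J n m g) (n + 1)]
    exact add_le_add h2 le_rfl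
  have h6 : ∑ g ∈ Finset.univ.erase (Sum.inl i), dims J n m g + (n + 1) ≤
      Fintype.card J * n + ∑ f, m f := by exact_mod_cast h5
  have h7 := Finset.add_sum_erase Finset.univ (dims J n m) (Finset.mem_univ (Sum.inl i))
  rw [Fintype.sum_sum_type] at h7
  have h8 : ∑ j : J, dims J n m (Sum.inl j) = Fintype.card J * n := by
    simp [Finset.sum_const, dims]
  have h9 : ∑ f : F, dims J n m (Sum.inr f) = ∑ f, m f := rfl
  have h10 : dims J n m (Sum.inl i) = n := rfl
  rw [h8, h9, h10] at h7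
  omega

end TensorVariety

end Pool.Agent.LibGMMT
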