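import Pool.Agent.LibGMM.Hyper

/-!
Normal subvarieties of products of projective spaces, and the varieties attached to a tensor.
-/

open Pool.Agent.LibGMM

namespace Pool.Agent.LibGMMT

/-- A normal subvariety `X` of the product of the projective spaces of dimension `m g`, `g : G`, with
function field `K`: the homogeneous coordinates of its generic point are `x`. -/
structure Multi (K : Type) [Field K] [Algebra ℂ K] {G : Type} [Fintype G] (m : G → ℕ) where
  x : (g : G) → Fin (m g + 1) → Kˣ
  frac : ∀ (s : (g : G) → Fin (m g + 1)) (y : K),
    ∃ a ∈ chart (segre x) s, ∃ b ∈ chart (segre x) s, b ≠ 0 ∧ y = a / b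
  normal : ∀ (s : (g : G) → Fin (m g + 1)) (y : K),
    IsIntegral (chart (segre x) s) y → y ∈ chart (segre x) s

section

variable {K : Type} [Field K] [Algebra ℂ K] {G : Type} [Fintype G] {m : G → ℕ}

/-- The variety as a normal projective variety, in its Segre embedding. -/
noncomputable def Multi.model (H : Multi K m) : NormalModel K where
  ι := (g : G) → Fin (m g + 1)
  fin := by classical infer_instance
  ne := ⟨fun _ => 0⟩
  g := segre H.x
  frac := H.frac
  normal := H.normal

/-- The pull-back to `X` of the hyperplane class of the `g`-th projective space. -/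
noncomputable def Multi.hyp (H : Multi K m) (g : G) (Q : DVal K) : ℝ :=
  - ⨅ s : Fin (m g + 1), (Q.ord (H.x g s) : ℝ)

/-- The coordinates of the generic point in the affine chart where the coordinates with the indices
`s g` are `1`. -/
def Multi.ratio (H : Multi K m) (s : (g : G) → Fin (m g + 1)) (g : G) (t : Fin (m g + 1)) : K :=
  (H.x g t : K) / H.x g (s g)

end

section

variable {J F : Type} [Fintype J] [DecidableEq J] [Fintype F] {n : ℕ} {m : F → ℕ}

/-- The dimensions of the factors of the product of copies of `ℙ ^ n`, indexed by `J`, and of
projective spaces of dimension `m f`, `f : F`. -/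
abbrev dims (J : Type) {F : Type} (n : ℕ) (m : F → ℕ) : J ⊕ F → ℕ := Sum.elim (fun _ => n) m

/-- A tensor with the slots `Option J`, each of dimension `n + 1`, whose entries are polynomials in
the coordinates of the product of the projective spaces of dimension `m f`, `f : F`. -/
abbrev Tensor (J : Type) {F : Type} (n : ℕ) (m : F → ℕ) : Type :=
  (Option J → Fin (n + 1)) → MvPolynomial (Σ f : F, Fin (m f + 1)) ℂ

/-- The value of the tensor `T` at the vectors `v o`, `o : Option J`, and the point `y`. -/
noncomputable def form (T : Tensor J n m) {R : Type} [CommRing R] [Algebra ℂ R]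
    (y : (Σ f : F, Fin (m f + 1)) → R) (v : Option J → Fin (n + 1) → R) : R :=
  ∑ s : Option J → Fin (n + 1), MvPolynomial.aeval y (T s) * ∏ o, v o (s o)

/-- The equations of the variety attached to `T`: the value of `T` at the `r`-th unit vector in the
slot `none` and the point `p`. -/
noncomputable def eqn (T : Tensor J n m) {R : Type} [CommRing R] [Algebra ℂ R]
    (p : (g : J ⊕ F) → Fin (dims J n m g + 1) → R) (r : Fin (n + 1)) : R :=
  form T (fun v => p (Sum.inr v.1) v.2) fun o => o.elim (Pi.single r 1) fun j => p (Sum.inl j)

/-- The square matrix of the linear equations for the coordinates of the `i`-th factor: the value of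
`T` at unit vectors in the slots `none` and `i`, and the point `p`. -/
noncomputable def mat (T : Tensor J n m) {R : Type} [CommRing R] [Algebra ℂ R]
    (p : (g : J ⊕ F) → Fin (dims J n m g + 1) → R) (i : J) : Matrix (Fin (n + 1)) (Fin (n + 1)) R :=
  fun r c => form T (fun v => p (Sum.inr v.1) v.2) fun o => o.elim (Pi.single r 1)
    (Function.update (fun j => p (Sum.inl j)) i (Pi.single c 1))

/-- The variety `X` in the product of the copies of `ℙ ^ n` and of the projective spaces of dimension
`m f`, defined by the `n + 1` equations `eqn T`, is normal, of the expected dimension, with function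
field `K`: `vanish` and `complete` say that the complex solutions of the equations are the complex
points of the closure of the generic point `x`. -/
structure TensorVariety (K : Type) [Field K] [Algebra ℂ K] (T : Tensor J n m) extends
    Multi K (dims J n m) where
  vanish : ∀ r, eqn T (fun g t => (x g t : K)) r = 0
  complete : ∀ (s : (g : J ⊕ F) → Fin (dims J n m g + 1))
    (p : (g : J ⊕ F) → Fin (dims J n m g + 1) → ℂ), (∀ g, p g (s g) = 1) → (∀ r, eqn T p r = 0) →
    ∀ P : MvPolynomial (Σ g : J ⊕ F, Fin (dims J n m g + 1)) ℂ,
      MvPolynomial.aeval (fun v => (x v.1 v.2 : K) / x v.1 (s v.1)) P = 0 →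
      MvPolynomial.aeval (fun v => p v.1 v.2) P = 0
  dim : Algebra.trdeg ℂ K + (n + 1 : ℕ) = (Fintype.card J * n + ∑ f, m f : ℕ)

/-- The matrix `mat T · i`, in an affine chart around the generic point of `Q`, has a minor of size
`n` which does not vanish along `Q`. -/
def RankAt {K : Type} [Field K] [Algebra ℂ K] (T : Tensor J n m) (H : Multi K (dims J n m)) (i : J)
    (Q : DVal K) : Prop :=
  ∃ s : (g : J ⊕ F) → Fin (dims J n m g + 1), (∀ g t, Q.ord (H.x g (s g)) ≤ Q.ord (H.x g t)) ∧
    ∃ a b, (mat T (H.ratio s) i).adjugate a b ≠ 0 ∧ Q.ord ((mat T (H.ratio s) i).adjugate a b) = 0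

/-- For every `i` the matrix `mat T · i` of the linear equations for the coordinates of the `i`-th
factor has rank `n` at the generic points of all prime divisors of `X`: the projections forgetting
one of the factors `ℙ ^ n` contract no divisor. -/
def TensorVariety.Small {K : Type} [Field K] [Algebra ℂ K] {T : Tensor J n m}
    (H : TensorVariety K T) : Prop :=
  ∀ (i : J) (Q : DVal K), H.model.IsPrimeDiv Q → RankAt T H.toMulti i Q

end

end Pool.Agent.LibGMMT
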