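import Pool.Agent.LibGMMT.Defs

/-! Definitions: exchange of two slots, degrees. -/

open Pool.Agent.LibGMM

namespace Pool.Agent.LibGMMT

variable {J F : Type} [Fintype J] [DecidableEq J] [Fintype F] {n : ℕ} {m : F → ℕ}

/-- The tensor with the slots `none` and `i` exchanged. -/
def flip (T : Tensor J n m) (i : J) : Tensor J n m := fun s => T (s ∘ Equiv.swap none (some i))

/-- The multidegree of the entries of the adjugate matrix of `mat T · i`, and the matrix of the
reflections. -/
def deg (n : ℕ) (e : F → ℕ) : J ⊕ F → ℕ := Sum.elim (fun _ => n) fun f => n * e f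

end Pool.Agent.LibGMMT
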