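import Pool.Agent.LibGMMT.Mx
import Pool.Agent.LibGMMT.FO1
import Pool.Agent.LibGMMT.FO4
import Pool.Agent.LibGMM.G9

/-! TASK MV1: transport by an automorphism of the function field, and change of the homogeneous
coordinates by factors. -/

open Pool.Agent.LibGMM

namespace Pool.Agent.LibGMMT

variable {K : Type} [Field K] [Algebra ℂ K]
variable {J F : Type} [Fintype J] [DecidableEq J] [Fintype F] [DecidableEq F] {n : ℕ} {m : F → ℕ}
variable {T : Tensor J n m}

private theorem MV1_chart_scale {ι : Type} (u : Kˣ) (g : ι → Kˣ) (i : ι) :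
    chart (fun j => u * g j) i = chart g i := by
  unfold chart
  congr 1
  ext y
  simp only [Set.mem_range, Units.val_mul, mul_div_mul_left _ _ u.ne_zero]

private theorem MV1_segre {G : Type} [Fintype G] {d : G → ℕ} (x : (g : G) → Fin (d g + 1) → Kˣ)
    (τ : K ≃ₐ[ℂ] K) (c : G → Kˣ) :
    segre (fun g t => c g * Units.map (τ : K →* K) (x g t)) =
      fun s => (∏ g, c g) * Units.map (τ : K →* K) (segre x s) := by
  funext s
  unfold segre
  rw [Finset.prod_mul_distrib, map_prod]

private theorem MV1_chart {G : Type} [Fintype G] {d : G → ℕ} (x : (g : G) → Fin (d g + 1) → Kˣ)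
    (τ : K ≃ₐ[ℂ] K) (c : G → Kˣ) (s : (g : G) → Fin (d g + 1)) :
    chart (segre (fun g t => c g * Units.map (τ : K →* K) (x g t))) s =
      (chart (segre x) s).map (τ : K →ₐ[ℂ] K) := by
  rw [MV1_segre, MV1_chart_scale, chart_map]

namespace TensorVariety

/-- The variety with the coordinates `c g * τ (x g t)`. -/
noncomputable def move (H : TensorVariety K T) (e : F → ℕ) (hT : ∀ s, MultiHom (T s) e)
    (τ : K ≃ₐ[ℂ] K) (c : J ⊕ F → Kˣ) : TensorVariety K T where
  x g t := c g * Units.map (τ : K →* K) (H.x g t)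
  frac := by
    intro i y
    obtain ⟨a, ha, b, hb, hb0, hab⟩ := H.frac i (τ.symm y)
    rw [MV1_chart]
    refine ⟨τ a, ⟨a, ha, rfl⟩, τ b, ⟨b, hb, rfl⟩, by simpa using hb0, ?_⟩
    rw [← map_div₀, ← hab]; simp
  normal := by
    intro i y hy
    rw [MV1_chart] at hy ⊢
    refine ⟨τ.symm y, H.normal i _ ?_, by simp⟩
    let e : ((chart (segre H.x) i).map (τ : K →ₐ[ℂ] K)) →+* (chart (segre H.x) i) :=
      ((τ.symm : K →ₐ[ℂ] K).comp
        ((chart (segre H.x) i).map (τ : K →ₐ[ℂ] K)).val).codRestrict (chart (segre H.x) i)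
        (by
          rintro ⟨_, ⟨z, hz, rfl⟩⟩
          simpa using hz)
    exact hy.map_of_comp_eq e (τ.symm : K →+* K) (by ext; rfl)
  vanish := by
    intro r
    have h1 := eqn_scale T e hT (fun g => ((c g : Kˣ) : K)) (fun g t => τ ((H.x g t : Kˣ) : K)) r
    have h2 := eqn_map T (τ : K →ₐ[ℂ] K) (fun g t => ((H.x g t : Kˣ) : K)) r
    have h3 : eqn T (fun g t => τ ((H.x g t : Kˣ) : K)) r = 0 := by
      refine Eq.trans h2.symm ?_
      rw [H.vanish r, map_zero]
    rw [h3, mul_zero] at h1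
    exact h1
  complete := by
    intro s p hp hr P hP
    refine H.complete s p hp hr P ?_
    have h1 : (fun v : Σ g : J ⊕ F, Fin (dims J n m g + 1) =>
        ((c v.1 * Units.map (τ : K →* K) (H.x v.1 v.2) : Kˣ) : K) /
          ((c v.1 * Units.map (τ : K →* K) (H.x v.1 (s v.1)) : Kˣ) : K)) =
        fun v => τ ((H.x v.1 v.2 : K) / H.x v.1 (s v.1)) := by
      funext v
      rw [Units.val_mul, Units.val_mul, mul_div_mul_left _ _ (c v.1).ne_zero, map_div₀]
      rfl
    rw [h1] at hP
    have h2 : MvPolynomial.aeval (fun v : Σ g : J ⊕ F, Fin (dims J n m g + 1) =>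
        τ ((H.x v.1 v.2 : K) / H.x v.1 (s v.1))) P =
        τ (MvPolynomial.aeval (fun v : Σ g : J ⊕ F, Fin (dims J n m g + 1) =>
          (H.x v.1 v.2 : K) / H.x v.1 (s v.1)) P) := by
      have h3 := MvPolynomial.comp_aeval_apply
        (fun v : Σ g : J ⊕ F, Fin (dims J n m g + 1) => (H.x v.1 v.2 : K) / H.x v.1 (s v.1))
        (τ : K →ₐ[ℂ] K) P
      exact h3.symm
    rw [h2] at hP
    exact (map_eq_zero_iff τ τ.injective).mp hP
  dim := H.dim

end TensorVariety

end Pool.Agent.LibGMMT
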