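import Pool.Agent.LibGMMT.SP2
import Pool.Agent.LibGMMT.AlgIso
import Pool.Agent.LibGMMT.MV1

/-! TASK FL1: the flop. -/

open Pool.Agent.LibGMM

namespace Pool.Agent.LibGMMT

variable {K : Type} [Field K] [Algebra ℂ K]
variable {J F : Type} [Fintype J] [DecidableEq J] [Fintype F] [DecidableEq F] {n : ℕ} {m : F → ℕ}
variable {T : Tensor J n m}

namespace TensorVariety

/-- A solution of the equations with coordinates in `K` which generate `K` is the generic point of a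
variety attached to the same tensor. -/
theorem exists_move (H : TensorVariety K T) (e : F → ℕ) (hT : ∀ s, MultiHom (T s) e)
    (s : (g : J ⊕ F) → Fin (dims J n m g + 1))
    (v : (g : J ⊕ F) → Fin (dims J n m g + 1) → K) (h1 : ∀ g, v g (s g) ≠ 0)
    (hv : ∀ r, eqn T v r = 0)
    (hgen : IntermediateField.adjoin ℂ {y | ∃ g t, y = v g t / v g (s g)} = ⊤) :
    ∃ (τ : K ≃ₐ[ℂ] K) (c : J ⊕ F → Kˣ), ∀ g t, ((H.move e hT τ c).x g t : K) = v g t := by
  obtain ⟨ψ, hψ⟩ := H.spec_hom e hT s v h1 hv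
  have hlt : Algebra.trdeg ℂ K < Cardinal.aleph0 := by
    refine lt_of_le_of_lt le_self_add (b := Algebra.trdeg ℂ K + (n + 1 : ℕ)) ?_
    rw [H.dim]
    exact Cardinal.natCast_lt_aleph0
  obtain ⟨N, hN⟩ := Cardinal.lt_aleph0.1 hlt
  obtain ⟨τ, hτ⟩ := exists_algEquiv N hN (chart (segre H.x) s) (H.frac s) ψ (by
    rw [eq_top_iff, ← hgen]
    refine IntermediateField.adjoin.mono _ _ _ ?_
    rintro y ⟨g, t, rfl⟩
    exact ⟨⟨H.ratio s g t, H.ratio_mem s g t⟩, hψ g t⟩)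
  have hτ' : ∀ g t, τ (H.ratio s g t) = v g t / v g (s g) := fun g t =>
    (hτ ⟨H.ratio s g t, H.ratio_mem s g t⟩).trans (hψ g t)
  refine ⟨τ, fun g => Units.mk0 (v g (s g) / τ (H.x g (s g))) (div_ne_zero (h1 g)
    ((map_ne_zero _).2 (H.x g (s g)).ne_zero)), fun g t => ?_⟩
  have h2 := hτ' g t
  unfold Multi.ratio at h2
  rw [map_div₀] at h2
  have h3 : τ (H.x g (s g) : K) ≠ 0 := (map_ne_zero _).2 (H.x g (s g)).ne_zero
  change v g (s g) / τ (H.x g (s g)) * τ (H.x g t) = v g t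
  rw [div_eq_div_iff h3 (h1 g)] at h2
  rw [div_mul_eq_mul_div, div_eq_iff h3, mul_comm, h2]

end TensorVariety

end Pool.Agent.LibGMMT
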