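import Pool.Agent.LibGMMT.FDefs

/-! TASK FO3: exchange of two slots. -/

open Pool.Agent.LibGMM

namespace Pool.Agent.LibGMMT

variable {J F : Type} [Fintype J] [DecidableEq J] [Fintype F] [DecidableEq F] {n : ℕ} {m : F → ℕ}
variable {R R' : Type} [CommRing R] [Algebra ℂ R] [CommRing R'] [Algebra ℂ R']

private theorem FO3_flip (T : Tensor J n m) (i : J) (y : (Σ f : F, Fin (m f + 1)) → R)
    (v : Option J → Fin (n + 1) → R) :
    form (flip T i) y v = form T y (v ∘ Equiv.swap none (some i)) := by
  unfold form flip
  refine Fintype.sum_equiv ((Equiv.swap none (some i)).arrowCongr (Equiv.refl (Fin (n + 1))))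
    _ _ fun s => ?_
  have h1 : ((Equiv.swap none (some i)).arrowCongr (Equiv.refl (Fin (n + 1)))) s =
      s ∘ Equiv.swap none (some i) := by
    funext o
    rw [Equiv.arrowCongr_apply, Equiv.symm_swap]
    rfl
  rw [h1]
  congr 1
  rw [← Equiv.prod_comp (Equiv.swap none (some i))]
  rfl

private theorem FO3_update (T : Tensor J n m) (y : (Σ f : F, Fin (m f + 1)) → R)
    (v : Option J → Fin (n + 1) → R) (o : Option J) (w : Fin (n + 1) → R) :
    form T y (Function.update v o w) = ∑ s : Option J → Fin (n + 1),
      MvPolynomial.aeval y (T s) * (w (s o) * ∏ o' ∈ Finset.univ.erase o, v o' (s o')) := by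
  unfold form
  refine Finset.sum_congr rfl fun s _ => ?_
  rw [← Finset.mul_prod_erase Finset.univ _ (Finset.mem_univ o), Function.update_self]
  congr 2
  refine Finset.prod_congr rfl fun o' ho' => ?_
  rw [Function.update_of_ne (Finset.ne_of_mem_erase ho')]

private theorem FO3_sum (T : Tensor J n m) (y : (Σ f : F, Fin (m f + 1)) → R)
    (v : Option J → Fin (n + 1) → R) (o : Option J) {κ : Type} (S : Finset κ) (a : κ → R)
    (w : κ → Fin (n + 1) → R) :
    form T y (Function.update v o fun t => ∑ k ∈ S, a k * w k t) =
      ∑ k ∈ S, a k * form T y (Function.update v o (w k)) := by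
  rw [FO3_update]
  have h1 : ∀ k ∈ S, a k * form T y (Function.update v o (w k)) =
      ∑ s : Option J → Fin (n + 1), a k * (MvPolynomial.aeval y (T s) *
        (w k (s o) * ∏ o' ∈ Finset.univ.erase o, v o' (s o'))) := by
    intro k _
    rw [FO3_update, Finset.mul_sum]
  rw [Finset.sum_congr rfl h1, Finset.sum_comm]
  refine Finset.sum_congr rfl fun s _ => ?_
  rw [Finset.sum_mul, Finset.mul_sum]
  refine Finset.sum_congr rfl fun k _ => ?_
  ring

/-- The entries of the matrix, with the vector `b` in the slot `none` and `c` in the slot `i`. -/
private theorem FO3_swap (q : J → Fin (n + 1) → R) (i : J) (b c : Fin (n + 1) → R) :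
    (fun o : Option J => o.elim b (Function.update q i c)) ∘ Equiv.swap none (some i) =
      fun o : Option J => o.elim c (Function.update q i b) := by
  funext o
  cases o with
  | none =>
    rw [Function.comp_apply, Equiv.swap_apply_left]
    change Function.update q i c i = c
    rw [Function.update_self]
  | some j =>
    rw [Function.comp_apply]
    by_cases hj : j = i
    · subst hj
      rw [Equiv.swap_apply_right]
      change b = Function.update q j b j
      rw [Function.update_self]
    · rw [Equiv.swap_apply_of_ne_of_ne (by simp) (by simpa using hj)]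
      change Function.update q i c j = Function.update q i b j
      rw [Function.update_of_ne hj, Function.update_of_ne hj]

private theorem FO3_none (q : J → Fin (n + 1) → R) (b : Fin (n + 1) → R) :
    (fun o : Option J => o.elim b q) =
      Function.update (fun o : Option J => o.elim (0 : Fin (n + 1) → R) q) none b := by
  funext o
  cases o with
  | none =>
    rw [Function.update_self]
    rfl
  | some j =>
    rw [Function.update_of_ne (by simp)]
    rfl

theorem eqn_flip (T : Tensor J n m) (p : (g : J ⊕ F) → Fin (dims J n m g + 1) → R) (i : J)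
    (z : Fin (n + 1) → R) :
    eqn (flip T i) (Function.update p (Sum.inl i) z) = Matrix.vecMul z (mat T p i) := by
  funext r
  have h1 : eqn (flip T i) (Function.update p (Sum.inl i) z) r =
      form (flip T i) (fun v => (p (Sum.inr v.1) : Fin (m v.1 + 1) → R) v.2)
        (fun o : Option J => o.elim (Pi.single r 1) (Function.update
          (fun j => (p (Sum.inl j) : Fin (n + 1) → R)) i z)) := by
    refine congrArg₂ (fun y v => form (flip T i) y v) ?_ ?_
    · funext v
      exact congrFun (Function.update_of_ne (by simp) _ _) v.2
    · funext o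
      cases o with
      | none => rfl
      | some j =>
        change (Function.update p (Sum.inl i) z (Sum.inl j) : Fin (n + 1) → R) =
          Function.update (fun j => (p (Sum.inl j) : Fin (n + 1) → R)) i z j
        by_cases hj : j = i
        · subst hj
          have e1 : Function.update p (Sum.inl j) z (Sum.inl j) = z := Function.update_self _ _ _
          have e2 : Function.update (fun j => (p (Sum.inl j) : Fin (n + 1) → R)) j z j = z :=
            Function.update_self _ _ _
          exact e1.trans e2.symm
        · rw [Function.update_of_ne hj]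
          exact Function.update_of_ne (fun h => hj (Sum.inl_injective h)) _ _
  rw [h1, FO3_flip, FO3_swap]
  have h3 : z = fun t => ∑ a, z a * (Pi.single a 1 : Fin (n + 1) → R) t := by
    funext t
    rw [Finset.sum_eq_single t]
    · rw [Pi.single_eq_same, mul_one]
    · intro c _ hc
      rw [Pi.single_eq_of_ne (Ne.symm hc), mul_zero]
    · intro h
      exact absurd (Finset.mem_univ t) h
  rw [FO3_none]
  conv_lhs => rw [h3]
  rw [FO3_sum]
  unfold Matrix.vecMul dotProduct
  refine Finset.sum_congr rfl fun a _ => ?_
  congr 1
  rw [← FO3_none]
  rfl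

theorem mat_flip (T : Tensor J n m) (p : (g : J ⊕ F) → Fin (dims J n m g + 1) → R) (i : J) :
    mat (flip T i) p i = (mat T p i).transpose := by
  ext r c
  rw [Matrix.transpose_apply]
  have h1 : mat (flip T i) p i r c =
      form (flip T i) (fun v => (p (Sum.inr v.1) : Fin (m v.1 + 1) → R) v.2)
        (fun o : Option J => o.elim (Pi.single r 1) (Function.update
          (fun j => (p (Sum.inl j) : Fin (n + 1) → R)) i (Pi.single c 1))) := rfl
  rw [h1, FO3_flip, FO3_swap]
  rfl

end Pool.Agent.LibGMMT
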