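import Pool.Agent.LibGMMT.MV1
import Pool.Agent.LibGMM.G9

/-! TASK MV2: transport by an automorphism of the function field, and change of the homogeneous
coordinates by factors. -/

open Pool.Agent.LibGMM

namespace Pool.Agent.LibGMMT

/-- a prime divisor with centre in a given affine chart -/
private def mv2PD {K : Type} [Field K] [Algebra ℂ K] (A : Subalgebra ℂ K) (Q : DVal K) : Prop :=
  ∃ P : Ideal A, P.IsPrime ∧ (∀ a : A, 0 ≤ Q.ord a ∧ (a ∈ P ↔ (a = 0 ∨ 0 < Q.ord a))) ∧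
    ∀ x, 0 ≤ Q.ord x → ∃ a b : A, b ∉ P ∧ x = (a : K) / b

private theorem mv2_iff {K : Type} [Field K] [Algebra ℂ K] (X : NormalModel K) (Q : DVal K) :
    X.IsPrimeDiv Q ↔ ∃ i : X.ι, mv2PD (chart X.g i) Q := by
  constructor
  · rintro ⟨⟨i, P, hP⟩, h1, h2⟩
    exact ⟨i, P, hP, h1, h2⟩
  · rintro ⟨i, P, hP, h1, h2⟩
    exact ⟨⟨i, P, hP⟩, h1, h2⟩

private theorem mv2_chart {K : Type} [Field K] [Algebra ℂ K] {ι : Type} (g g' : ι → Kˣ) (C : Kˣ)
    (h : ∀ i, g' i = C * g i) (i : ι) : chart g' i = chart g i := by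
  unfold chart
  congr 1
  congr 1
  funext j
  rw [h, h, Units.val_mul, Units.val_mul, mul_div_mul_left _ _ C.ne_zero]

variable {K : Type} [Field K] [Algebra ℂ K]
variable {J F : Type} [Fintype J] [DecidableEq J] [Fintype F] [DecidableEq F] {n : ℕ} {m : F → ℕ}
variable {T : Tensor J n m}

namespace TensorVariety

variable (H : TensorVariety K T) (e : F → ℕ) (hT : ∀ s, MultiHom (T s) e) (τ : K ≃ₐ[ℂ] K)
  (c : J ⊕ F → Kˣ)

theorem move_isPrimeDiv (Q : DVal K) :
    (H.move e hT τ c).model.IsPrimeDiv (Q.map τ) ↔ H.model.IsPrimeDiv Q := by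
  rw [← NormalModel.isPrimeDiv_map τ H.model Q, mv2_iff, mv2_iff]
  have h1 : ∀ s : (g : J ⊕ F) → Fin (dims J n m g + 1),
      segre (H.move e hT τ c).x s = (∏ g, c g) * Units.map (τ : K →* K) (segre H.x s) := by
    intro s
    unfold segre
    rw [map_prod, ← Finset.prod_mul_distrib]
    rfl
  have h2 : ∀ s : (g : J ⊕ F) → Fin (dims J n m g + 1),
      chart (segre (H.move e hT τ c).x) s =
        chart (fun s => Units.map (τ : K →* K) (segre H.x s)) s := fun s =>
    mv2_chart _ _ (∏ g, c g) h1 s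
  constructor
  · rintro ⟨s, hs⟩
    refine ⟨s, ?_⟩
    have hs' : mv2PD (chart (segre (H.move e hT τ c).x) s) (Q.map τ) := hs
    rw [h2] at hs'
    exact hs'
  · rintro ⟨s, hs⟩
    refine ⟨s, ?_⟩
    have hs' : mv2PD (chart (fun s => Units.map (τ : K →* K) (segre H.x s)) s) (Q.map τ) := hs
    rw [← h2] at hs'
    exact hs'

theorem move_small (hS : H.Small) : (H.move e hT τ c).Small := by
  intro i Q' hQ'
  have hQQ : (Q'.map τ.symm).map τ = Q' := DVal.map_symm_map τ Q'
  have hQ : H.model.IsPrimeDiv (Q'.map τ.symm) := by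
    rw [← move_isPrimeDiv H e hT τ c (Q'.map τ.symm), hQQ]
    exact hQ'
  obtain ⟨s, hs, a, b, hab, hab0⟩ := hS i _ hQ
  have hord : ∀ y : K, Q'.ord (τ y) = (Q'.map τ.symm).ord y := by
    intro y
    rw [DVal.map_ord, AlgEquiv.symm_symm]
  have hx : ∀ g t, Q'.ord ((H.move e hT τ c).x g t) =
      Q'.ord (c g) + (Q'.map τ.symm).ord (H.x g t) := by
    intro g t
    show Q'.ord ((c g : K) * τ (H.x g t)) = _
    rw [Q'.ord_mul _ _ (c g).ne_zero ((map_ne_zero τ).mpr (H.x g t).ne_zero), hord]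
  have hratio : ∀ g t, (H.move e hT τ c).toMulti.ratio s g t = τ (H.toMulti.ratio s g t) := by
    intro g t
    show ((c g : K) * τ (H.x g t)) / ((c g : K) * τ (H.x g (s g))) =
      τ ((H.x g t : K) / H.x g (s g))
    rw [mul_div_mul_left _ _ (c g).ne_zero, map_div₀]
  have hmat : mat T ((H.move e hT τ c).toMulti.ratio s) i =
      (mat T (H.toMulti.ratio s) i).map (τ : K →ₐ[ℂ] K) := by
    rw [mat_map T (τ : K →ₐ[ℂ] K)]
    congr 1
    funext g t
    exact hratio g t
  have hadj : (mat T ((H.move e hT τ c).toMulti.ratio s) i).adjugate a b =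
      τ ((mat T (H.toMulti.ratio s) i).adjugate a b) := by
    rw [hmat]
    have h1 := RingHom.map_adjugate ((τ : K →ₐ[ℂ] K) : K →+* K) (mat T (H.toMulti.ratio s) i)
    have h2 := congrFun (congrFun h1 a) b
    exact h2.symm
  refine ⟨s, fun g t => ?_, a, b, ?_, ?_⟩
  · rw [hx, hx]
    exact add_le_add_right (hs g t) _
  · rw [hadj]
    exact (map_ne_zero τ).mpr hab
  · rw [hadj, hord]
    exact hab0

end TensorVariety

end Pool.Agent.LibGMMT
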