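import Pool.Agent.LibGMMT.Mx
import Pool.Agent.LibGMMT.Ratio
import Pool.Agent.LibGMMT.FO1

/-! TASK PR: prime divisors and hyperplane classes under a flop. -/

open Pool.Agent.LibGMM

namespace Pool.Agent.LibGMMT

variable {K : Type} [Field K] [Algebra ℂ K]
variable {J F : Type} [Fintype J] [DecidableEq J] [Fintype F] [DecidableEq F] {n : ℕ} {m : F → ℕ}
variable {T : Tensor J n m}

/-- The adjugate has entries in a subalgebra which contains the coordinates of the factors other
than the `i`-th. -/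
private theorem Prime_adj_mem (T : Tensor J n m) (B : Subalgebra ℂ K)
    (p : (g : J ⊕ F) → Fin (dims J n m g + 1) → K) (i : J)
    (hp : ∀ g, g ≠ Sum.inl i → ∀ t, p g t ∈ B) (a b : Fin (n + 1)) :
    (mat T p i).adjugate a b ∈ B := by
  classical
  let q : (g : J ⊕ F) → Fin (dims J n m g + 1) → B := fun g t =>
    if h : g = Sum.inl i then 1 else ⟨p g t, hp g h t⟩
  have h1 : mat T p i = (mat T q i).map B.val := by
    rw [mat_map]
    apply mat_congr
    intro g hg
    funext t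
    simp only [q, dif_neg hg]
    rfl
  have h2 : (mat T p i).adjugate = (mat T q i).adjugate.map B.val := by
    rw [h1]
    exact (RingHom.map_adjugate (B.val : B →+* K) (mat T q i)).symm
  rw [h2]
  exact (((mat T q i).adjugate a b).2)

private theorem Prime_inv_mem (X : NormalModel K) (O : DVal K) (p : X.Pt) (h : X.IsCentre O p)
    (y : K) (hy : y ∈ X.loc p) (hy0 : y ≠ 0) (ho : O.ord y = 0) : y⁻¹ ∈ X.loc p := by
  obtain ⟨a, b, hb, rfl⟩ := hy
  have h1 : ¬ (b = 0 ∨ 0 < O.ord b) := fun hc => hb ((h b).2.2 hc)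
  push Not at h1
  have hb0 : (b : K) ≠ 0 := fun hc => h1.1 (Subtype.ext hc)
  have ha0 : (a : K) ≠ 0 := by
    intro hc
    apply hy0
    rw [hc, zero_div]
  have h2 := (h b).1
  rw [O.ord_div ha0 hb0] at ho
  refine ⟨b, a, ?_, ?_⟩
  · intro ha
    rcases (h a).2.1 ha with h3 | h3
    · exact ha0 (by rw [h3]; rfl)
    · omega
  · rw [inv_div]

private theorem Prime_chart_loc (X : NormalModel K) (p : X.Pt) (y : K)
    (hy : y ∈ chart X.g p.i) : y ∈ X.loc p := by
  refine ⟨⟨y, hy⟩, 1, ?_, ?_⟩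
  · intro h
    exact p.prime.ne_top ((Ideal.eq_top_iff_one _).2 h)
  · simp

theorem rankAt_transfer (e : F → ℕ) (hT : ∀ s, MultiHom (T s) e) (H H' : Multi K (dims J n m))
    (i : J) (hx : ∀ g, g ≠ Sum.inl i → H'.x g = H.x g)
    (hadj : ∀ a b : Fin (n + 1), (mat T (fun g t => (H.x g t : K)) i).adjugate a b =
      (H.x (Sum.inl i) a : K) * H'.x (Sum.inl i) b)
    (Q : DVal K) (hQ : H.model.IsPrimeDiv Q) (hR : RankAt T H i Q) :
    H'.model.IsPrimeDiv Q ∧ H'.hyp (Sum.inl i) Q = - H.hyp (Sum.inl i) Q +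
      ∑ g ∈ Finset.univ.erase (Sum.inl i), (deg n e g : ℝ) * H.hyp g Q := by
  classical
  obtain ⟨s, hs, a, b, hab0, hab⟩ := hR
  set D := (mat T (H.ratio s) i).adjugate with hD
  set L := lam e H i s with hL
  have hL0 : L ≠ 0 := lam_ne e H i s
  have hxD : ∀ c d : Fin (n + 1), (H.x (Sum.inl i) c : K) * H'.x (Sum.inl i) d =
      L ^ n * D c d := by
    intro c d
    rw [← hadj, adj_ratio T e hT H i s]
    rfl
  have hD0 : ∀ c d : Fin (n + 1), D c d ≠ 0 := by
    intro c d h
    have h1 := hxD c d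
    rw [h, mul_zero] at h1
    exact mul_ne_zero (Units.ne_zero _) (Units.ne_zero _) h1
  have hr0 : ∀ g t, H.ratio s g t ≠ 0 := fun g t => div_ne_zero (Units.ne_zero _) (Units.ne_zero _)
  have hr : ∀ g t, 0 ≤ Q.ord (H.ratio s g t) := by
    intro g t
    unfold Multi.ratio
    rw [Q.ord_div (Units.ne_zero _) (Units.ne_zero _)]
    have := hs g t
    omega
  have hDord : ∀ c d : Fin (n + 1), 0 ≤ Q.ord (D c d) := fun c d =>
    Prime_adj_mem T Q.ring (H.ratio s) i (fun g _ t => hr g t) c d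
  have hsum : ∀ c d : Fin (n + 1), Q.ord (H.x (Sum.inl i) c) + Q.ord (H'.x (Sum.inl i) d) =
      n * Q.ord L + Q.ord (D c d) := by
    intro c d
    rw [← Q.ord_mul' (Units.ne_zero _) (Units.ne_zero _), hxD,
      Q.ord_mul' (pow_ne_zero _ hL0) (hD0 c d), Q.ord_pow]
  have hxi : ∀ c : Fin (n + 1), Q.ord (H.x (Sum.inl i) a) ≤ Q.ord (H.x (Sum.inl i) c) := by
    intro c
    have h1 := hsum a b
    have h2 := hsum c b
    have h3 := hDord c b
    omega
  have hzi : ∀ c : Fin (n + 1), Q.ord (H'.x (Sum.inl i) b) ≤ Q.ord (H'.x (Sum.inl i) c) := by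
    intro c
    have h1 := hsum a b
    have h2 := hsum a c
    have h3 := hDord a c
    omega
  -- hyperplane classes
  have hyp_eq : ∀ (H'' : Multi K (dims J n m)) (g : J ⊕ F) (t : Fin (dims J n m g + 1)),
      (∀ t', Q.ord (H''.x g t) ≤ Q.ord (H''.x g t')) → H''.hyp g Q = - (Q.ord (H''.x g t) : ℝ) := by
    intro H'' g t ht
    obtain ⟨t', ht'⟩ := H''.exists_hyp_eq g Q
    have h1 := H''.neg_hyp_le g t Q
    have h2 : (Q.ord (H''.x g t) : ℝ) ≤ Q.ord (H''.x g t') := by exact_mod_cast ht t'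
    rw [ht'] at h1 ⊢
    linarith
  have hclass : H'.hyp (Sum.inl i) Q = - H.hyp (Sum.inl i) Q +
      ∑ g ∈ Finset.univ.erase (Sum.inl i), (deg n e g : ℝ) * H.hyp g Q := by
    rw [hyp_eq H' (Sum.inl i) b hzi, hyp_eq H (Sum.inl i) a hxi]
    have h1 : ∀ g, H.hyp g Q = - (Q.ord (H.x g (s g)) : ℝ) := fun g => hyp_eq H g (s g) (hs g)
    have h2 : Q.ord L = ∑ j ∈ Finset.univ.erase i, Q.ord (H.x (Sum.inl j) (s (Sum.inl j)) : K) +
        ∑ f, (e f : ℤ) * Q.ord (H.x (Sum.inr f) (s (Sum.inr f)) : K) := by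
      rw [hL]
      unfold lam
      rw [Q.ord_mul' (Finset.prod_ne_zero_iff.2 fun _ _ => Units.ne_zero _)
        (Finset.prod_ne_zero_iff.2 fun _ _ => pow_ne_zero _ (Units.ne_zero _)),
        Q.ord_prod _ _ (fun _ _ => Units.ne_zero _),
        Q.ord_prod _ _ (fun _ _ => pow_ne_zero _ (Units.ne_zero _))]
      congr 1
      refine Finset.sum_congr rfl fun f _ => ?_
      rw [Q.ord_pow]
    have h3 : ∑ g ∈ Finset.univ.erase (Sum.inl i), (deg n e g : ℝ) * H.hyp g Q =
        - ((n : ℝ) * (Q.ord L : ℝ)) := by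
      have h4 : (Finset.univ.erase (Sum.inl i) : Finset (J ⊕ F)) =
          ((Finset.univ : Finset J).erase i).disjSum (Finset.univ : Finset F) := by
        ext g
        rcases g with g | g
        · simp
        · simp
      rw [h4, Finset.sum_disjSum, h2]
      simp only [deg, Sum.elim_inl, Sum.elim_inr, h1]
      push_cast
      rw [mul_add, neg_add, Finset.mul_sum, Finset.mul_sum, ← Finset.sum_neg_distrib,
        ← Finset.sum_neg_distrib]
      congr 1
      · refine Finset.sum_congr rfl fun j _ => ?_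
        ring
      · refine Finset.sum_congr rfl fun j _ => ?_
        ring
    rw [h3]
    have h5 := hsum a b
    rw [hab, add_zero] at h5
    have h6 : (Q.ord (H.x (Sum.inl i) a) : ℝ) + Q.ord (H'.x (Sum.inl i) b) =
        n * (Q.ord L : ℝ) := by
      exact_mod_cast h5
    linarith
  refine ⟨?_, hclass⟩
  -- prime divisors
  obtain ⟨p, hpc, hp⟩ := hQ
  let s' : (g : J ⊕ F) → Fin (dims J n m g + 1) := Function.update s (Sum.inl i) b
  have hs'i : s' (Sum.inl i) = b := Function.update_self _ _ _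
  have hs'g : ∀ g, g ≠ Sum.inl i → s' g = s g := fun g hg => Function.update_of_ne hg _ _
  have hmin' : ∀ g t, Q.ord (H'.x g (s' g)) ≤ Q.ord (H'.x g t) := by
    intro g t
    by_cases hg : g = Sum.inl i
    · subst hg
      rw [hs'i]
      exact hzi t
    · rw [hs'g g hg, hx g hg]
      exact hs g t
  have hmodel : ∀ q : H'.model.ι, 0 ≤ Q.ord ((H'.model.g q : K) / H'.model.g s') := by
    intro q
    change 0 ≤ Q.ord ((segre H'.x q : K) / segre H'.x s')
    rw [Multi.segre_ratio, Q.ord_prod _ _ (fun _ _ => div_ne_zero (Units.ne_zero _)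
      (Units.ne_zero _))]
    refine Finset.sum_nonneg fun g _ => ?_
    rw [Q.ord_div (Units.ne_zero _) (Units.ne_zero _)]
    have := hmin' g (q g)
    omega
  obtain ⟨p', hp'i, hp'c⟩ := H'.model.exists_centre' Q s' hmodel
  refine ⟨p', hp'c, ?_⟩
  have hchart' : ∀ y, y ∈ chart (segre H'.x) s' → y ∈ H'.model.loc p' := by
    intro y hy
    apply Prime_chart_loc
    rw [hp'i]
    exact hy
  have hinv : ∀ y, y ∈ H'.model.loc p' → y ≠ 0 → Q.ord y = 0 → y⁻¹ ∈ H'.model.loc p' :=
    Prime_inv_mem H'.model Q p' hp'c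
  -- ratios of the factors other than the `i`-th
  have hrat : ∀ g, g ≠ Sum.inl i → ∀ t, H.ratio s g t ∈ chart (segre H'.x) s' := by
    intro g hg t
    have h1 := H'.ratio_mem s' g t
    unfold Multi.ratio at h1 ⊢
    rwa [hs'g g hg, hx g hg] at h1
  have hDmem : ∀ c d : Fin (n + 1), D c d ∈ H'.model.loc p' := fun c d =>
    hchart' _ (Prime_adj_mem T _ (H.ratio s) i hrat c d)
  -- the chart of the centre of `Q` on `H`
  have hple : ∀ g t, Q.ord (H.x g (p.i g)) ≤ Q.ord (H.x g t) := by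
    intro g t
    have h1 := (hpc ⟨H.ratio p.i g t, H.ratio_mem p.i g t⟩).1
    change 0 ≤ Q.ord (H.ratio p.i g t) at h1
    unfold Multi.ratio at h1
    rw [Q.ord_div (Units.ne_zero _) (Units.ne_zero _)] at h1
    omega
  have hpeq : ∀ g, Q.ord (H.x g (p.i g)) = Q.ord (H.x g (s g)) := fun g =>
    le_antisymm (hple g _) (hs g _)
  have hgen : ∀ g t, H.ratio p.i g t ∈ H'.model.loc p' := by
    intro g t
    by_cases hg : g = Sum.inl i
    · subst hg
      have h1 : H.ratio p.i (Sum.inl i) t = D t b * (D (p.i (Sum.inl i)) b)⁻¹ := by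
        have h2 := hxD t b
        have h3 := hxD (p.i (Sum.inl i)) b
        have h4 : (H'.x (Sum.inl i) b : K) ≠ 0 := Units.ne_zero _
        have h5 : (H.x (Sum.inl i) (p.i (Sum.inl i)) : K) ≠ 0 := Units.ne_zero _
        have h6 : L ^ n ≠ 0 := pow_ne_zero _ hL0
        have h7 := hD0 (p.i (Sum.inl i)) b
        unfold Multi.ratio
        rw [← div_eq_mul_inv, div_eq_div_iff h5 h7]
        apply mul_left_cancel₀ (mul_ne_zero h4 h6)
        linear_combination (L ^ n * D (p.i (Sum.inl i)) b) * h2 - (L ^ n * D t b) * h3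
      rw [h1]
      refine H'.model.mul_mem_loc p' (hDmem _ _) (hinv _ (hDmem _ _) (hD0 _ _) ?_)
      have h2 := hsum (p.i (Sum.inl i)) b
      have h3 := hsum a b
      have h4 := hple (Sum.inl i) a
      have h5 := hxi (p.i (Sum.inl i))
      omega
    · have h1 : H.ratio p.i g t = H.ratio s g t * (H.ratio s g (p.i g))⁻¹ := by
        unfold Multi.ratio
        rw [inv_div, div_mul_div_cancel₀ (Units.ne_zero _)]
      rw [h1]
      refine H'.model.mul_mem_loc p' (hchart' _ (hrat g hg t)) (hinv _ (hchart' _ (hrat g hg _))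
        (hr0 _ _) ?_)
      unfold Multi.ratio
      rw [Q.ord_div (Units.ne_zero _) (Units.ne_zero _), hpeq]
      ring
  have hall : ∀ y, y ∈ chart (segre H.x) p.i → y ∈ H'.model.loc p' := by
    intro y hy
    rw [H.chart_eq] at hy
    induction hy using Algebra.adjoin_induction with
    | mem x hx => obtain ⟨v, rfl⟩ := hx; exact hgen v.1 v.2
    | algebraMap r => exact H'.model.const_mem_loc p' r
    | add x y _ _ h1 h2 => exact H'.model.add_mem_loc p' h1 h2
    | mul x y _ _ h1 h2 => exact H'.model.mul_mem_loc p' h1 h2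
  intro y hy
  obtain ⟨α, β, hβ, rfl⟩ := hp y hy
  have h1 : ¬ (β = 0 ∨ 0 < Q.ord β) := fun hc => hβ ((hpc β).2.2 hc)
  push Not at h1
  have hβ0 : (β : K) ≠ 0 := fun hc => h1.1 (Subtype.ext hc)
  have h2 := (hpc β).1
  rw [div_eq_mul_inv]
  refine H'.model.mul_mem_loc p' (hall _ α.2) (hinv _ (hall _ β.2) hβ0 ?_)
  omega

end Pool.Agent.LibGMMT
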