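import Pool.Agent.LibGMMT.FL1
import Pool.Agent.LibGMMT.MV2
import Pool.Agent.LibGMMT.Gen
import Pool.Agent.LibGMMT.Prime
import Pool.Agent.LibGMMT.FO3

/-! TASK FL2: the flop. -/

open Pool.Agent.LibGMM

namespace Pool.Agent.LibGMMT

variable {K : Type} [Field K] [Algebra ℂ K]
variable {J F : Type} [Fintype J] [DecidableEq J] [Fintype F] [DecidableEq F] {n : ℕ} {m : F → ℕ}
variable {T : Tensor J n m}

namespace TensorVariety

omit [DecidableEq J] [DecidableEq F] in
private theorem fl2_hyp (H H' : Multi K (dims J n m)) (g : J ⊕ F) (h : H'.x g = H.x g)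
    (Q : DVal K) : H'.hyp g Q = H.hyp g Q := by
  unfold Multi.hyp
  rw [h]

private theorem fl2_class (e : F → ℕ) (H H' : Multi K (dims J n m)) (i : J)
    (hx : ∀ g, g ≠ Sum.inl i → H'.x g = H.x g) (Q : DVal K)
    (hQ : H'.hyp (Sum.inl i) Q = - H.hyp (Sum.inl i) Q +
      ∑ g ∈ Finset.univ.erase (Sum.inl i), (deg n e g : ℝ) * H.hyp g Q) (b : J ⊕ F → ℝ) :
    ∑ g, b g * H.hyp g Q = ∑ g, refl (deg n e) (Sum.inl i) b g * H'.hyp g Q := by
  rw [← Finset.add_sum_erase Finset.univ (fun g => b g * H.hyp g Q)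
      (Finset.mem_univ (Sum.inl i)),
    ← Finset.add_sum_erase Finset.univ
      (fun g => refl (deg n e) (Sum.inl i) b g * H'.hyp g Q) (Finset.mem_univ (Sum.inl i))]
  have h1 : ∀ g ∈ Finset.univ.erase (Sum.inl i), refl (deg n e) (Sum.inl i) b g * H'.hyp g Q =
      b g * H.hyp g Q + b (Sum.inl i) * ((deg n e g : ℝ) * H.hyp g Q) := by
    intro g hg
    have hg' := Finset.ne_of_mem_erase hg
    rw [fl2_hyp H H' g (hx g hg') Q]
    simp only [LibGMM.refl, hg', if_false]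
    ring
  rw [Finset.sum_congr rfl h1, Finset.sum_add_distrib, ← Finset.mul_sum]
  have h2 : refl (deg n e) (Sum.inl i) b (Sum.inl i) = - b (Sum.inl i) := by simp [LibGMM.refl]
  rw [h2, hQ]
  ring

theorem flop (e : F → ℕ) (hT : ∀ s, MultiHom (T s) e) (hK : ¬ Algebra.IsAlgebraic ℂ K)
    (H : TensorVariety K T) (hS : H.Small) (i : J) (X' : TensorVariety K (flip T i))
    (hS' : X'.Small) :
    ∃ H' : TensorVariety K (flip T i), H'.Small ∧
      (∀ Q, H'.model.IsPrimeDiv Q ↔ H.model.IsPrimeDiv Q) ∧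
      ∀ Q, H.model.IsPrimeDiv Q → ∀ b : J ⊕ F → ℝ, ∑ g, b g * H.hyp g Q =
        ∑ g, refl (deg n e) (Sum.inl i) b g * H'.hyp g Q := by
  have hT' : ∀ s, MultiHom (flip T i s) e := fun s => hT _
  obtain ⟨z, hz0, hzA, hadj⟩ := exists_adj_factor (mat T (fun g t => (H.x g t : K)) i)
    (fun t => (H.x (Sum.inl i) t : K)) (fun t => (H.x (Sum.inl i) t).ne_zero)
    (mulVec_x T e hT H.toMulti H.vanish i) (H.adj_ne' e hT hS hK i)
  obtain ⟨r₀, hr₀⟩ : ∃ r, z r ≠ 0 := Function.ne_iff.1 hz0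
  set v : (g : J ⊕ F) → Fin (dims J n m g + 1) → K :=
    Function.update (fun g t => (H.x g t : K)) (Sum.inl i) z with hv
  have hvi : v (Sum.inl i) = z := Function.update_self _ _ _
  have hvg : ∀ g, g ≠ Sum.inl i → v g = fun t => (H.x g t : K) := fun g hg =>
    Function.update_of_ne hg _ _
  let s : (g : J ⊕ F) → Fin (dims J n m g + 1) := Function.update (fun _ => 0) (Sum.inl i) r₀
  have hsi : s (Sum.inl i) = r₀ := Function.update_self _ _ _
  have hsg : ∀ g, g ≠ Sum.inl i → s g = 0 := fun g hg => Function.update_of_ne hg _ _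
  have h1 : ∀ g, v g (s g) ≠ 0 := by
    intro g
    by_cases hg : g = Sum.inl i
    · subst hg
      rw [hvi, hsi]; exact hr₀
    · rw [hvg g hg]; exact (H.x g _).ne_zero
  have hv0 : ∀ r, eqn (flip T i) v r = 0 := by
    intro r
    have h := congrFun (eqn_flip T (fun g t => (H.x g t : K)) i z) r
    rw [hzA] at h
    exact h
  have hgen : IntermediateField.adjoin ℂ {y | ∃ g t, y = v g t / v g (s g)} = ⊤ := by
    rw [eq_top_iff, ← H.adjoin_eq_top e hT hS hK i (fun _ => 0)]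
    refine IntermediateField.adjoin.mono _ _ _ ?_
    rintro y ⟨g, hg, t, rfl⟩
    refine ⟨g, t, ?_⟩
    rw [hvg g hg, hsg g hg]
    rfl
  obtain ⟨τ, c, hx⟩ := X'.exists_move e hT' s v h1 hv0 hgen
  set H' := X'.move e hT' τ c with hH'
  have hS'' : H'.Small := X'.move_small e hT' τ c hS'
  have hxg : ∀ g, g ≠ Sum.inl i → H'.x g = H.x g := by
    intro g hg
    funext t
    apply Units.ext
    rw [hx, hvg g hg]
  have hxi : ∀ t, (H'.x (Sum.inl i) t : K) = z t := by
    intro t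
    rw [hx, hvi]
  have hadj1 : ∀ a b : Fin (n + 1), (mat T (fun g t => (H.x g t : K)) i).adjugate a b =
      (H.x (Sum.inl i) a : K) * H'.x (Sum.inl i) b := by
    intro a b
    rw [hadj, hxi]
  have hadj2 : ∀ a b : Fin (n + 1), (mat (flip T i) (fun g t => (H'.x g t : K)) i).adjugate a b =
      (H'.x (Sum.inl i) a : K) * H.x (Sum.inl i) b := by
    intro a b
    rw [mat_flip, mat_congr T (fun g t => (H'.x g t : K)) (fun g t => (H.x g t : K)) i
      (fun g hg => by rw [hxg g hg]), ← Matrix.adjugate_transpose, Matrix.transpose_apply, hadj1,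
      mul_comm]
  have h2 : ∀ Q, H.model.IsPrimeDiv Q → _ := fun Q hQ =>
    rankAt_transfer e hT H.toMulti H'.toMulti i hxg hadj1 Q hQ (hS i Q hQ)
  have h3 : ∀ Q, H'.model.IsPrimeDiv Q → _ := fun Q hQ =>
    rankAt_transfer e hT' H'.toMulti H.toMulti i (fun g hg => (hxg g hg).symm) hadj2 Q hQ
      (hS'' i Q hQ)
  exact ⟨H', hS'', fun Q => ⟨fun hQ => (h3 Q hQ).1, fun hQ => (h2 Q hQ).1⟩,
    fun Q hQ b => fl2_class e H.toMulti H'.toMulti i hxg Q (h2 Q hQ).2 b⟩

end TensorVariety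

end Pool.Agent.LibGMMT
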