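import Pool.Agent.LibGMMT.FDefs

/-! TASK FO5: degrees of the entries. -/

open Pool.Agent.LibGMM

namespace Pool.Agent.LibGMMT

variable {J F : Type} [Fintype J] [DecidableEq J] [Fintype F] [DecidableEq F] {n : ℕ} {m : F → ℕ}
variable {R R' : Type} [CommRing R] [Algebra ℂ R] [CommRing R'] [Algebra ℂ R']

private theorem FO5_single {k : Type} [Field k] {κ : Type} (r t : Fin (n + 1)) :
    ((Pi.single r 1 : Fin (n + 1) → MvPolynomial κ k) t).totalDegree = 0 := by
  rw [Pi.single_apply]
  split_ifs
  · exact MvPolynomial.totalDegree_one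
  · exact MvPolynomial.totalDegree_zero

private theorem FO5_const {k : Type} [Field k] [Algebra ℂ k] {κ ν : Type}
    (y : ν → MvPolynomial κ k) (hy : ∀ v, ∃ c, y v = MvPolynomial.C c) (P : MvPolynomial ν ℂ) :
    ∃ c, MvPolynomial.aeval y P = MvPolynomial.C c := by
  induction P using MvPolynomial.induction_on with
  | C a => exact ⟨algebraMap ℂ k a, by rw [MvPolynomial.aeval_C]; rfl⟩
  | add p q hp hq =>
    obtain ⟨c, hc⟩ := hp
    obtain ⟨d, hd⟩ := hq
    exact ⟨c + d, by rw [map_add, hc, hd, map_add]⟩
  | mul_X p v hp =>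
    obtain ⟨c, hc⟩ := hp
    obtain ⟨d, hd⟩ := hy v
    exact ⟨c * d, by rw [map_mul, MvPolynomial.aeval_X, hc, hd, map_mul]⟩

/-- The entries of the matrix have degree `≤ 1` if the coordinates of the `j`-th factor have degree
`≤ 1` and the others are constants. -/
theorem mat_totalDegree {k : Type} [Field k] [Algebra ℂ k] {κ : Type} (T : Tensor J n m)
    (p : (g : J ⊕ F) → Fin (dims J n m g + 1) → MvPolynomial κ k) (i j : J) (hij : i ≠ j)
    (hj : ∀ t, (p (Sum.inl j) t).totalDegree ≤ 1)
    (hp : ∀ g, g ≠ Sum.inl i → g ≠ Sum.inl j → ∀ t, ∃ c, p g t = MvPolynomial.C c)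
    (r c : Fin (n + 1)) : (mat T p i r c).totalDegree ≤ 1 := by
  have key : ∀ q : Option J → Fin (n + 1) → MvPolynomial κ k,
      (∀ o, o ≠ some j → ∀ t, (q o t).totalDegree = 0) → (∀ t, (q (some j) t).totalDegree ≤ 1) →
      ∀ y : (Σ f : F, Fin (m f + 1)) → MvPolynomial κ k, (∀ v, ∃ c, y v = MvPolynomial.C c) →
      (form T y q).totalDegree ≤ 1 := by
    intro q h0 h1 y hy
    unfold form
    refine MvPolynomial.totalDegree_finsetSum_le fun s _ => ?_
    obtain ⟨a, ha⟩ := FO5_const y hy (T s)
    rw [ha]
    refine (MvPolynomial.totalDegree_mul _ _).trans ?_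
    rw [MvPolynomial.totalDegree_C, zero_add]
    refine (MvPolynomial.totalDegree_finsetProd _ _).trans ?_
    rw [Finset.sum_eq_single (some j)]
    · exact h1 _
    · intro o _ ho
      exact h0 o ho _
    · intro h
      exact absurd (Finset.mem_univ _) h
  refine key (fun o : Option J => o.elim (Pi.single r 1) (Function.update
    (fun j => (p (Sum.inl j) : Fin (n + 1) → MvPolynomial κ k)) i (Pi.single c 1))) ?_ ?_
    (fun v => (p (Sum.inr v.1) : Fin (m v.1 + 1) → MvPolynomial κ k) v.2) ?_
  · intro o ho t
    cases o with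
    | none => exact FO5_single r t
    | some a =>
      change (Function.update (fun j => (p (Sum.inl j) : Fin (n + 1) → MvPolynomial κ k)) i
        (Pi.single c 1) a t).totalDegree = 0
      by_cases ha : a = i
      · subst ha
        rw [Function.update_self]
        exact FO5_single c t
      · rw [Function.update_of_ne ha]
        obtain ⟨d, hd⟩ := hp (Sum.inl a) (fun h => ha (Sum.inl_injective h))
          (fun h => ho (congrArg some (Sum.inl_injective h))) t
        change (p (Sum.inl a) t).totalDegree = 0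
        rw [hd]
        exact MvPolynomial.totalDegree_C _
  · intro t
    change (Function.update (fun j => (p (Sum.inl j) : Fin (n + 1) → MvPolynomial κ k)) i
        (Pi.single c 1) j t).totalDegree ≤ 1
    rw [Function.update_of_ne (Ne.symm hij)]
    exact hj t
  · intro v
    exact hp (Sum.inr v.1) (by simp) (by simp) v.2

end Pool.Agent.LibGMMT
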