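import Pool.Agent.LibGMMT.Count

/-! TASK FN: the coordinates of effective classes at the factors of large dimension. -/

open Pool.Agent.LibGMM

namespace Pool.Agent.LibGMMT

variable {K : Type} [Field K] [Algebra ℂ K]
variable {J F : Type} [Fintype J] [DecidableEq J] [Fintype F] [DecidableEq F] {n : ℕ} {m : F → ℕ}
variable {T : Tensor J n m}

namespace TensorVariety

theorem eff_nonneg_inr (H : TensorVariety K T) (f : F) (hf : n + 2 ≤ m f) (a : J ⊕ F → ℤ)
    (ha : a ∈ H.EffZ) : 0 ≤ a (Sum.inr f) := by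
  classical
  by_contra hneg
  push Not at hneg
  set S : Finset (J ⊕ F) := {Sum.inr f} with hS
  have h1 : Algebra.IsAlgebraic (H.fieldOut S) K := by
    refine isAlgebraic_of_adjoin_eq_top (H.fieldOut S)
      {y | ∃ g t, y = H.ratio (fun _ => 0) g t} ?_ ?_
    · rw [eq_top_iff]
      intro y _
      obtain ⟨u, hu, v, hv, -, rfl⟩ := H.frac (fun _ => 0) y
      have h2 : ∀ w ∈ chart (segre H.x) (fun _ => 0),
          w ∈ IntermediateField.adjoin ℂ {y | ∃ g t, y = H.ratio (fun _ => 0) g t} := by
        intro w hw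
        rw [H.chart_eq] at hw
        refine IntermediateField.algebra_adjoin_le_adjoin _ _ (Algebra.adjoin_mono ?_ hw)
        rintro y ⟨v, rfl⟩
        exact ⟨v.1, v.2, rfl⟩
      exact div_mem (h2 u hu) (h2 v hv)
    · rintro y ⟨g, t, rfl⟩
      by_cases hg : g ∈ S
      · obtain rfl : g = Sum.inr f := by simpa [hS] using hg
        exact H.isAlgebraic_of_neg S a ha (fun g hg => by
          obtain rfl : g = Sum.inr f := by simpa [hS] using hg
          exact hneg.le) _ hg hneg t
      · exact isAlgebraic_algebraMap (⟨_, H.ratio_mem_fieldOut S g hg t⟩ : H.fieldOut S)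
  have h2 := H.trdeg_le_of_isAlgebraic S h1
  have h3 := H.dim
  have h4 : ∑ g ∈ Finset.univ \ S, dims J n m g + m f = Fintype.card J * n + ∑ f, m f := by
    have h5 : ∑ g ∈ Finset.univ \ S, dims J n m g + ∑ g ∈ S, dims J n m g =
        ∑ g, dims J n m g := Finset.sum_sdiff (Finset.subset_univ S)
    rw [Fintype.sum_sum_type] at h5
    simpa [hS] using h5
  have h5 : (Fintype.card J * n + ∑ f, m f : ℕ) ≤
      (∑ g ∈ Finset.univ \ S, dims J n m g : ℕ) + (n + 1) := by
    have : ((Fintype.card J * n + ∑ f, m f : ℕ) : Cardinal) ≤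
        ((∑ g ∈ Finset.univ \ S, dims J n m g : ℕ) : Cardinal) + ((n + 1 : ℕ) : Cardinal) := by
      rw [← h3]
      gcongr
    exact_mod_cast this
  omega

end TensorVariety

end Pool.Agent.LibGMMT
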