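import Pool.Agent.LibGMMT.FO1
import Pool.Agent.LibGMMT.FO2
import Pool.Agent.LibGMMT.FO3
import Pool.Agent.LibGMMT.FO4
import Pool.Agent.LibGMMT.FO5
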