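import Pool.Agent.LibGMMT.PDefs
import Pool.Agent.LibGMMT.DM2
import Pool.Agent.LibGMMT.FO1

/-! TASK PL1: the determinant in the plane does not vanish. -/

open Pool.Agent.LibGMM

namespace Pool.Agent.LibGMMT

variable {K : Type} [Field K] [Algebra ℂ K]
variable {J F : Type} [Fintype J] [DecidableEq J] [Fintype F] [DecidableEq F] {n : ℕ} {m : F → ℕ}
variable {T : Tensor J n m}

namespace TensorVariety

variable (H : TensorVariety K T)

/-- The coordinates (with nonzero index, outside the `i`-th factor) are independent. -/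
private theorem PL1_indep (i j : J)
    (u v : Fin (n + 1)) (huv : u ≠ v)
    (hind : AlgebraicIndependent ℂ (fun w : {w : Σ g : J ⊕ F, Fin (dims J n m g + 1) //
      w.1 ≠ Sum.inl i ∧ w.2 ≠ 0 ∧ w ≠ ⟨Sum.inl j, v⟩} => H.ratio (fun _ => 0) w.1.1 w.1.2)) :
    AlgebraicIndependent ℂ (fun w : {w : Σ g : J ⊕ F, Fin (dims J n m g + 1) //
      w.1 ≠ Sum.inl i ∧ w.2 ≠ 0} => H.pk i j u v w.1.1 w.1.2) := by
  classical
  let κ : Type := {w : Σ g : J ⊕ F, Fin (dims J n m g + 1) //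
    w.1 ≠ Sum.inl i ∧ w.2 ≠ 0 ∧ w ≠ ⟨Sum.inl j, u⟩ ∧ w ≠ ⟨Sum.inl j, v⟩}
  let xx : κ → H.kf i j u v := fun w =>
    ⟨H.ratio (fun _ => 0) w.1.1 w.1.2, H.mem_kf i j u v w.1 w.2.1 w.2.2.2.1 w.2.2.2.2⟩
  have hx : AlgebraicIndependent ℂ xx := by
    have hx1 : AlgebraicIndependent ℂ (fun w : κ => H.ratio (fun _ => 0) w.1.1 w.1.2) :=
      hind.comp (fun w : κ => ⟨w.1, w.2.1, w.2.2.1, w.2.2.2.2⟩) (fun a b hab =>
        Subtype.ext (congrArg (fun z => z.1) hab))
    exact AlgebraicIndependent.of_comp (H.kf i j u v).val hx1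
  have hy : AlgebraicIndependent (H.kf i j u v)
      (MvPolynomial.X : Fin 2 → MvPolynomial (Fin 2) (H.kf i j u v)) :=
    MvPolynomial.algebraicIndependent_X _ _
  have hz := AlgebraicIndependent.sumElim_comp hx hy
  let f : {w : Σ g : J ⊕ F, Fin (dims J n m g + 1) // w.1 ≠ Sum.inl i ∧ w.2 ≠ 0} → Fin 2 ⊕ κ :=
    fun w => if h : w.1 = ⟨Sum.inl j, u⟩ then Sum.inl 0 else
      if h' : w.1 = ⟨Sum.inl j, v⟩ then Sum.inl 1 else Sum.inr ⟨w.1, w.2.1, w.2.2, h, h'⟩
  have hf : Function.Injective f := by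
    intro a b hab
    have hne : (⟨Sum.inl j, u⟩ : Σ g : J ⊕ F, Fin (dims J n m g + 1)) ≠ ⟨Sum.inl j, v⟩ := by
      intro h
      apply huv
      simpa using h
    simp only [f] at hab
    apply Subtype.ext
    split_ifs at hab
    all_goals first
      | exact Subtype.mk.inj (Sum.inr.inj hab)
      | exact congrArg (fun z : κ => z.1) (Sum.inr.inj hab)
      | (simp at hab; done)
      | simp_all
  have h9 := hz.comp f hf
  have h10 : (fun w : {w : Σ g : J ⊕ F, Fin (dims J n m g + 1) //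
      w.1 ≠ Sum.inl i ∧ w.2 ≠ 0} => H.pk i j u v w.1.1 w.1.2) =
      (Sum.elim MvPolynomial.X (algebraMap (H.kf i j u v)
        (MvPolynomial (Fin 2) (H.kf i j u v)) ∘ xx)) ∘ f := by
    funext w
    simp only [pk, f, Function.comp]
    rw [dif_neg w.2.1]
    by_cases h1 : w.1 = ⟨Sum.inl j, u⟩
    · rw [dif_pos h1, dif_pos h1]
      rfl
    · rw [dif_neg h1, dif_neg h1]
      by_cases h2 : w.1 = ⟨Sum.inl j, v⟩
      · rw [dif_pos h2, dif_pos h2]
        rfl
      · rw [dif_neg h2, dif_neg h2]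
        rfl
  rw [h10]
  exact h9

theorem det_pk_ne (e : F → ℕ) (hT : ∀ s, MultiHom (T s) e) (i j : J) (hij : i ≠ j)
    (u v : Fin (n + 1)) (huv : u ≠ v) (hu : u ≠ 0) (hv : v ≠ 0)
    (hind : AlgebraicIndependent ℂ (fun w : {w : Σ g : J ⊕ F, Fin (dims J n m g + 1) //
      w.1 ≠ Sum.inl i ∧ w.2 ≠ 0 ∧ w ≠ ⟨Sum.inl j, v⟩} => H.ratio (fun _ => 0) w.1.1 w.1.2)) :
    (mat T (H.pk i j u v) i).det ≠ 0 := by
  classical
  let I : Type := {w : Σ g : J ⊕ F, Fin (dims J n m g + 1) // w.1 ≠ Sum.inl i ∧ w.2 ≠ 0}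
  let gen' : (g : J ⊕ F) → Fin (dims J n m g + 1) → MvPolynomial I ℂ := fun g t =>
    if h : g ≠ Sum.inl i ∧ t ≠ 0 then MvPolynomial.X ⟨⟨g, t⟩, h⟩ else 1
  let ρ : MvPolynomial I ℂ →ₐ[ℂ] MvPolynomial (Σ g : J ⊕ F, Fin (dims J n m g + 1)) ℂ :=
    MvPolynomial.rename Subtype.val
  have hg0 : ∀ g, gen' g 0 = 1 := fun g => dif_neg (fun h => h.2 rfl)
  have hgt : ∀ g t (hg : g ≠ Sum.inl i) (ht : t ≠ 0),
      gen' g t = MvPolynomial.X ⟨⟨g, t⟩, hg, ht⟩ := fun g t hg ht => dif_pos ⟨hg, ht⟩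
  have h1 : (mat T gen' i).map ρ = mat T (gen J n m) i := by
    rw [mat_map]
    apply mat_congr
    intro g hg
    funext t
    change ρ (gen' g t) = gen J n m g t
    by_cases ht : t = 0
    · subst ht
      rw [hg0, map_one]
      exact (if_pos rfl).symm
    · rw [hgt g t hg ht]
      change MvPolynomial.rename Subtype.val (MvPolynomial.X _) = _
      rw [MvPolynomial.rename_X]
      exact (if_neg ht).symm
  have h2 : (mat T gen' i).det ≠ 0 := by
    intro h0
    apply H.dom2 e hT i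
    have h3 := AlgHom.map_det ρ (mat T gen' i)
    rw [h0, map_zero] at h3
    rw [← h1]
    exact h3.symm
  have h3 : AlgebraicIndependent ℂ (fun w : I => H.pk i j u v w.1.1 w.1.2) :=
    PL1_indep H i j u v huv hind
  let Φ' : MvPolynomial I ℂ →ₐ[ℂ] MvPolynomial (Fin 2) (H.kf i j u v) :=
    MvPolynomial.aeval (fun w : I => H.pk i j u v w.1.1 w.1.2)
  have h4 : (mat T gen' i).map Φ' = mat T (H.pk i j u v) i := by
    rw [mat_map]
    apply mat_congr
    intro g hg
    funext t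
    change Φ' (gen' g t) = H.pk i j u v g t
    by_cases ht : t = 0
    · subst ht
      rw [hg0, map_one]
      have hne : ∀ w : Fin (n + 1), w ≠ 0 →
          ¬ ((⟨g, 0⟩ : Σ g : J ⊕ F, Fin (dims J n m g + 1)) = ⟨Sum.inl j, w⟩) := by
        intro w hw h
        apply hw
        obtain ⟨h5, h6⟩ := Sigma.mk.inj h
        subst h5
        exact (eq_of_heq h6).symm
      unfold pk
      rw [dif_neg hg, dif_neg (hne u hu), dif_neg (hne v hv)]
      rw [← map_one MvPolynomial.C]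
      congr 1
      apply Subtype.ext
      change (1 : K) = H.ratio (fun _ => 0) g 0
      unfold Multi.ratio
      exact (div_self (Units.ne_zero _)).symm
    · rw [hgt g t hg ht]
      change MvPolynomial.aeval _ (MvPolynomial.X _) = _
      rw [MvPolynomial.aeval_X]
  intro h0
  apply h2
  have h5 := AlgHom.map_det Φ' (mat T gen' i)
  have h6 : (Φ'.mapMatrix (mat T gen' i)).det = 0 := by
    rw [← h0, ← h4]
    rfl
  rw [h6] at h5
  exact h3 (by rw [map_zero]; exact h5)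

end TensorVariety

end Pool.Agent.LibGMMT
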