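import Pool.Agent.LibGMMT.PDefs
import Pool.Agent.LibGMMT.FO1

/-! TASK PL2: specialisation to the generic point. -/

open Pool.Agent.LibGMM

namespace Pool.Agent.LibGMMT

variable {K : Type} [Field K] [Algebra ℂ K]
variable {J F : Type} [Fintype J] [DecidableEq J] [Fintype F] [DecidableEq F] {n : ℕ} {m : F → ℕ}
variable {T : Tensor J n m}

namespace TensorVariety

variable (H : TensorVariety K T)

theorem map_pk (i j : J) (hij : i ≠ j) (u v : Fin (n + 1)) (huv : u ≠ v) :
    (mat T (H.pk i j u v) i).map (MvPolynomial.aeval (R := H.kf i j u v)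
      ![H.ratio (fun _ => 0) (Sum.inl j) u, H.ratio (fun _ => 0) (Sum.inl j) v]) =
        mat T (H.ratio fun _ => 0) i := by
  have h := mat_map T ((MvPolynomial.aeval (R := H.kf i j u v)
      ![H.ratio (fun _ => 0) (Sum.inl j) u, H.ratio (fun _ => 0) (Sum.inl j) v]).restrictScalars ℂ)
      (H.pk i j u v) i
  have h2 : (mat T (H.pk i j u v) i).map (MvPolynomial.aeval (R := H.kf i j u v)
      ![H.ratio (fun _ => 0) (Sum.inl j) u, H.ratio (fun _ => 0) (Sum.inl j) v]) =
      (mat T (H.pk i j u v) i).map ((MvPolynomial.aeval (R := H.kf i j u v)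
      ![H.ratio (fun _ => 0) (Sum.inl j) u, H.ratio (fun _ => 0) (Sum.inl j) v]).restrictScalars ℂ) :=
    rfl
  rw [h2, h]
  apply mat_congr
  intro g hg
  funext t
  have h5 : ∀ (g : J ⊕ F) (t : Fin (dims J n m g + 1)) (w : Fin (n + 1)),
      (⟨g, t⟩ : Σ g : J ⊕ F, Fin (dims J n m g + 1)) = ⟨Sum.inl j, w⟩ →
      H.ratio (fun _ => 0) (Sum.inl j) w = H.ratio (fun _ => 0) g t := by
    intro g t w hw
    exact (congrArg (fun z : Σ g : J ⊕ F, Fin (dims J n m g + 1) =>
      H.ratio (fun _ => 0) z.1 z.2) hw).symm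
  change (MvPolynomial.aeval (R := H.kf i j u v)
      ![H.ratio (fun _ => 0) (Sum.inl j) u, H.ratio (fun _ => 0) (Sum.inl j) v])
      (H.pk i j u v g t) = H.ratio (fun _ => 0) g t
  unfold pk
  rw [dif_neg hg]
  split_ifs with h3 h4
  · rw [MvPolynomial.aeval_X]
    exact h5 g t u h3
  · rw [MvPolynomial.aeval_X]
    exact h5 g t v h4
  · rw [MvPolynomial.aeval_C]
    rfl

end TensorVariety

end Pool.Agent.LibGMMT
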