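import Pool.Agent.LibGMMT.PDefs
import Pool.Agent.LibGMMT.Gen

/-! TASK PL3: dimension count. -/

open Pool.Agent.LibGMM

namespace Pool.Agent.LibGMMT

variable {K : Type} [Field K] [Algebra ℂ K]
variable {J F : Type} [Fintype J] [DecidableEq J] [Fintype F] [DecidableEq F] {n : ℕ} {m : F → ℕ}
variable {T : Tensor J n m}

/-- number of the coordinates of the factors other than the `i`-th, without the ones of index `0` -/
private theorem PL3_card (i j : J) (hij : i ≠ j) (u v : Fin (n + 1)) (huv : u ≠ v)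
    (hu : u ≠ 0) (hv : v ≠ 0) :
    Fintype.card {w : Σ g : J ⊕ F, Fin (dims J n m g + 1) // w.1 ≠ Sum.inl i ∧ w.2 ≠ 0 ∧
      w ≠ ⟨Sum.inl j, u⟩ ∧ w ≠ ⟨Sum.inl j, v⟩} + n + 2 = Fintype.card J * n + ∑ f, m f := by
  classical
  have hU : ((Finset.univ : Finset (J ⊕ F)).sigma fun g =>
      (Finset.univ : Finset (Fin (dims J n m g + 1))).erase 0).card =
      Fintype.card J * n + ∑ f, m f := by
    rw [Finset.card_sigma]
    simp only [Finset.card_erase_of_mem (Finset.mem_univ _), Finset.card_univ, Fintype.card_fin,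
      Nat.add_sub_cancel]
    rw [Fintype.sum_sum_type]
    simp [dims]
  have hi : ((Finset.univ : Finset (Fin (n + 1))).erase 0).card = n := by
    rw [Finset.card_erase_of_mem (Finset.mem_univ _), Finset.card_univ, Fintype.card_fin,
      Nat.add_sub_cancel]
  set A : Finset (Σ g : J ⊕ F, Fin (dims J n m g + 1)) := (Finset.univ : Finset (J ⊕ F)).sigma
    fun g => (Finset.univ : Finset (Fin (dims J n m g + 1))).erase 0 with hA
  have hAmem : ∀ w, w ∈ A ↔ w.2 ≠ 0 := by
    intro w
    simp [hA]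
  set B : Finset (Σ g : J ⊕ F, Fin (dims J n m g + 1)) :=
    ((Finset.univ : Finset (Fin (n + 1))).erase 0).image fun t => ⟨Sum.inl i, t⟩ with hB
  have hBc : B.card = n := by
    rw [hB, Finset.card_image_of_injective]
    · exact hi
    · intro a b hab
      simpa using hab
  have hBA : B ⊆ A := by
    intro w hw
    rw [hB, Finset.mem_image] at hw
    obtain ⟨t, ht, rfl⟩ := hw
    rw [hAmem]
    exact Finset.ne_of_mem_erase ht
  set C : Finset (Σ g : J ⊕ F, Fin (dims J n m g + 1)) := {⟨Sum.inl j, u⟩, ⟨Sum.inl j, v⟩} with hC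
  have hCc : C.card = 2 := by
    rw [hC, Finset.card_pair]
    intro h
    apply huv
    simpa using h
  have hCA : C ⊆ A \ B := by
    intro w hw
    rw [Finset.mem_sdiff, hAmem]
    have hnB : ∀ t : Fin (n + 1), (⟨Sum.inl j, t⟩ : Σ g : J ⊕ F, Fin (dims J n m g + 1)) ∉ B := by
      intro t ht
      rw [hB, Finset.mem_image] at ht
      obtain ⟨t', _, ht'⟩ := ht
      have h1 := congrArg Sigma.fst ht'
      exact hij (Sum.inl_injective h1)
    rw [hC, Finset.mem_insert, Finset.mem_singleton] at hw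
    rcases hw with rfl | rfl
    · exact ⟨hu, hnB u⟩
    · exact ⟨hv, hnB v⟩
  have h1 : Fintype.card {w : Σ g : J ⊕ F, Fin (dims J n m g + 1) // w.1 ≠ Sum.inl i ∧ w.2 ≠ 0 ∧
      w ≠ ⟨Sum.inl j, u⟩ ∧ w ≠ ⟨Sum.inl j, v⟩} = ((A \ B) \ C).card := by
    rw [Fintype.card_subtype]
    congr 1
    ext w
    rw [Finset.mem_filter, Finset.mem_sdiff, Finset.mem_sdiff, hAmem, hC, Finset.mem_insert,
      Finset.mem_singleton, hB, Finset.mem_image]
    constructor
    · rintro ⟨_, h1, h2, h3, h4⟩
      refine ⟨⟨h2, ?_⟩, ?_⟩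
      · rintro ⟨t, _, rfl⟩
        exact h1 rfl
      · rintro (h | h)
        · exact h3 h
        · exact h4 h
    · rintro ⟨⟨h2, h1⟩, h3⟩
      refine ⟨Finset.mem_univ _, ?_, h2, fun h => h3 (Or.inl h), fun h => h3 (Or.inr h)⟩
      intro hw
      apply h1
      obtain ⟨g, t⟩ := w
      simp only at hw
      subst hw
      exact ⟨t, Finset.mem_erase.2 ⟨h2, Finset.mem_univ _⟩, rfl⟩
  have h2 := Finset.card_sdiff_add_card_eq_card hCA
  have h3 := Finset.card_sdiff_add_card_eq_card hBA
  rw [h1]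
  omega

namespace TensorVariety

variable (H : TensorVariety K T)

theorem exists_transcendental (e : F → ℕ) (hT : ∀ s, MultiHom (T s) e) (hS : H.Small)
    (hK : ¬ Algebra.IsAlgebraic ℂ K) (i j : J) (hij : i ≠ j) (u v : Fin (n + 1)) (huv : u ≠ v)
    (hu : u ≠ 0) (hv : v ≠ 0) :
    ∃ s : Fin (n + 1), Transcendental (H.kf i j u v) (H.ratio (fun _ => 0) (Sum.inl i) s) := by
  classical
  by_contra hcon
  push Not at hcon
  have halg : ∀ s, IsAlgebraic (H.kf i j u v) (H.ratio (fun _ => 0) (Sum.inl i) s) := by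
    intro s
    by_contra h
    exact hcon s h
  -- `K` is algebraic over `kf`
  have hK' : ∀ x : K, IsAlgebraic (H.kf i j u v) x := by
    have h1 := H.adjoin_eq_top e hT hS hK j (fun _ => 0)
    have h2 : IntermediateField.adjoin ℂ {y | ∃ g, g ≠ Sum.inl j ∧ ∃ t, y = H.ratio (fun _ => 0) g t}
        ≤ (algebraicClosure (H.kf i j u v) K).restrictScalars ℂ := by
      rw [IntermediateField.adjoin_le_iff]
      rintro y ⟨g, hg, t, rfl⟩
      change H.ratio (fun _ => 0) g t ∈ algebraicClosure (H.kf i j u v) K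
      rw [mem_algebraicClosure_iff]
      by_cases hgi : g = Sum.inl i
      · subst hgi
        exact halg t
      · have h3 : H.ratio (fun _ => 0) g t ∈ H.kf i j u v := by
          refine H.mem_kf i j u v ⟨g, t⟩ hgi ?_ ?_
          · intro h
            exact hg (congrArg Sigma.fst h)
          · intro h
            exact hg (congrArg Sigma.fst h)
        exact isAlgebraic_algebraMap (⟨_, h3⟩ : H.kf i j u v)
    intro x
    have h3 : x ∈ (algebraicClosure (H.kf i j u v) K).restrictScalars ℂ := by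
      apply h2
      rw [h1]
      trivial
    exact mem_algebraicClosure_iff.1 h3
  -- generators of `kf`
  let W := {w : Σ g : J ⊕ F, Fin (dims J n m g + 1) // w.1 ≠ Sum.inl i ∧ w.2 ≠ 0 ∧
      w ≠ ⟨Sum.inl j, u⟩ ∧ w ≠ ⟨Sum.inl j, v⟩}
  let S : Set K := Set.range fun w : W => H.ratio (fun _ => 0) w.1.1 w.1.2
  have hkf : H.kf i j u v = IntermediateField.adjoin ℂ S := by
    apply le_antisymm
    · unfold kf
      rw [IntermediateField.adjoin_le_iff]
      rintro y ⟨w, hw1, hw2, hw3, rfl⟩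
      by_cases h0 : w.2 = 0
      · have h1 : H.ratio (fun _ => 0) w.1 w.2 = 1 := by
          unfold Multi.ratio
          rw [h0]
          exact div_self (Units.ne_zero _)
        rw [h1]
        exact one_mem _
      · exact IntermediateField.subset_adjoin _ _ ⟨⟨w, hw1, h0, hw2, hw3⟩, rfl⟩
    · rw [IntermediateField.adjoin_le_iff]
      rintro y ⟨w, rfl⟩
      exact H.mem_kf i j u v w.1 w.2.1 w.2.2.2.1 w.2.2.2.2
  have h1 : Algebra.IsAlgebraic (IntermediateField.adjoin ℂ S) K := by
    rw [← hkf]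
    exact ⟨hK'⟩
  have h2 : Algebra.IsAlgebraic (Algebra.adjoin ℂ S) K :=
    IntermediateField.isAlgebraic_adjoin_iff_top.1 h1
  have h3 : Algebra.trdeg ℂ K ≤ Cardinal.mk S := Algebra.IsAlgebraic.trdeg_le_cardinalMk ℂ S
  have h4 : Cardinal.mk S ≤ Fintype.card W := by
    rw [← Cardinal.mk_fintype]
    exact Cardinal.mk_range_le
  have h5 := H.dim
  have h6 : (Fintype.card W : ℕ) + n + 2 = Fintype.card J * n + ∑ f, m f :=
    PL3_card i j hij u v huv hu hv
  have h7 : Algebra.trdeg ℂ K < Cardinal.aleph0 :=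
    (h3.trans h4).trans_lt (Cardinal.natCast_lt_aleph0)
  obtain ⟨N, hN⟩ := Cardinal.lt_aleph0.1 h7
  rw [hN] at h3 h5
  have h8 : N ≤ Fintype.card W := by
    have := h3.trans h4
    exact_mod_cast this
  have h9 : N + (n + 1) = Fintype.card J * n + ∑ f, m f := by
    exact_mod_cast h5
  omega

end TensorVariety

end Pool.Agent.LibGMMT
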