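import Pool.Agent.LibGMMT.Choice
import Pool.Agent.LibGMMT.PL1
import Pool.Agent.LibGMMT.PL2
import Pool.Agent.LibGMMT.PL3
import Pool.Agent.LibGMMT.FO5
import Pool.Agent.LibGMMT.Core
import Pool.Agent.LibGMMT.Ratio

/-! TASK KEY: the main inequality for effective classes. -/

open Pool.Agent.LibGMM

namespace Pool.Agent.LibGMMT

variable {K : Type} [Field K] [Algebra ℂ K]
variable {J F : Type} [Fintype J] [DecidableEq J] [Fintype F] [DecidableEq F] {n : ℕ} {m : F → ℕ}
variable {T : Tensor J n m}

namespace TensorVariety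

private theorem Key_pk_degree (H : TensorVariety K T) (i j : J) (u v : Fin (n + 1))
    (t : Fin (n + 1)) : (H.pk i j u v (Sum.inl j) t).totalDegree ≤ 1 := by
  unfold pk
  split_ifs
  · rw [MvPolynomial.totalDegree_one]
    exact zero_le_one
  · exact (MvPolynomial.totalDegree_X _).le
  · exact (MvPolynomial.totalDegree_X _).le
  · rw [MvPolynomial.totalDegree_C]
    exact zero_le_one

private theorem Key_pk_const (H : TensorVariety K T) (i j : J) (u v : Fin (n + 1))
    (g : J ⊕ F) (_ : g ≠ Sum.inl i) (hj : g ≠ Sum.inl j) (t : Fin (dims J n m g + 1)) :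
    ∃ c, H.pk i j u v g t = MvPolynomial.C c := by
  unfold pk
  split_ifs with h1 h2 h3
  · exact ⟨1, by rw [map_one]⟩
  · exact absurd (congrArg Sigma.fst h2) hj
  · exact absurd (congrArg Sigma.fst h3) hj
  · exact ⟨_, rfl⟩

theorem key_ineq (H : TensorVariety K T) (e : F → ℕ) (hT : ∀ s, MultiHom (T s) e) (hn : 3 ≤ n)
    (hS : H.Small) (hK : ¬ Algebra.IsAlgebraic ℂ K) (i j : J) (hij : i ≠ j) (a : J ⊕ F → ℤ)
    (ha : a ∈ H.EffZ) (hneg : a (Sum.inl i) < 0) :
    - a (Sum.inl i) ≤ (n - 1) * a (Sum.inl j) := by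
  obtain ⟨g, hg⟩ := ha
  obtain ⟨v, hv0, hind⟩ := H.choice e hT (by omega) hS hK i j hij
  obtain ⟨u, hu0, huv⟩ : ∃ u : Fin (n + 1), u ≠ 0 ∧ u ≠ v := by
    by_cases h : v = ⟨1, by omega⟩
    · refine ⟨⟨2, by omega⟩, ?_, ?_⟩
      · intro h1
        rw [Fin.ext_iff] at h1
        simp at h1
      · rw [h]
        intro h1
        rw [Fin.ext_iff] at h1
        simp at h1
    · refine ⟨⟨1, by omega⟩, ?_, Ne.symm h⟩
      intro h1
      rw [Fin.ext_iff] at h1
      simp at h1
  obtain ⟨b, hb⟩ : ∃ b : ℕ, - a (Sum.inl i) = b := ⟨(- a (Sum.inl i)).toNat, by omega⟩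
  have hij' : (Sum.inl i : J ⊕ F) ≠ Sum.inl j := fun h => hij (Sum.inl_injective h)
  set z : K := (g : K) * ∏ j, (H.x j 0 : K) ^ (- a j) with hz
  have hz0 : z ≠ 0 := mul_ne_zero g.ne_zero (Finset.prod_ne_zero_iff.mpr fun j _ =>
    zpow_ne_zero _ (H.x j _).ne_zero)
  rw [hb]
  refine core (k := H.kf i j u v) (K := K) hn (mat T (H.pk i j u v) i)
    (mat_totalDegree T _ i j hij (Key_pk_degree H i j u v) (Key_pk_const H i j u v))
    (H.det_pk_ne e hT i j hij u v huv hu0 hv0 hind)
    (fun t => H.ratio (fun _ => 0) (Sum.inl j) t) (fun t => H.ratio (fun _ => 0) (Sum.inl i) t)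
    (fun t => div_ne_zero (Units.ne_zero _) (Units.ne_zero _))
    (fun t => div_ne_zero (Units.ne_zero _) (Units.ne_zero _))
    (div_self (Units.ne_zero _)) (div_self (Units.ne_zero _)) u v ?_ ?_ ?_
    (H.exists_transcendental e hT hS hK i j hij u v huv hu0 hv0) z hz0 b (by omega)
    (a (Sum.inl j)) ?_
  · intro t
    by_cases htu : t = u
    · rw [htu]
      exact Submodule.subset_span (by simp)
    · by_cases htv : t = v
      · rw [htv]
        exact Submodule.subset_span (by simp)
      · have hmem := H.mem_kf i j u v ⟨Sum.inl j, t⟩ hij'.symm (by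
          intro h
          exact htu (by simpa using h)) (by
          intro h
          exact htv (by simpa using h))
        have h1 : H.ratio (fun _ => 0) (Sum.inl j) t =
            (⟨_, hmem⟩ : H.kf i j u v) • (1 : K) := by
          rw [Algebra.smul_def, mul_one]
          rfl
        rw [h1]
        exact Submodule.smul_mem _ _ (Submodule.subset_span (by simp))
  · have h1 := H.map_pk i j hij u v huv
    have h2 := mulVec_ratio T e hT H.toMulti H.vanish i (fun _ => 0)
    rw [← h1] at h2
    exact h2
  · have h1 := H.map_pk i j hij u v huv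
    have h2 := H.adj_ne e hT hS hK i (fun _ => 0)
    rw [← h1] at h2
    exact h2
  · intro s t
    let σ : (h : J ⊕ F) → Fin (dims J n m h + 1) :=
      Function.update (Function.update (fun _ => 0) (Sum.inl i) s) (Sum.inl j) t
    have hσj : σ (Sum.inl j) = t := Function.update_self _ _ _
    have hσi : σ (Sum.inl i) = s := by
      simp only [σ]
      rw [Function.update_of_ne hij', Function.update_self]
    have hσ : ∀ h, h ≠ Sum.inl i → h ≠ Sum.inl j → σ h = 0 := by
      intro h h1 h2
      simp only [σ]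
      rw [Function.update_of_ne h2, Function.update_of_ne h1]
    have h1 := H.toMulti.section_mem_chart a g hg σ
    rw [H.toMulti.chart_eq] at h1
    have h2 : (g : K) * ∏ h, (H.x h (σ h) : K) ^ (- a h) =
        z * H.ratio (fun _ => 0) (Sum.inl i) s ^ b *
          H.ratio (fun _ => 0) (Sum.inl j) t ^ (- a (Sum.inl j)) := by
      have h3 : ∏ h, (H.x h (σ h) : K) ^ (- a h) =
          ∏ h, ((H.x h 0 : K) ^ (- a h) *
            ((if h = Sum.inl i then H.ratio (fun _ => 0) (Sum.inl i) s ^ b else 1) *
            (if h = Sum.inl j then H.ratio (fun _ => 0) (Sum.inl j) t ^ (- a (Sum.inl j))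
              else 1))) := by
        refine Finset.prod_congr rfl fun h _ => ?_
        by_cases hi : h = Sum.inl i
        · subst hi
          rw [if_pos rfl, if_neg hij', mul_one, hσi, hb, zpow_natCast, zpow_natCast, ← mul_pow]
          congr 1
          exact (mul_div_cancel₀ _ (Units.ne_zero _)).symm
        · by_cases hj : h = Sum.inl j
          · subst hj
            rw [if_neg hij'.symm, if_pos rfl, one_mul, hσj, ← mul_zpow]
            congr 1
            exact (mul_div_cancel₀ _ (Units.ne_zero _)).symm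
          · rw [if_neg hi, if_neg hj, mul_one, mul_one, hσ h hi hj]
      rw [h3, Finset.prod_mul_distrib, Finset.prod_mul_distrib,
        Finset.prod_ite_eq' Finset.univ (Sum.inl i), Finset.prod_ite_eq' Finset.univ (Sum.inl j)]
      simp only [Finset.mem_univ, if_true]
      rw [hz]
      ring
    rw [h2] at h1
    have h4 : Algebra.adjoin ℂ (Set.range fun v : Σ g, Fin (dims J n m g + 1) =>
        H.ratio σ v.1 v.2) ≤ (Algebra.adjoin (H.kf i j u v)
          ((Set.range fun t' => H.ratio (fun _ => 0) (Sum.inl j) t' /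
              H.ratio (fun _ => 0) (Sum.inl j) t) ∪
            Set.range fun s' => H.ratio (fun _ => 0) (Sum.inl i) s' /
              H.ratio (fun _ => 0) (Sum.inl i) s)).restrictScalars ℂ := by
      rw [Algebra.adjoin_le_iff]
      rintro _ ⟨⟨h, q⟩, rfl⟩
      change H.ratio σ h q ∈ Algebra.adjoin (H.kf i j u v) _
      by_cases hi : h = Sum.inl i
      · subst hi
        refine Algebra.subset_adjoin (Or.inr ⟨q, ?_⟩)
        show H.ratio (fun _ => 0) (Sum.inl i) q / H.ratio (fun _ => 0) (Sum.inl i) s = _
        unfold Multi.ratio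
        rw [hσi, div_div_div_cancel_right₀ (Units.ne_zero _)]
      · by_cases hj : h = Sum.inl j
        · subst hj
          refine Algebra.subset_adjoin (Or.inl ⟨q, ?_⟩)
          show H.ratio (fun _ => 0) (Sum.inl j) q / H.ratio (fun _ => 0) (Sum.inl j) t = _
          unfold Multi.ratio
          rw [hσj, div_div_div_cancel_right₀ (Units.ne_zero _)]
        · have hmem := H.mem_kf i j u v ⟨h, q⟩ hi (fun hc => hj (congrArg Sigma.fst hc))
            (fun hc => hj (congrArg Sigma.fst hc))
          have h5 : H.ratio σ h q = algebraMap (H.kf i j u v) K ⟨_, hmem⟩ := by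
            show H.ratio σ h q = H.ratio (fun _ => 0) h q
            unfold Multi.ratio
            rw [hσ h hi hj]
          rw [h5]
          exact Subalgebra.algebraMap_mem _ _
    exact h4 h1

end TensorVariety

end Pool.Agent.LibGMMT
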