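import Pool.Agent.LibGMMT.Mx

/-! Sections which are nonpositive on the factors `S`: the coordinates of a negative factor are
algebraic over the field generated by the coordinates of the factors outside `S`. -/

open Pool.Agent.LibGMM

namespace Pool.Agent.LibGMMT

variable {K : Type} [Field K] [Algebra ℂ K] {G : Type} [Fintype G] {m : G → ℕ}

namespace Multi

variable (H : Multi K m)

/-- The field generated by the coordinates of the factors outside `S`. -/
noncomputable def fieldOut (S : Finset G) : IntermediateField ℂ K :=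
  IntermediateField.adjoin ℂ {y | ∃ g, g ∉ S ∧ ∃ t, y = H.ratio (fun _ => 0) g t}

theorem ratio_mem_fieldOut (S : Finset G) (g : G) (hg : g ∉ S) (t : Fin (m g + 1)) :
    H.ratio (fun _ => 0) g t ∈ H.fieldOut S :=
  IntermediateField.subset_adjoin _ _ ⟨g, hg, t, rfl⟩

private theorem algebraic_of_forall (k : IntermediateField ℂ K) (w : K)
    (hw : ∀ V : ValuationSubring K, (∀ c ∈ k, c ∈ V) → w ∈ V) : IsAlgebraic k w := by
  have h1 : w ∈ (⨅ V : {V : ValuationSubring K // (k : Set K) ⊆ V.toSubring}, V.1.toSubring) := by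
    rw [Subring.mem_iInf]
    rintro ⟨V, hV⟩
    exact hw V fun c hc => hV hc
  rw [iInf_valuationSubring_superset] at h1
  obtain ⟨p, hp, hpe⟩ : IsIntegral (Subring.closure (k : Set K)) w := h1
  have hle : Subring.closure (k : Set K) ≤ k.toSubring := by
    rw [Subring.closure_le]
    exact fun _ h => h
  let f : Subring.closure (k : Set K) →+* k := Subring.inclusion hle
  have h2 : IsIntegral k w := by
    refine ⟨p.map f, hp.map f, ?_⟩
    rw [Polynomial.eval₂_map]
    exact hpe
  exact h2.isAlgebraic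

theorem isAlgebraic_of_neg [DecidableEq G] (S : Finset G) (a : G → ℤ) (ha : a ∈ H.EffZ)
    (hS : ∀ g ∈ S, a g ≤ 0) (l : G) (hl : l ∈ S) (hneg : a l < 0) (q : Fin (m l + 1)) :
    IsAlgebraic (H.fieldOut S) (H.ratio (fun _ => 0) l q) := by
  classical
  obtain ⟨g, hg⟩ := ha
  set z : K := (g : K) * ∏ j, (H.x j 0 : K) ^ (- a j) with hz
  have hz0 : z ≠ 0 := mul_ne_zero g.ne_zero (Finset.prod_ne_zero_iff.mpr fun j _ =>
    zpow_ne_zero _ (H.x j _).ne_zero)
  obtain ⟨p, hp⟩ : ∃ p : ℕ, - a l = p := ⟨(- a l).toNat, by omega⟩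
  have hp0 : 0 < p := by omega
  have key : ∀ q : Fin (m l + 1), ∀ V : ValuationSubring K, (∀ c ∈ H.fieldOut S, c ∈ V) →
      z * (H.ratio (fun _ => 0) l q) ^ p ∈ V := by
    intro q V hV
    have hVC : ∀ c : ℂ, algebraMap ℂ K c ∈ V := fun c => hV _ ((H.fieldOut S).algebraMap_mem c)
    have hmax : ∀ j : G, ∃ sj : Fin (m j + 1), ∀ q, (H.x j q : K) / H.x j sj ∈ V := by
      intro j
      have : Nonempty (Fin (m j + 1)) := ⟨0⟩
      obtain ⟨sl, hsl⟩ := Finite.exists_max (fun q : Fin (m j + 1) => V.valuation (H.x j q : K))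
      refine ⟨sl, fun q => ?_⟩
      rw [← ValuationSubring.valuation_le_one_iff, map_div₀]
      exact div_le_one_of_le₀ (hsl q) zero_le
    choose sm hsm using hmax
    let s1 : (j : G) → Fin (m j + 1) := fun j => if j ∈ S then sm j else 0
    have hs1S : ∀ j ∈ S, s1 j = sm j := fun j hj => if_pos hj
    have hs1 : ∀ j, j ∉ S → s1 j = 0 := fun j hj => if_neg hj
    have h6 := H.section_mem a g hg V hVC s1 (by
      intro j q₁
      by_cases h2 : j ∈ S
      · rw [hs1S j h2]; exact hsm j q₁
      · rw [hs1 j h2]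
        exact hV _ (H.ratio_mem_fieldOut S j h2 q₁))
    -- the correction factor
    have hfac : ∀ j, ∃ c : K, c ∈ V ∧ (H.x j (s1 j) : K) ^ (- a j) * c =
        (H.x j 0 : K) ^ (- a j) * (if j = l then (H.ratio (fun _ => 0) l q) ^ p else 1) := by
      intro j
      by_cases hj : j ∈ S
      · obtain ⟨b, hb⟩ : ∃ b : ℕ, - a j = b := ⟨(- a j).toNat, by have := hS j hj; omega⟩
        by_cases hjl : j = l
        · subst hjl
          refine ⟨((H.x j q : K) / H.x j (sm j)) ^ p, V.toSubring.pow_mem (hsm j q) p, ?_⟩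
          rw [if_pos rfl, hs1S j hj, hp, zpow_natCast, zpow_natCast]
          unfold Multi.ratio
          have h1 := (H.x j (sm j)).ne_zero
          have h2 := (H.x j 0).ne_zero
          rw [div_pow, div_pow, mul_div_cancel₀ _ (pow_ne_zero _ h1),
            mul_div_cancel₀ _ (pow_ne_zero _ h2)]
        · refine ⟨((H.x j 0 : K) / H.x j (sm j)) ^ b, V.toSubring.pow_mem (hsm j 0) b, ?_⟩
          rw [if_neg hjl, mul_one, hs1S j hj, hb, zpow_natCast, zpow_natCast, div_pow,
            mul_div_cancel₀ _ (pow_ne_zero _ (H.x j (sm j)).ne_zero)]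
      · refine ⟨1, V.one_mem, ?_⟩
        have hjl : j ≠ l := fun h => hj (h ▸ hl)
        rw [if_neg hjl, hs1 j hj]
    choose c hcV hc using hfac
    have h7 : z * (H.ratio (fun _ => 0) l q) ^ p =
        ((g : K) * ∏ j, (H.x j (s1 j) : K) ^ (- a j)) * ∏ j, c j := by
      have h8 : (∏ j, (H.x j (s1 j) : K) ^ (- a j)) * ∏ j, c j =
          (∏ j, (H.x j 0 : K) ^ (- a j)) * (H.ratio (fun _ => 0) l q) ^ p := by
        rw [← Finset.prod_mul_distrib, Finset.prod_congr rfl fun j _ => hc j,
          Finset.prod_mul_distrib, Finset.prod_ite_eq' Finset.univ l]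
        simp only [Finset.mem_univ, if_true]
      rw [hz, mul_assoc, ← h8, mul_assoc]
    rw [h7]
    exact V.mul_mem _ _ h6 (V.toSubring.prod_mem fun j _ => hcV j)
  have halg : ∀ q, IsAlgebraic (H.fieldOut S) (z * (H.ratio (fun _ => 0) l q) ^ p) := fun q =>
    algebraic_of_forall (H.fieldOut S) _ (key q)
  have halgz : IsAlgebraic (H.fieldOut S) z := by
    have := halg 0
    unfold Multi.ratio at this
    rwa [div_self (H.x l 0).ne_zero, one_pow, mul_one] at this
  apply IsAlgebraic.of_pow hp0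
  have h1 := halgz.inv.mul (halg q)
  rwa [inv_mul_cancel_left₀ hz0] at h1

end Multi

end Pool.Agent.LibGMMT
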