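import Pool.Agent.LibGMMT.WD
import Pool.Agent.LibGMMT.Fn
import Pool.Agent.LibGMM.G8

/-! TASK MN: the good minimal model. -/

open Pool.Agent.LibGMM

namespace Pool.Agent.LibGMMT

variable {K : Type} [Field K] [Algebra ℂ K]
variable {J F : Type} [Fintype J] [DecidableEq J] [Fintype F] [DecidableEq F] {n : ℕ} {m : F → ℕ}

section

variable (T : Tensor J n m) (e : F → ℕ) (hT : ∀ s, MultiHom (T s) e)
  (hK : ¬ Algebra.IsAlgebraic ℂ K)
  (X : ∀ σ : Equiv.Perm (Option J), TensorVariety K (perm T σ)) (hX : ∀ σ, (X σ).Small)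

include hT hK hX

theorem goodMinimalModel (hn : 2 ≤ Fintype.card J → 2 ≤ n) (hn2 : Fintype.card J = 2 → 3 ≤ n)
    (hm : ∀ f, n + 2 ≤ m f)
    (σ : Equiv.Perm (Option J)) (ω : TopForm K) (Δ : DVal K → ℝ) (hΔ : IsKlt (X σ).model ω Δ)
    (hspan : ∃ b : J ⊕ F → ℝ, (X σ).model.RLinEq (lcDiv ω Δ) fun Q =>
      ∑ g, b g * (X σ).hyp g Q)
    (heff : (X σ).model.REffective (lcDiv ω Δ)) :
    ∃ W : NormalModel K, IsGoodMinimalModel (X σ).model ω Δ W := by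
  obtain ⟨b, f, hf⟩ := hspan
  -- the class of `K + Δ` is effective
  have hb : b ∈ (X σ).EffR := by
    obtain ⟨f₁, hf₁⟩ := heff
    refine ⟨f + f₁, fun Q hQ => ?_⟩
    have h1 := hf₁ Q hQ
    have h2 := hf Q hQ
    simp only at h2
    rw [h2] at h1
    rw [ordR_add]
    linarith
  obtain ⟨w, hw, hpos⟩ := exists_word T e hT hK X hX hn hn2 σ (X σ) (hX σ) b hb
  obtain ⟨σ', H', hS', h1, h2⟩ := flop_word T e hT hK X hX σ (X σ) (hX σ) w hw
  set b' := w.foldr (refl (deg n e)) b with hb'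
  -- it is nef on `H'`
  have hb'eff : b' ∈ H'.EffR := by
    obtain ⟨f₂, hf₂⟩ := hb
    refine ⟨f₂, fun Q hQ => ?_⟩
    have h3 := hf₂ Q ((h1 Q).1 hQ)
    rwa [h2 Q ((h1 Q).1 hQ) b] at h3
  have hnn : ∀ g, 0 ≤ b' g := by
    rintro (i | g)
    · exact hpos i
    · obtain ⟨N, c, a, hc, ha, hab⟩ := H'.effR_decomp b' hb'eff
      rw [hab]
      refine Finset.sum_nonneg fun k _ => mul_nonneg (hc k).le ?_
      exact_mod_cast H'.eff_nonneg_inr g (hm g) (a k) (ha k)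
  have hD' : H'.model.RLinEq (lcDiv ω Δ) fun Q => ∑ g, b' g * H'.hyp g Q := by
    refine ⟨f, fun Q hQ => ?_⟩
    have h3 := hf Q ((h1 Q).1 hQ)
    simp only at h3 ⊢
    rw [h3, h2 Q ((h1 Q).1 hQ) b]
  have hss := H'.semiample_of_nonneg (lcDiv ω Δ) b' hnn hD'
  obtain ⟨N, c, G, hc, hG, f', hf'⟩ := id hss
  have hklt := klt_of_semiample (X σ).model H'.model ω Δ hΔ (fun Q hQ => (h1 Q).1 hQ) N c G f'
    hc hG hf' (fun Q hQ => (hf' Q ((h1 Q).2 hQ)).ge)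
  exact ⟨H'.model, fun Q hQ => (h1 Q).1 hQ, hklt.1, hss,
    fun Q p f'' hQ hQ' => absurd ((h1 Q).2 hQ) hQ'⟩

end

end Pool.Agent.LibGMMT
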