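import Pool.Agent.LibGMMT.Multi

/-! TASK MX: charts, sections and prime divisors of normal subvarieties of products of projective
spaces. -/

open Pool.Agent.LibGMM

namespace Pool.Agent.LibGMMT

variable {K : Type} [Field K] [Algebra ℂ K] {G : Type} [Fintype G] {m : G → ℕ}

namespace Multi

variable (H : Multi K m)

theorem ratio_mem (s : (g : G) → Fin (m g + 1)) (g : G) (t : Fin (m g + 1)) :
    H.ratio s g t ∈ chart (segre H.x) s := by
  classical
  have h1 : (segre H.x (Function.update s g t) : K) / segre H.x s ∈ chart (segre H.x) s :=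
    Algebra.subset_adjoin ⟨Function.update s g t, rfl⟩
  have h2 : (segre H.x (Function.update s g t) : K) / segre H.x s = H.ratio s g t := by
    rw [segre_ratio, Finset.prod_eq_single g]
    · rw [Function.update_self]
      rfl
    · intro g' _ hg'
      rw [Function.update_of_ne hg', div_self (H.x g' _).ne_zero]
    · intro h
      exact absurd (Finset.mem_univ g) h
  rwa [h2] at h1

theorem chart_eq (s : (g : G) → Fin (m g + 1)) : chart (segre H.x) s =
    Algebra.adjoin ℂ (Set.range fun v : Σ g, Fin (m g + 1) => H.ratio s v.1 v.2) := by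
  apply le_antisymm
  · apply Algebra.adjoin_le
    rintro _ ⟨s', rfl⟩
    rw [SetLike.mem_coe]
    change (segre H.x s' : K) / segre H.x s ∈ _
    rw [segre_ratio]
    refine Subalgebra.prod_mem _ fun g _ => ?_
    exact Algebra.subset_adjoin ⟨⟨g, s' g⟩, rfl⟩
  · apply Algebra.adjoin_le
    rintro _ ⟨v, rfl⟩
    exact H.ratio_mem s v.1 v.2

theorem mem_chart_iff (s : (g : G) → Fin (m g + 1)) (y : K) : y ∈ chart (segre H.x) s ↔
    ∃ P : MvPolynomial (Σ g, Fin (m g + 1)) ℂ,
      MvPolynomial.aeval (fun v : Σ g, Fin (m g + 1) => H.ratio s v.1 v.2) P = y := by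
  rw [chart_eq, Algebra.adjoin_range_eq_range_aeval, AlgHom.mem_range]

theorem section_mem_chart (a : G → ℤ) (g : Kˣ)
    (hg : ∀ Q, H.model.IsPrimeDiv Q → 0 ≤ (Q.ord g : ℝ) + ∑ j, (a j : ℝ) * H.hyp j Q)
    (s : (g : G) → Fin (m g + 1)) :
    (g : K) * ∏ j, (H.x j (s j) : K) ^ (- a j) ∈ chart (segre H.x) s := by
  have h1 : (g : K) * ∏ j, (H.x j (s j) : K) ^ (- a j) ∈
      (⨅ V : {V : ValuationSubring K // (chart (segre H.x) s : Set K) ⊆ V.toSubring},
        V.1.toSubring) := by
    rw [Subring.mem_iInf]
    rintro ⟨V, hV⟩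
    refine H.section_mem a g hg V ?_ s ?_
    · intro c
      exact hV ((chart (segre H.x) s).algebraMap_mem c)
    · intro j q
      exact hV (H.ratio_mem s j q)
  rw [iInf_valuationSubring_superset] at h1
  have h2 : Subring.closure (chart (segre H.x) s : Set K) = (chart (segre H.x) s).toSubring :=
    Subring.closure_eq (chart (segre H.x) s).toSubring
  rw [h2] at h1
  exact H.normal s _ h1

/-- There are prime divisors, if `X` is not a point. -/
theorem exists_primeDiv (hK : ¬ Algebra.IsAlgebraic ℂ K) : ∃ Q, H.model.IsPrimeDiv Q := by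
  by_contra hcon
  push Not at hcon
  apply hK
  let s : (g : G) → Fin (m g + 1) := fun _ => 0
  have hall : ∀ y : K, y ∈ chart (segre H.x) s := by
    intro y
    let I : Ideal (chart (segre H.x) s) :=
      { carrier := {b | (b : K) * y ∈ chart (segre H.x) s}
        add_mem' := by
          intro a b ha hb
          simp only [Set.mem_setOf_eq] at ha hb ⊢
          rw [Subalgebra.coe_add, add_mul]
          exact Subalgebra.add_mem _ ha hb
        zero_mem' := by
          simp only [Set.mem_setOf_eq]
          rw [Subalgebra.coe_zero, zero_mul]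
          exact Subalgebra.zero_mem _
        smul_mem' := by
          intro c b hb
          simp only [Set.mem_setOf_eq] at hb ⊢
          rw [smul_eq_mul, Subalgebra.coe_mul, mul_assoc]
          exact Subalgebra.mul_mem _ c.2 hb }
    have hI : ∀ b : chart (segre H.x) s, b ∈ I ↔ (b : K) * y ∈ chart (segre H.x) s :=
      fun b => Iff.rfl
    by_cases hT : I = ⊤
    · have h1 : (1 : chart (segre H.x) s) ∈ I := by
        rw [hT]
        exact Submodule.mem_top
      rw [hI] at h1
      simpa using h1
    · exfalso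
      obtain ⟨M, hM, hIM⟩ := Ideal.exists_le_maximal I hT
      obtain ⟨a, b, hb, hy⟩ := H.model.mem_loc ⟨s, M, hM.isPrime⟩ y
        (fun Q hQ _ => absurd hQ (hcon Q))
      have hb' : b ∉ M := hb
      have hb0 : (b : K) ≠ 0 := by
        intro h0
        apply hb'
        have : b = 0 := Subtype.ext h0
        rw [this]
        exact M.zero_mem
      apply hb'
      apply hIM
      rw [hI, hy, mul_div_cancel₀ _ hb0]
      exact a.2
  have hfg : (⊤ : Subalgebra ℂ K).FG := by
    have h1 : chart (segre H.x) s = ⊤ := by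
      rw [eq_top_iff]
      intro y _
      exact hall y
    rw [← h1, chart_eq]
    refine ⟨(Set.finite_range fun v : Σ g, Fin (m g + 1) => H.ratio s v.1 v.2).toFinset, ?_⟩
    rw [Set.Finite.coe_toFinset]
  have : Algebra.FiniteType ℂ K := ⟨hfg⟩
  have : Module.Finite ℂ K := finite_of_finite_type_of_isJacobsonRing ℂ K
  exact Algebra.IsAlgebraic.of_finite ℂ K

end Multi

end Pool.Agent.LibGMMT
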