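import Pool.Agent.LibGMMT.Mx

/-! The plane determinantal curve. -/

open Pool.Agent.LibGMM

namespace Pool.Agent.LibGMMT

variable {K : Type} [Field K] [Algebra ℂ K]
variable {J F : Type} [Fintype J] [DecidableEq J] [Fintype F] [DecidableEq F] {n : ℕ} {m : F → ℕ}
variable {T : Tensor J n m}

namespace TensorVariety

variable (H : TensorVariety K T)

/-- The field generated by the coordinates of the factors other than the `i`-th, except the
coordinates `u`, `v` of the `j`-th factor. -/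
noncomputable def kf (i j : J) (u v : Fin (n + 1)) : IntermediateField ℂ K :=
  IntermediateField.adjoin ℂ {y | ∃ w : Σ g : J ⊕ F, Fin (dims J n m g + 1),
    w.1 ≠ Sum.inl i ∧ w ≠ ⟨Sum.inl j, u⟩ ∧ w ≠ ⟨Sum.inl j, v⟩ ∧
      y = H.ratio (fun _ => 0) w.1 w.2}

omit [DecidableEq F] in
theorem mem_kf (i j : J) (u v : Fin (n + 1)) (w : Σ g : J ⊕ F, Fin (dims J n m g + 1))
    (h1 : w.1 ≠ Sum.inl i) (h2 : w ≠ ⟨Sum.inl j, u⟩) (h3 : w ≠ ⟨Sum.inl j, v⟩) :
    H.ratio (fun _ => 0) w.1 w.2 ∈ H.kf i j u v :=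
  IntermediateField.subset_adjoin _ _ ⟨w, h1, h2, h3, rfl⟩

/-- The coordinates of the generic point, with the coordinates `u`, `v` of the `j`-th factor replaced
by variables. (The coordinates of the `i`-th factor do not matter.) -/
noncomputable def pk (i j : J) (u v : Fin (n + 1)) (g : J ⊕ F) (t : Fin (dims J n m g + 1)) :
    MvPolynomial (Fin 2) (H.kf i j u v) :=
  if h1 : g = Sum.inl i then 1
  else if h2 : (⟨g, t⟩ : Σ g : J ⊕ F, Fin (dims J n m g + 1)) = ⟨Sum.inl j, u⟩ then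
    MvPolynomial.X 0
  else if h3 : (⟨g, t⟩ : Σ g : J ⊕ F, Fin (dims J n m g + 1)) = ⟨Sum.inl j, v⟩ then
    MvPolynomial.X 1
  else MvPolynomial.C ⟨_, H.mem_kf i j u v ⟨g, t⟩ h1 h2 h3⟩

end TensorVariety

end Pool.Agent.LibGMMT
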