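import Pool.Agent.LibGMMT.Gen
import Pool.Agent.LibGMMT.Count

/-! TASK SF: the soft inequality for effective classes. -/

open Pool.Agent.LibGMM

namespace Pool.Agent.LibGMMT

variable {K : Type} [Field K] [Algebra ℂ K]
variable {J F : Type} [Fintype J] [DecidableEq J] [Fintype F] [DecidableEq F] {n : ℕ} {m : F → ℕ}
variable {T : Tensor J n m}

namespace TensorVariety

theorem soft_ineq (H : TensorVariety K T) (e : F → ℕ) (hT : ∀ s, MultiHom (T s) e) (hn : 2 ≤ n)
    (hS : H.Small) (hK : ¬ Algebra.IsAlgebraic ℂ K) (i j : J) (hij : i ≠ j) (a : J ⊕ F → ℤ)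
    (ha : a ∈ H.EffZ) (hneg : a (Sum.inl i) < 0) : 0 < a (Sum.inl j) := by
  classical
  by_contra hj
  push Not at hj
  set S : Finset (J ⊕ F) := {Sum.inl i, Sum.inl j} with hSdef
  have hSmem : ∀ g ∈ S, a g ≤ 0 := by
    intro g hg
    rcases Finset.mem_insert.1 hg with rfl | hg
    · exact hneg.le
    · rw [Finset.mem_singleton.1 hg]; exact hj
  have h1 : Algebra.IsAlgebraic (H.fieldOut S) K := by
    refine isAlgebraic_of_adjoin_eq_top (H.fieldOut S) _
      (H.adjoin_eq_top e hT hS hK j (fun _ => 0)) ?_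
    rintro y ⟨g, hgj, t, rfl⟩
    by_cases hg : g ∈ S
    · obtain rfl : g = Sum.inl i := by
        rcases Finset.mem_insert.1 hg with h | h
        · exact h
        · exact absurd (Finset.mem_singleton.1 h) hgj
      exact H.isAlgebraic_of_neg S a ha hSmem _ hg hneg t
    · exact isAlgebraic_algebraMap (⟨_, H.ratio_mem_fieldOut S g hg t⟩ : H.fieldOut S)
  have h2 := H.trdeg_le_of_isAlgebraic S h1
  have h3 := H.dim
  have h4 : ∑ g ∈ Finset.univ \ S, dims J n m g + 2 * n = Fintype.card J * n + ∑ f, m f := by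
    have h5 : ∑ g ∈ Finset.univ \ S, dims J n m g + ∑ g ∈ S, dims J n m g =
        ∑ g, dims J n m g := Finset.sum_sdiff (Finset.subset_univ S)
    have h6 : ∑ g ∈ S, dims J n m g = 2 * n := by
      rw [hSdef, Finset.sum_pair (by simpa using hij)]
      simp only [dims, Sum.elim_inl]
      ring
    rw [Fintype.sum_sum_type, h6] at h5
    simpa using h5
  have h5 : (Fintype.card J * n + ∑ f, m f : ℕ) ≤
      (∑ g ∈ Finset.univ \ S, dims J n m g : ℕ) + (n + 1) := by
    have : ((Fintype.card J * n + ∑ f, m f : ℕ) : Cardinal) ≤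
        ((∑ g ∈ Finset.univ \ S, dims J n m g : ℕ) : Cardinal) + ((n + 1 : ℕ) : Cardinal) := by
      rw [← h3]
      gcongr
    exact_mod_cast this
  omega

end TensorVariety

end Pool.Agent.LibGMMT
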