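import Pool.Agent.LibGMMT.Key
import Pool.Agent.LibGMMT.Sf
import Pool.Agent.LibGMMT.FL2

/-! TASK PH: assembly, the functional. -/

open Pool.Agent.LibGMM

namespace Pool.Agent.LibGMMT

variable {K : Type} [Field K] [Algebra ℂ K]
variable {J F : Type} [Fintype J] [DecidableEq J] [Fintype F] [DecidableEq F] {n : ℕ} {m : F → ℕ}

/-- The tensor with permuted slots. -/
abbrev perm (T : Tensor J n m) (σ : Equiv.Perm (Option J)) : Tensor J n m := fun s => T (s ∘ σ)

theorem refl_cast {I : Type} (d : I → ℕ) (i : I) (a : I → ℤ) :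
    (refl d i fun j => (a j : ℝ)) = fun j => ((refl d i a j : ℤ) : ℝ) := by
  funext j
  by_cases hj : j = i <;> simp [LibGMM.refl, hj]

omit [DecidableEq F] in
/-- An effective class of `H` gives an effective class of the flop. -/
private theorem effZ_flop {T T' : Tensor J n m} (H : TensorVariety K T) (H' : TensorVariety K T')
    (e : F → ℕ) (i : J) (h1 : ∀ Q, H'.model.IsPrimeDiv Q ↔ H.model.IsPrimeDiv Q)
    (h2 : ∀ Q, H.model.IsPrimeDiv Q → ∀ b : J ⊕ F → ℝ, ∑ g, b g * H.hyp g Q =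
        ∑ g, refl (deg n e) (Sum.inl i) b g * H'.hyp g Q) (a : J ⊕ F → ℤ) (ha : a ∈ H.EffZ) :
    refl (deg n e) (Sum.inl i) a ∈ H'.EffZ := by
  obtain ⟨g, hg⟩ := ha
  refine ⟨g, fun Q hQ => ?_⟩
  have h3 := hg Q ((h1 Q).1 hQ)
  rw [h2 Q ((h1 Q).1 hQ) (fun j => (a j : ℝ)), refl_cast] at h3
  exact h3

section

variable (T : Tensor J n m) (e : F → ℕ) (hT : ∀ s, MultiHom (T s) e)
  (hK : ¬ Algebra.IsAlgebraic ℂ K)
  (X : ∀ σ : Equiv.Perm (Option J), TensorVariety K (perm T σ)) (hX : ∀ σ, (X σ).Small)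

include hT hK hX

/-- One flop. -/
theorem flop_perm (σ : Equiv.Perm (Option J)) (H : TensorVariety K (perm T σ)) (hS : H.Small)
    (i : J) : ∃ (σ' : Equiv.Perm (Option J)) (H' : TensorVariety K (perm T σ')), H'.Small ∧
      (∀ Q, H'.model.IsPrimeDiv Q ↔ H.model.IsPrimeDiv Q) ∧
      ∀ Q, H.model.IsPrimeDiv Q → ∀ b : J ⊕ F → ℝ, ∑ g, b g * H.hyp g Q =
        ∑ g, refl (deg n e) (Sum.inl i) b g * H'.hyp g Q := by
  obtain ⟨H', h1, h2, h3⟩ := TensorVariety.flop (T := perm T σ) e (fun s => hT _) hK H hS i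
    (X (Equiv.swap none (some i) * σ)) (hX _)
  exact ⟨Equiv.swap none (some i) * σ, H', h1, h2, h3⟩

/-- The classes which are effective on some of the varieties. -/
def effAll (K : Type) [Field K] [Algebra ℂ K] (T : Tensor J n m) : Set (J ⊕ F → ℤ) :=
  {a | ∃ (σ : Equiv.Perm (Option J)) (H : TensorVariety K (perm T σ)), H.Small ∧ a ∈ H.EffZ}

theorem effAll_closed (i : J) (a : J ⊕ F → ℤ) (ha : a ∈ effAll K T) :
    refl (deg n e) (Sum.inl i) a ∈ effAll K T := by
  obtain ⟨σ, H, hS, ha⟩ := ha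
  obtain ⟨σ', H', hS', h1, h2⟩ := flop_perm T e hT hK X hX σ H hS i
  exact ⟨σ', H', hS', effZ_flop H H' e i h1 h2 a ha⟩

theorem effAll_sum (hn : 2 ≤ n) (hJ : 2 ≤ Fintype.card J) (hn2 : Fintype.card J = 2 → 3 ≤ n)
    (a : J ⊕ F → ℤ) (ha : a ∈ effAll K T) : 0 ≤ ∑ j : J, a (Sum.inl j) := by
  by_cases hall : ∀ j, 0 ≤ a (Sum.inl j)
  · exact Finset.sum_nonneg fun j _ => hall j
  push Not at hall
  obtain ⟨i, hi⟩ := hall
  obtain ⟨σ, H, hS, ha⟩ := ha
  obtain ⟨σ', H', hS', h1, h2⟩ := flop_perm T e hT hK X hX σ H hS i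
  have ha' := effZ_flop H H' e i h1 h2 a ha
  have hpos : ∀ j, j ≠ i → 0 < a (Sum.inl j) := fun j hj =>
    H.soft_ineq e (fun s => hT _) hn hS hK i j (Ne.symm hj) a ha hi
  have hai : refl (deg n e) (Sum.inl i) a (Sum.inl i) = - a (Sum.inl i) := by simp [LibGMM.refl]
  have haj : ∀ j, j ≠ i → refl (deg n e) (Sum.inl i) a (Sum.inl j) =
      a (Sum.inl j) + n * a (Sum.inl i) := by
    intro j hj
    simp [LibGMM.refl, hj, deg]
  -- some other coordinate is at least `- a i`
  obtain ⟨j, hj, hle⟩ : ∃ j, j ≠ i ∧ - a (Sum.inl i) ≤ a (Sum.inl j) := by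
    by_cases h3 : 3 ≤ Fintype.card J
    · obtain ⟨j, hj⟩ : ∃ j, j ≠ i := by
        by_contra hcon
        push Not at hcon
        have : Fintype.card J ≤ 1 := Fintype.card_le_one_iff.2 fun x y => by rw [hcon x, hcon y]
        omega
      obtain ⟨k, hk, hkj⟩ : ∃ k, k ≠ i ∧ k ≠ j := by
        by_contra hcon
        push Not at hcon
        have h4 : (Finset.univ : Finset J) ⊆ {i, j} := by
          intro x _
          by_cases hx : x = i
          · simp [hx]
          · simp [hcon x hx]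
        have h5 := Finset.card_le_card h4
        rw [Finset.card_univ] at h5
        have := Finset.card_le_two (a := i) (b := j)
        omega
      by_cases h4 : refl (deg n e) (Sum.inl i) a (Sum.inl j) < 0
      · have h5 := H'.soft_ineq e (fun s => hT _) hn hS' hK j k (Ne.symm hkj) _ ha' h4
        rw [haj k hk] at h5
        refine ⟨k, hk, ?_⟩
        have : (2 : ℤ) ≤ n := by exact_mod_cast hn
        nlinarith
      · rw [haj j hj] at h4
        refine ⟨j, hj, ?_⟩
        have : (2 : ℤ) ≤ n := by exact_mod_cast hn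
        nlinarith
    · have h4 : Fintype.card J = 2 := by omega
      have hn3 := hn2 h4
      obtain ⟨j, hj⟩ : ∃ j, j ≠ i := by
        by_contra hcon
        push Not at hcon
        have : Fintype.card J ≤ 1 := Fintype.card_le_one_iff.2 fun x y => by rw [hcon x, hcon y]
        omega
      refine ⟨j, hj, ?_⟩
      by_cases h5 : refl (deg n e) (Sum.inl i) a (Sum.inl j) < 0
      · have h6 := H'.key_ineq e (fun s => hT _) hn3 hS' hK j i hj _ ha' h5
        rw [haj j hj, hai] at h6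
        linarith
      · rw [haj j hj] at h5
        have : (3 : ℤ) ≤ n := by exact_mod_cast hn3
        nlinarith
  rw [← Finset.add_sum_erase _ _ (Finset.mem_univ i),
    ← Finset.add_sum_erase _ _ (Finset.mem_erase.2 ⟨hj, Finset.mem_univ j⟩), ← add_assoc]
  refine add_nonneg (by linarith) (Finset.sum_nonneg fun k hk => ?_)
  have hk1 := Finset.mem_of_mem_erase hk
  exact (hpos k (Finset.ne_of_mem_erase hk1)).le

end

end Pool.Agent.LibGMMT
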