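import Pool.Agent.LibGMMT.Mx
import Pool.Agent.LibGMMT.FO1
import Pool.Agent.LibGMMT.FO4

/-! TASK SP1: solutions of the equations in extension fields are specialisations of the generic
point. -/

open Pool.Agent.LibGMM

namespace Pool.Agent.LibGMMT

variable {K : Type} [Field K] [Algebra ℂ K]
variable {J F : Type} [Fintype J] [DecidableEq J] [Fintype F] [DecidableEq F] {n : ℕ} {m : F → ℕ}
variable {T : Tensor J n m}

namespace TensorVariety

variable (H : TensorVariety K T) {L : Type} [Field L] [Algebra ℂ L]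

/-- Nullstellensatz: polynomials vanishing at the generic point vanish at all solutions. -/
theorem spec (s : (g : J ⊕ F) → Fin (dims J n m g + 1))
    (v : (g : J ⊕ F) → Fin (dims J n m g + 1) → L) (h1 : ∀ g, v g (s g) = 1)
    (hv : ∀ r, eqn T v r = 0) (P : MvPolynomial (Σ g : J ⊕ F, Fin (dims J n m g + 1)) ℂ)
    (hP : MvPolynomial.aeval (fun w : Σ g : J ⊕ F, Fin (dims J n m g + 1) =>
      H.ratio s w.1 w.2) P = 0) :
    MvPolynomial.aeval (fun w : Σ g : J ⊕ F, Fin (dims J n m g + 1) => v w.1 w.2) P = 0 := by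
  let σ := Σ g : J ⊕ F, Fin (dims J n m g + 1)
  let gen : (g : J ⊕ F) → Fin (dims J n m g + 1) → MvPolynomial σ ℂ :=
    fun g t => MvPolynomial.X (⟨g, t⟩ : σ)
  let S : Set (MvPolynomial σ ℂ) :=
    (Set.range fun r => eqn T gen r) ∪ Set.range fun g => gen g (s g) - 1
  let I : Ideal (MvPolynomial σ ℂ) := Ideal.span S
  have hrad : P ∈ I.radical := by
    rw [← MvPolynomial.vanishingIdeal_zeroLocus_eq_radical (K := ℂ) I,
      MvPolynomial.mem_vanishingIdeal_iff]
    intro x hx
    rw [MvPolynomial.mem_zeroLocus_iff] at hx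
    refine H.complete s (fun g t => x ⟨g, t⟩) ?_ ?_ P ?_
    · intro g
      have h2 := hx (gen g (s g) - 1) (Ideal.subset_span (Or.inr ⟨g, rfl⟩))
      simp only [gen, map_sub, MvPolynomial.aeval_X, map_one] at h2
      exact sub_eq_zero.1 h2
    · intro r
      have h2 := hx (eqn T gen r) (Ideal.subset_span (Or.inl ⟨r, rfl⟩))
      rw [eqn_map T (MvPolynomial.aeval x) gen r] at h2
      simpa only [gen, MvPolynomial.aeval_X] using h2
    · exact hP
  obtain ⟨k, hk⟩ := hrad
  have hle : I ≤ RingHom.ker (MvPolynomial.aeval (fun w : σ => v w.1 w.2) :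
      MvPolynomial σ ℂ →ₐ[ℂ] L) := by
    rw [Ideal.span_le]
    rintro f (⟨r, rfl⟩ | ⟨g, rfl⟩)
    · change MvPolynomial.aeval (fun w : σ => v w.1 w.2) (eqn T gen r) = 0
      rw [eqn_map T (MvPolynomial.aeval fun w : σ => v w.1 w.2) gen r]
      simpa only [gen, MvPolynomial.aeval_X] using hv r
    · change MvPolynomial.aeval (fun w : σ => v w.1 w.2) (gen g (s g) - 1) = 0
      simp only [gen, map_sub, MvPolynomial.aeval_X, map_one, h1, sub_self]
  have h3 := hle hk
  rw [RingHom.mem_ker, map_pow] at h3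
  by_contra h
  exact pow_ne_zero k h h3

end TensorVariety

end Pool.Agent.LibGMMT
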