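import Pool.Agent.LibGMMT.SP1

/-! TASK SP2: solutions of the equations in extension fields are specialisations of the generic
point. -/

open Pool.Agent.LibGMM

namespace Pool.Agent.LibGMMT

variable {K : Type} [Field K] [Algebra ℂ K]
variable {J F : Type} [Fintype J] [DecidableEq J] [Fintype F] [DecidableEq F] {n : ℕ} {m : F → ℕ}
variable {T : Tensor J n m}

namespace TensorVariety

variable (H : TensorVariety K T) {L : Type} [Field L] [Algebra ℂ L]

theorem spec_hom (e : F → ℕ) (hT : ∀ s, MultiHom (T s) e)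
    (s : (g : J ⊕ F) → Fin (dims J n m g + 1))
    (v : (g : J ⊕ F) → Fin (dims J n m g + 1) → L) (h1 : ∀ g, v g (s g) ≠ 0)
    (hv : ∀ r, eqn T v r = 0) :
    ∃ ψ : chart (segre H.x) s →ₐ[ℂ] L,
      ∀ g t, ψ ⟨H.ratio s g t, H.ratio_mem s g t⟩ = v g t / v g (s g) := by
  let σ := Σ g : J ⊕ F, Fin (dims J n m g + 1)
  have hv' : ∀ r, eqn T (fun g t => v g t / v g (s g)) r = 0 := by
    intro r
    have h2 := eqn_scale T e hT (fun g => (v g (s g))⁻¹) v r
    rw [hv r, mul_zero] at h2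
    rw [← h2]
    congr 1
    funext g t
    rw [div_eq_inv_mul]
  let f0 : MvPolynomial σ ℂ →ₐ[ℂ] K :=
    MvPolynomial.aeval fun w : σ => H.ratio s w.1 w.2
  let f : MvPolynomial σ ℂ →ₐ[ℂ] chart (segre H.x) s :=
    f0.codRestrict (chart (segre H.x) s) fun P => (H.mem_chart_iff s _).2 ⟨P, rfl⟩
  have hf : Function.Surjective f := by
    rintro ⟨y, hy⟩
    obtain ⟨P, hP⟩ := (H.mem_chart_iff s y).1 hy
    exact ⟨P, Subtype.ext hP⟩
  let f1 : MvPolynomial σ ℂ →ₐ[ℂ] L :=
    MvPolynomial.aeval fun w : σ => v w.1 w.2 / v w.1 (s w.1)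
  have hker : RingHom.ker f.toRingHom ≤ RingHom.ker f1.toRingHom := by
    intro P hP
    have h3 : f0 P = 0 := congrArg Subtype.val (RingHom.mem_ker.1 hP)
    exact RingHom.mem_ker.2 (H.spec s (fun g t => v g t / v g (s g))
      (fun g => div_self (h1 g)) hv' P h3)
  refine ⟨AlgHom.liftOfSurjective f hf f1 hker, fun g t => ?_⟩
  have h4 : (⟨H.ratio s g t, H.ratio_mem s g t⟩ : chart (segre H.x) s) =
      f (MvPolynomial.X (⟨g, t⟩ : σ)) := by
    apply Subtype.ext
    change _ = f0 (MvPolynomial.X (⟨g, t⟩ : σ))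
    simp only [f0, MvPolynomial.aeval_X]
  rw [h4, AlgHom.liftOfSurjective_apply]
  simp only [f1, MvPolynomial.aeval_X]

end TensorVariety

end Pool.Agent.LibGMMT
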