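import Pool.Agent.LibGMMT.PH
import Pool.Agent.LibGMM.Num

/-! TASK WD: words of flops. -/

open Pool.Agent.LibGMM

namespace Pool.Agent.LibGMMT

variable {K : Type} [Field K] [Algebra ℂ K]
variable {J F : Type} [Fintype J] [DecidableEq J] [Fintype F] [DecidableEq F] {n : ℕ} {m : F → ℕ}

/-- Words of reflections are linear. -/
private theorem wd_linear {I : Type} (d : I → ℕ) (w : List I) (N : ℕ) (c : Fin N → ℝ)
    (a : Fin N → I → ℝ) :
    (w.foldr (LibGMM.refl d) fun j => ∑ n, c n * a n j) =
      fun j => ∑ n, c n * (w.foldr (LibGMM.refl d) (a n)) j := by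
  induction w with
  | nil => rfl
  | cons i w ih =>
    rw [List.foldr_cons, ih]
    funext j
    by_cases hj : j = i
    · subst hj; simp [LibGMM.refl]
    · simp only [LibGMM.refl, hj, if_false, List.foldr_cons]
      rw [Finset.mul_sum, ← Finset.sum_add_distrib]
      exact Finset.sum_congr rfl fun n _ => by ring

theorem foldr_cast {I : Type} (d : I → ℕ) (w : List I) (a : I → ℤ) :
    (w.foldr (LibGMM.refl d) fun j => (a j : ℝ)) =
      fun j => ((w.foldr (LibGMM.refl d) a) j : ℝ) := by
  induction w with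
  | nil => rfl
  | cons i w ih =>
    rw [List.foldr_cons, List.foldr_cons, ih, refl_cast]

/-- The sum of the coordinates at `J`. -/
private def wdFun (J F : Type) [Fintype J] : (J ⊕ F → ℤ) →+ ℤ where
  toFun a := ∑ j : J, a (Sum.inl j)
  map_zero' := by simp
  map_add' a b := by simp [Finset.sum_add_distrib]

section

variable (T : Tensor J n m) (e : F → ℕ) (hT : ∀ s, MultiHom (T s) e)
  (hK : ¬ Algebra.IsAlgebraic ℂ K)
  (X : ∀ σ : Equiv.Perm (Option J), TensorVariety K (perm T σ)) (hX : ∀ σ, (X σ).Small)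

include hT hK hX

/-- Following a word. -/
theorem flop_word (σ : Equiv.Perm (Option J)) (H : TensorVariety K (perm T σ)) (hS : H.Small)
    (w : List (J ⊕ F)) (hw : ∀ g ∈ w, ∃ i, g = Sum.inl i) :
    ∃ (σ' : Equiv.Perm (Option J)) (H' : TensorVariety K (perm T σ')), H'.Small ∧
      (∀ Q, H'.model.IsPrimeDiv Q ↔ H.model.IsPrimeDiv Q) ∧
      ∀ Q, H.model.IsPrimeDiv Q → ∀ b : J ⊕ F → ℝ, ∑ g, b g * H.hyp g Q =
        ∑ g, w.foldr (refl (deg n e)) b g * H'.hyp g Q := by
  induction w with
  | nil => exact ⟨σ, H, hS, fun Q => Iff.rfl, fun Q _ b => rfl⟩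
  | cons x w ih =>
    obtain ⟨i, rfl⟩ := hw x (by simp)
    obtain ⟨σ₁, H₁, hS₁, h1, h2⟩ := ih fun g hg => hw g (by simp [hg])
    obtain ⟨σ₂, H₂, hS₂, h3, h4⟩ := flop_perm T e hT hK X hX σ₁ H₁ hS₁ i
    refine ⟨σ₂, H₂, hS₂, fun Q => (h3 Q).trans (h1 Q), fun Q hQ b => ?_⟩
    rw [h2 Q hQ b, h4 Q ((h1 Q).2 hQ), List.foldr_cons]

/-- The combinatorics: an effective class becomes nonnegative at the factors `J` after a word. -/
theorem exists_word (hn : 2 ≤ Fintype.card J → 2 ≤ n) (hn2 : Fintype.card J = 2 → 3 ≤ n)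
    (σ : Equiv.Perm (Option J))
    (H : TensorVariety K (perm T σ)) (hS : H.Small) (b : J ⊕ F → ℝ) (hb : b ∈ H.EffR) :
    ∃ w : List (J ⊕ F), (∀ g ∈ w, ∃ i, g = Sum.inl i) ∧
      ∀ i, 0 ≤ w.foldr (refl (deg n e)) b (Sum.inl i) := by
  classical
  by_cases hJ : 2 ≤ Fintype.card J
  · obtain ⟨N, c, a, hc, ha, hab⟩ := H.effR_decomp b hb
    let I : Finset (J ⊕ F) := Finset.univ.map ⟨Sum.inl, Sum.inl_injective⟩
    have hI : ∀ g ∈ I, ∃ i, g = Sum.inl i := by
      intro g hg
      simp only [I, Finset.mem_map, Finset.mem_univ, true_and, Function.Embedding.coeFn_mk] at hg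
      obtain ⟨i, hi⟩ := hg
      exact ⟨i, hi.symm⟩
    have hn' := hn hJ
    obtain ⟨w, hw, hpos⟩ := terminate (d := deg n e) I (effAll K T)
      (by
        intro g hg a ha
        obtain ⟨i, rfl⟩ := hI g hg
        exact effAll_closed T e hT hK X hX i a ha)
      (wdFun J F) (fun a ha => effAll_sum T e hT hK X hX hn' hJ hn2 a ha)
      (fun _ => n * ((Fintype.card J : ℤ) - 1) - 2)
      (by
        intro g _
        by_cases h2 : Fintype.card J = 2
        · have h3 : (3 : ℤ) ≤ n := by exact_mod_cast hn2 h2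
          rw [h2]; push_cast; linarith
        · have h3 : (3 : ℤ) ≤ Fintype.card J := by
            have : 3 ≤ Fintype.card J := by omega
            exact_mod_cast this
          have h4 : (2 : ℤ) ≤ n := by exact_mod_cast hn'
          nlinarith)
      (by
        intro g hg a
        obtain ⟨i, rfl⟩ := hI g hg
        change ∑ j : J, refl (deg n e) (Sum.inl i) a (Sum.inl j) =
          ∑ j : J, a (Sum.inl j) + (n * ((Fintype.card J : ℤ) - 1) - 2) * a (Sum.inl i)
        have h5 : ∀ j : J, refl (deg n e) (Sum.inl i) a (Sum.inl j) =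
            (a (Sum.inl j) + n * a (Sum.inl i)) -
              (if j = i then (n + 2) * a (Sum.inl i) else 0) := by
          intro j
          by_cases hj : j = i
          · subst hj; simp [LibGMM.refl]; ring
          · simp [LibGMM.refl, hj, deg]
        rw [Finset.sum_congr rfl fun j _ => h5 j, Finset.sum_sub_distrib,
          Finset.sum_add_distrib, Finset.sum_ite_eq' Finset.univ i, Finset.sum_const,
          Finset.card_univ]
        simp only [Finset.mem_univ, if_true, nsmul_eq_mul]
        ring)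
      N c hc a (fun k => ⟨σ, H, hS, ha k⟩)
    refine ⟨w, fun g hg => hI g (hw g hg), fun i => ?_⟩
    have h6 := hpos (Sum.inl i) (by simp [I])
    have h7 : b = fun j => ∑ k, c k * (a k j : ℝ) := funext hab
    rw [h7, wd_linear]
    simp only [foldr_cast]
    exact h6
  · have hle : Fintype.card J ≤ 1 := by omega
    have hsub : ∀ i j : J, i = j := Fintype.card_le_one_iff.1 hle
    by_cases hall : ∀ i, 0 ≤ b (Sum.inl i)
    · exact ⟨[], by simp, by simpa using hall⟩
    · push Not at hall
      obtain ⟨i, hi⟩ := hall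
      refine ⟨[Sum.inl i], by simp, fun j => ?_⟩
      rw [hsub j i]
      simp [LibGMM.refl, hi.le]

end

end Pool.Agent.LibGMMT
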